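import Pool.Agent.H990_Full.Dgl
import Pool.Agent.H990_Song.Deg

/-! Partition at a separation of order `t`. -/

namespace H990

open Finset

set_option linter.unusedSectionVars false

/-- Interpolation of sums. -/
lemma exists_between {ι : Type*} [DecidableEq ι] (s : Finset ι) (a b : ι → ℕ)
    (hab : ∀ i ∈ s, a i ≤ b i) :
    ∀ m : ℕ, ∑ i ∈ s, a i ≤ m → m ≤ ∑ i ∈ s, b i →
      ∃ l : ι → ℕ, (∀ i ∈ s, a i ≤ l i ∧ l i ≤ b i) ∧ ∑ i ∈ s, l i = m := by
  induction s using Finset.induction_on with
  | empty =>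
    intro m h1 h2
    exact ⟨a, by simp, by simp at h2 ⊢; omega⟩
  | insert c s hc ih =>
    intro m h1 h2
    rw [Finset.sum_insert hc] at h1 h2
    have hc' := hab c (Finset.mem_insert_self _ _)
    have hs' : ∀ i ∈ s, a i ≤ b i := fun i hi => hab i (Finset.mem_insert_of_mem hi)
    have hsum := Finset.sum_le_sum hs'
    -- the part on `s`
    set m' := min (m - a c) (∑ i ∈ s, b i) with hm'
    obtain ⟨l, hl1, hl2⟩ := ih hs' m' (by omega) (by omega)
    refine ⟨Function.update l c (m - m'), ?_, ?_⟩
    · intro i hi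
      rcases eq_or_ne i c with rfl | hic
      · rw [Function.update_self]
        omega
      · rw [Function.update_of_ne hic]
        exact hl1 i ((Finset.mem_insert.mp hi).resolve_left hic)
    · rw [Finset.sum_insert hc, Function.update_self]
      have h3 : ∑ i ∈ s, Function.update l c (m - m') i = ∑ i ∈ s, l i := by
        apply Finset.sum_congr rfl
        intro i hi
        rw [Function.update_of_ne]
        rintro rfl
        exact hc hi
      rw [h3, hl2]
      omega

variable {V : Type*} [DecidableEq V] [Fintype V]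

lemma rch_closed {r : V → V → Prop} {G S Y : Finset V} {u v : V} (hG : G ⊆ S)
    (hcl : ∀ x ∈ Y, ∀ y ∈ S, r x y → y ∈ Y) (h : DGL.Rch r G u v) (hu : u ∈ Y) : v ∈ Y := by
  induction h with
  | refl => exact hu
  | tail _ hbc ih => exact hcl _ ih _ (hG hbc.2.2) hbc.1

lemma rch_rev_closed {r : V → V → Prop} {G S Y : Finset V} {u v : V} (hG : G ⊆ S)
    (hcl : ∀ x ∈ Y, ∀ y ∈ S, r x y → y ∈ Y) (h : DGL.Rch (rev r) G u v) (hv : v ∈ Y) :
    u ∈ Y := by
  induction h using Relation.ReflTransGen.head_induction_on with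
  | refl => exact hv
  | head hab _ ih => exact hcl _ ih _ (hG hab.2.1) hab.1

/-- The expansion condition on one side of a separation. -/
lemma sep_expand {r : V → V → Prop} {t : ℕ} (hk : Kc r t) {L R S : Finset V}
    (hLR : Disjoint L R) (hRS : Disjoint R S)
    (hcov : ∀ v, v ∈ L ∨ v ∈ S ∨ v ∈ R) (hno : ∀ x ∈ L, ∀ y ∈ R, ¬ r x y)
    (hR : R.Nonempty) (X' : Finset V) (hX' : X' ⊆ L) (hne : X'.Nonempty)
    (N : Finset V) (hN : ∀ v, v ∈ L ∨ v ∈ S → v ∉ X' → (∃ u ∈ X', r u v) → v ∈ N)
    (hNs : ∀ v ∈ N, (v ∈ L ∨ v ∈ S) ∧ v ∉ X') : t ≤ N.card := by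
  by_contra hlt
  push Not at hlt
  have h1 := hk.boundary hne hlt (by
    rw [Finset.disjoint_left]
    intro v hv hv'
    exact (hNs v hv').2 hv) (by
    intro x hx y hr
    rw [Finset.mem_union]
    by_cases hy : y ∈ X'
    · exact Or.inl hy
    · right
      apply hN y _ hy ⟨x, hx, hr⟩
      rcases hcov y with h | h | h
      · exact Or.inl h
      · exact Or.inr h
      · exact absurd hr (hno x (hX' hx) y h))
  obtain ⟨y, hy⟩ := hR
  have h2 : y ∈ X' ∪ N := by rw [h1]; exact Finset.mem_univ y
  rcases Finset.mem_union.mp h2 with h3 | h3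
  · exact Finset.disjoint_left.mp hLR (hX' h3) hy
  · rcases (hNs y h3).1 with h4 | h4
    · exact Finset.disjoint_left.mp hLR h4 hy
    · exact Finset.disjoint_left.mp hRS hy h4

/-- Partition at a separation of order `t`. -/
theorem sep_case {r : V → V → Prop} (hT : IsTournament r) {t : ℕ} (ht : 0 < t) (hk : Kc r t)
    {L R S : Finset V} (hLR : Disjoint L R) (hLS : Disjoint L S) (hRS : Disjoint R S)
    (hcov : ∀ v, v ∈ L ∨ v ∈ S ∨ v ∈ R) (hS : S.card = t) (hno : ∀ x ∈ L, ∀ y ∈ R, ¬ r x y)
    (hL : t ≤ L.card) (hR : t ≤ R.card) (n : Fin t → ℕ) (hn : ∀ i, 3 ≤ n i)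
    (hsum : ∑ i, n i = Fintype.card V) :
    ∃ F : Fin t → Finset V, (∀ i, Strong r (F i)) ∧ (∀ i, (F i).card = n i) ∧
      ∀ i j, i ≠ j → Disjoint (F i) (F j) := by
  classical
  -- enumeration of `S`
  have hcardS : Fintype.card {v // v ∈ S} = t := by rw [Fintype.card_coe, hS]
  let e : Fin t ≃ {v // v ∈ S} := (Fintype.equivFinOfCardEq hcardS).symm
  set z : Fin t → V := fun i => (e i).1 with hz
  have hzS : ∀ i, z i ∈ S := fun i => (e i).2
  have hzinj : Function.Injective z := fun i j h => e.injective (Subtype.ext h)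
  have hzim : Finset.univ.image z = S := by
    ext v
    simp only [Finset.mem_image, Finset.mem_univ, true_and]
    constructor
    · rintro ⟨i, rfl⟩; exact hzS i
    · intro hv
      exact ⟨e.symm ⟨v, hv⟩, by simp [hz]⟩
  have hcardV : L.card + S.card + R.card = Fintype.card V := by
    have h1 : (L ∪ S) ∪ R = univ := by
      ext v
      simp only [Finset.mem_union, Finset.mem_univ, iff_true]
      rcases hcov v with h | h | h
      · exact Or.inl (Or.inl h)
      · exact Or.inl (Or.inr h)
      · exact Or.inr h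
    rw [← Finset.card_univ, ← h1, Finset.card_union_of_disjoint, Finset.card_union_of_disjoint hLS]
    rw [Finset.disjoint_union_left]
    exact ⟨hLR, hRS.symm⟩
  have hLne : L.Nonempty := by rw [← Finset.card_pos]; omega
  have hRne : R.Nonempty := by rw [← Finset.card_pos]; omega
  have hs1 : ∑ i : Fin t, (n i - 2) + 2 * t = ∑ i, n i := by
    have h1 : ∑ i : Fin t, n i = ∑ i : Fin t, ((n i - 2) + 2) := by
      apply Finset.sum_congr rfl
      intro i _
      have := hn i
      omega
    rw [h1, Finset.sum_add_distrib]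
    simp [mul_comm]
  obtain ⟨l, hl1, hl2⟩ := exists_between (Finset.univ : Finset (Fin t)) (fun _ => 1)
    (fun i => n i - 2) (fun i _ => by have := hn i; omega) L.card (by simpa using hL) (by omega)
  have hl3 : ∑ i : Fin t, (n i - 1 - l i) = R.card := by
    have h1 : ∑ i : Fin t, n i = ∑ i : Fin t, ((n i - 1 - l i) + (l i + 1)) := by
      apply Finset.sum_congr rfl
      intro i _
      have := hn i
      have := hl1 i (Finset.mem_univ i)
      omega
    rw [Finset.sum_add_distrib, Finset.sum_add_distrib, hl2] at h1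
    simp only [Finset.sum_const, Finset.card_univ, Fintype.card_fin, smul_eq_mul, mul_one] at h1
    omega
  obtain ⟨Lf, hLf1, hLf2, hLf3, hLf4⟩ := DGL.dgl (E := r) (z := z) (X := L)
    (fun i h => Finset.disjoint_left.mp hLS h (hzS i)) hzinj (by
      intro X' hX' hne
      apply sep_expand hk hLR hRS hcov hno hRne X' hX' hne
      · intro v hv hv' hex
        simp only [Finset.mem_filter, Finset.mem_sdiff, Finset.mem_union, hzim]
        exact ⟨⟨hv, hv'⟩, hex⟩
      · intro v hv
        simp only [Finset.mem_filter, Finset.mem_sdiff, Finset.mem_union, hzim] at hv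
        exact hv.1) l hl2
  obtain ⟨Rf, hRf1, hRf2, hRf3, hRf4⟩ := DGL.dgl (E := rev r) (z := z) (X := R)
    (fun i h => Finset.disjoint_left.mp hRS h (hzS i)) hzinj (by
      intro X' hX' hne
      apply sep_expand hk.rev hLR.symm hLS (fun v => by
        rcases hcov v with h | h | h
        · exact Or.inr (Or.inr h)
        · exact Or.inr (Or.inl h)
        · exact Or.inl h) (fun x hx y hy h => hno y hy x hx h) hLne X' hX' hne
      · intro v hv hv' hex
        simp only [Finset.mem_filter, Finset.mem_sdiff, Finset.mem_union, hzim]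
        exact ⟨⟨hv, hv'⟩, hex⟩
      · intro v hv
        simp only [Finset.mem_filter, Finset.mem_sdiff, Finset.mem_union, hzim] at hv
        exact hv.1) (fun i => n i - 1 - l i) hl3
  have hzL : ∀ i j, z i ∉ Lf j := fun i j h => Finset.disjoint_left.mp hLS (hLf2 j h) (hzS i)
  have hzR : ∀ i j, z i ∉ Rf j := fun i j h => Finset.disjoint_left.mp hRS (hRf2 j h) (hzS i)
  have hLRf : ∀ i j, Disjoint (Lf i) (Rf j) := fun i j =>
    Finset.disjoint_of_subset_left (hLf2 i) (Finset.disjoint_of_subset_right (hRf2 j) hLR)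
  refine ⟨fun i => insert (z i) (Lf i ∪ Rf i), ?_, ?_, ?_⟩
  · intro i
    have h1 : insert (z i) (Lf i) ⊆ insert (z i) (Lf i ∪ Rf i) :=
      Finset.insert_subset_insert _ Finset.subset_union_left
    have h2 : insert (z i) (Rf i) ⊆ insert (z i) (Lf i ∪ Rf i) :=
      Finset.insert_subset_insert _ Finset.subset_union_right
    have harc : ∀ y ∈ Rf i, ∀ x ∈ Lf i, r y x := by
      intro y hy x hx
      apply hT.of_not
      · rintro rfl
        exact Finset.disjoint_left.mp (hLRf i i) hx hy
      · exact hno x (hLf2 i hx) y (hRf2 i hy)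
    have hLi : (Lf i).Nonempty := by
      rw [← Finset.card_pos, hLf1]
      exact (hl1 i (Finset.mem_univ i)).1
    have hRi : (Rf i).Nonempty := by
      rw [← Finset.card_pos, hRf1]
      have := hl1 i (Finset.mem_univ i)
      have := hn i
      omega
    obtain ⟨x0, hx0⟩ := hLi
    obtain ⟨y0, hy0⟩ := hRi
    apply strong_of_closed
    intro Y hY hYne hcl
    have hLz : ∀ x ∈ Lf i, x ∈ Y → z i ∈ Y := fun x hx hxY =>
      rch_closed h1 hcl (hLf4 i x hx) hxY
    have hzy : z i ∈ Y → ∀ y ∈ Rf i, y ∈ Y := fun hzY y hy =>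
      rch_rev_closed h2 hcl (hRf4 i y hy) hzY
    have hyx : ∀ y ∈ Rf i, y ∈ Y → ∀ x ∈ Lf i, x ∈ Y := fun y hy hyY x hx =>
      hcl y hyY x (h1 (Finset.mem_insert_of_mem hx)) (harc y hy x hx)
    have hzY : z i ∈ Y := by
      obtain ⟨v, hv⟩ := hYne
      rcases Finset.mem_insert.mp (hY hv) with rfl | h
      · exact hv
      · rcases Finset.mem_union.mp h with h | h
        · exact hLz v h hv
        · exact hLz x0 hx0 (hyx v h hv x0 hx0)
    apply Finset.Subset.antisymm hY
    intro v hv
    rcases Finset.mem_insert.mp hv with rfl | h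
    · exact hzY
    · rcases Finset.mem_union.mp h with h | h
      · exact hyx y0 hy0 (hzy hzY y0 hy0) v h
      · exact hzy hzY v h
  · intro i
    have h1 : z i ∉ Lf i ∪ Rf i := by
      rw [Finset.mem_union, not_or]
      exact ⟨hzL i i, hzR i i⟩
    rw [Finset.card_insert_of_notMem h1, Finset.card_union_of_disjoint (hLRf i i), hLf1, hRf1]
    have := hl1 i (Finset.mem_univ i)
    have := hn i
    omega
  · intro i j hij
    have hzz : z i ≠ z j := fun h => hij (hzinj h)
    rw [Finset.disjoint_insert_left, Finset.disjoint_insert_right]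
    refine ⟨?_, ?_, ?_⟩
    · simp only [Finset.mem_insert, Finset.mem_union, not_or]
      exact ⟨hzz, hzL i j, hzR i j⟩
    · simp only [Finset.mem_union, not_or]
      exact ⟨hzL j i, hzR j i⟩
    · rw [Finset.disjoint_union_left, Finset.disjoint_union_right, Finset.disjoint_union_right]
      exact ⟨⟨hLf3 i j hij, hLRf i j⟩, (hLRf j i).symm, hRf3 i j hij⟩

end H990
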