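import Pool.Agent.H990_Full.Pot
import Pool.Agent.H990_Full.Sep

/-! Levels of a linkage with potentials. -/

namespace H990

open Finset

set_option linter.unusedSectionVars false

variable {V : Type*} [DecidableEq V] [Fintype V]

open Classical in
/-- The unmoved vertices. -/
noncomputable def Um (A B : Finset V) (τ : V → V) : Finset V :=
  univ.filter (fun v => v ∉ A ∧ v ∉ B ∧ τ v = v)

lemma mem_Um {A B : Finset V} {τ : V → V} {v : V} :
    v ∈ Um A B τ ↔ v ∉ A ∧ v ∉ B ∧ τ v = v := by simp [Um]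

open Classical in
/-- Vertices of low level. -/
noncomputable def LeftL (A : Finset V) (X : V → ℕ) (l : ℕ) : Finset V :=
  univ.filter (fun v => v ∉ A ∧ X v ≤ l)

lemma mem_LeftL {A : Finset V} {X : V → ℕ} {l : ℕ} {v : V} :
    v ∈ LeftL A X l ↔ v ∉ A ∧ X v ≤ l := by simp [LeftL]

open Classical in
/-- Vertices of high level. -/
noncomputable def RightL (B : Finset V) (Y : V → ℕ) (l : ℕ) : Finset V :=
  univ.filter (fun v => v ∉ B ∧ l < Y v)

lemma mem_RightL {B : Finset V} {Y : V → ℕ} {l : ℕ} {v : V} :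
    v ∈ RightL B Y l ↔ v ∉ B ∧ l < Y v := by simp [RightL]

open Classical in
/-- Vertices which jump over the level `l`. -/
noncomputable def Jump (A B : Finset V) (X Y : V → ℕ) (l : ℕ) : Finset V :=
  univ.filter (fun v => v ∉ A ∧ v ∉ B ∧ Y v < l ∧ l < X v)

lemma mem_Jump {A B : Finset V} {X Y : V → ℕ} {l : ℕ} {v : V} :
    v ∈ Jump A B X Y l ↔ v ∉ A ∧ v ∉ B ∧ Y v < l ∧ l < X v := by simp [Jump]

lemma IsStep.surj {r : V → V → Prop} {A B : Finset V} {τ : V → V} (hτ : IsStep r A B τ)
    (hAB : A.card = B.card) {w : V} (hw : w ∉ B) : ∃ v, v ∉ A ∧ τ v = w := by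
  have hinj : Set.InjOn τ (univ \ A : Finset V) := by
    intro v hv w hw hvw
    rw [Finset.mem_coe, Finset.mem_sdiff] at hv hw
    exact hτ.inj v w hv.2 hw.2 hvw
  have himg : (univ \ A).image τ = univ \ B := by
    apply Finset.eq_of_subset_of_card_le
    · intro w hw
      obtain ⟨v, hv, rfl⟩ := Finset.mem_image.mp hw
      rw [Finset.mem_sdiff] at hv ⊢
      refine ⟨Finset.mem_univ _, ?_⟩
      rcases hτ.notB v hv.2 with h1 | h1
      · exact h1
      · exact h1.elim
    · rw [Finset.card_image_of_injOn hinj, Finset.card_sdiff_of_subset (Finset.subset_univ _),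
        Finset.card_sdiff_of_subset (Finset.subset_univ _)]
      omega
  have h1 : w ∈ (univ \ A).image τ := by
    rw [himg]; exact Finset.mem_sdiff.mpr ⟨Finset.mem_univ _, hw⟩
  obtain ⟨v, hv, hvw⟩ := Finset.mem_image.mp h1
  exact ⟨v, (Finset.mem_sdiff.mp hv).2, hvw⟩

lemma IsStep.nB {r : V → V → Prop} {A B : Finset V} {τ : V → V} (hτ : IsStep r A B τ)
    {v : V} (hv : v ∉ A) : τ v ∉ B := by
  rcases hτ.notB v hv with h1 | h1
  · exact h1
  · exact h1.elim

section count

variable {r : V → V → Prop} {A B : Finset V} {τ : V → V} {N : ℕ} {X Y : V → ℕ}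

/-- Counting across a level. -/
lemma Pot.count (hτ : IsStep r A B τ) (hP : Pot r A B τ N X Y) {t : ℕ} (hA : A.card = t)
    (hB : B.card = t) (l : ℕ) :
    (LeftL A X l).card + (RightL B Y l).card + t +
      ((Um A B τ).filter (fun v => Y v = l)).card = Fintype.card V := by
  classical
  set M0 : Finset V := univ.filter (fun w => w ∉ B ∧ Y w ≤ l) with hM0
  have h1 : (LeftL A X l).image τ = M0 \ (Um A B τ).filter (fun v => Y v = l) := by
    ext w
    simp only [Finset.mem_image, mem_LeftL, Finset.mem_sdiff, hM0, Finset.mem_filter,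
      Finset.mem_univ, true_and, mem_Um]
    constructor
    · rintro ⟨v, ⟨hvA, hvX⟩, rfl⟩
      by_cases hm : τ v = v
      · have h2 := hP.fix v hvA hm
        have h3 := hτ.nB hvA
        rw [hm] at h3 ⊢
        exact ⟨⟨h3, by omega⟩, fun h => by omega⟩
      · have h2 := hP.mov v hvA hm
        refine ⟨⟨hτ.nB hvA, by omega⟩, ?_⟩
        rintro ⟨⟨h3, h4, h5⟩, _⟩
        exact hm (hτ.inj _ _ h3 hvA h5)
    · rintro ⟨⟨hw, hwY⟩, hn⟩
      obtain ⟨v, hvA, rfl⟩ := hτ.surj (hA.trans hB.symm) hw
      refine ⟨v, ⟨hvA, ?_⟩, rfl⟩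
      by_cases hm : τ v = v
      · have h2 := hP.fix v hvA hm
        rw [hm] at hn hwY hw
        have h3 : Y v ≠ l := fun h => hn ⟨⟨hvA, hw, hm⟩, h⟩
        omega
      · have h2 := hP.mov v hvA hm
        omega
  have hinj : Set.InjOn τ (LeftL A X l : Finset V) := by
    intro v hv w hw hvw
    rw [Finset.mem_coe, mem_LeftL] at hv hw
    exact hτ.inj v w hv.1 hw.1 hvw
  have h2 : (Um A B τ).filter (fun v => Y v = l) ⊆ M0 := by
    intro v hv
    rw [Finset.mem_filter, mem_Um] at hv
    rw [hM0, Finset.mem_filter]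
    exact ⟨Finset.mem_univ _, hv.1.2.1, hv.2.le⟩
  have h3 := congrArg Finset.card h1
  rw [Finset.card_image_of_injOn hinj, Finset.card_sdiff_of_subset h2] at h3
  have h4 := Finset.card_le_card h2
  have h5 : M0.card + (RightL B Y l).card + B.card = Fintype.card V := by
    have h6 : Disjoint M0 (RightL B Y l) := by
      rw [Finset.disjoint_left]
      intro v hv hv'
      rw [hM0, Finset.mem_filter] at hv
      rw [mem_RightL] at hv'
      omega
    have h7 : Disjoint (M0 ∪ RightL B Y l) B := by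
      rw [Finset.disjoint_left]
      intro v hv
      rcases Finset.mem_union.mp hv with h | h
      · rw [hM0, Finset.mem_filter] at h; exact h.2.1
      · rw [mem_RightL] at h; exact h.1
    rw [← Finset.card_union_of_disjoint h6, ← Finset.card_union_of_disjoint h7,
      ← Finset.card_univ]
    congr 1
    ext v
    simp only [Finset.mem_union, hM0, Finset.mem_filter, Finset.mem_univ, true_and, mem_RightL,
      iff_true]
    by_cases hv : v ∈ B
    · exact Or.inr hv
    · rcases Nat.lt_or_ge l (Y v) with h | h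
      · exact Or.inl (Or.inr ⟨hv, h⟩)
      · exact Or.inl (Or.inl ⟨hv, h⟩)
  omega

/-- At most `t` moved vertices cross any level. -/
lemma Pot.cross (hτ : IsStep r A B τ) (hP : Pot r A B τ N X Y) {t : ℕ} (hA : A.card = t)
    (hB : B.card = t) (l : ℕ) (Z : Finset V)
    (hZ : ∀ v ∈ Z, v ∉ A ∧ v ∉ B ∧ τ v ≠ v ∧ Y v ≤ l ∧ l < X v) : Z.card ≤ t := by
  classical
  have h1 := hP.count hτ hA hB l
  set U := (Um A B τ).filter (fun v => Y v = l) with hU
  have h2 : Disjoint (LeftL A X l) (RightL B Y l ∪ (U ∪ Z)) := by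
    rw [Finset.disjoint_left]
    intro v hv hv'
    rw [mem_LeftL] at hv
    simp only [Finset.mem_union, mem_RightL, hU, Finset.mem_filter, mem_Um] at hv'
    rcases hv' with h | h | h
    · have := hP.dia v hv.1 h.1
      omega
    · have := hP.dia v hv.1 h.1.2.1
      omega
    · have := hZ v h
      omega
  have h3 : Disjoint (RightL B Y l) (U ∪ Z) := by
    rw [Finset.disjoint_left]
    intro v hv hv'
    rw [mem_RightL] at hv
    simp only [Finset.mem_union, hU, Finset.mem_filter, mem_Um] at hv'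
    rcases hv' with h | h
    · omega
    · have := hZ v h
      omega
  have h4 : Disjoint U Z := by
    rw [Finset.disjoint_left]
    intro v hv hv'
    rw [hU, Finset.mem_filter, mem_Um] at hv
    exact (hZ v hv').2.2.1 hv.1.2.2
  have h5 : (LeftL A X l ∪ (RightL B Y l ∪ (U ∪ Z))).card ≤ Fintype.card V :=
    Finset.card_le_univ _
  rw [Finset.card_union_of_disjoint h2, Finset.card_union_of_disjoint h3,
    Finset.card_union_of_disjoint h4] at h5
  omega

end count

/-- The symmetric part of the level structure. -/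
structure Lev (r : V → V → Prop) (A B : Finset V) (t N : ℕ) (X Y : V → ℕ) : Prop where
  dia : ∀ v, v ∉ A → v ∉ B → Y v + 1 ≤ X v
  arc : ∀ v w, v ∉ A → w ∉ B → r v w → Y w ≤ X v
  xN : ∀ v, X v ≤ N
  yN : ∀ v, Y v ≤ N
  occ : ∀ l < N, ∃ v, v ∉ A ∧ v ∉ B ∧ Y v = l ∧ X v = l + 1
  jump : ∀ l, (Jump A B X Y l).card ≤ t

lemma Lev.rev {r : V → V → Prop} {A B : Finset V} {t N : ℕ} {X Y : V → ℕ}
    (h : Lev r A B t N X Y) :
    Lev (H990.rev r) B A t N (fun v => N - Y v) (fun v => N - X v) := by
  refine ⟨?_, ?_, ?_, ?_, ?_, ?_⟩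
  · intro v h1 h2
    have h3 := h.dia v h2 h1
    have h4 := h.xN v
    have h5 := h.yN v
    omega
  · intro v w h1 h2 h3
    have h4 := h.arc w v h2 h1 h3
    show N - X w ≤ N - Y v
    omega
  · intro v; exact Nat.sub_le _ _
  · intro v; exact Nat.sub_le _ _
  · intro l hl
    obtain ⟨v, h1, h2, h3, h4⟩ := h.occ (N - 1 - l) (by omega)
    exact ⟨v, h2, h1, by omega, by omega⟩
  · intro l
    by_cases hl : l ≤ N
    · refine le_trans (Finset.card_le_card ?_) (h.jump (N - l))
      intro v hv
      rw [mem_Jump] at hv ⊢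
      have h4 := h.xN v
      have h5 := h.yN v
      exact ⟨hv.2.1, hv.1, by omega, by omega⟩
    · have : Jump B A (fun v => N - Y v) (fun v => N - X v) l = ∅ := by
        apply Finset.eq_empty_of_forall_notMem
        intro v hv
        rw [mem_Jump] at hv
        omega
      rw [this]
      simp

lemma Pot.lev {r : V → V → Prop} {A B : Finset V} {τ : V → V} {N : ℕ} {X Y : V → ℕ}
    (hτ : IsStep r A B τ) (hP : Pot r A B τ N X Y) {t : ℕ} (hA : A.card = t)
    (hB : B.card = t) (hocc : ∀ l < N, ∃ v, v ∉ A ∧ v ∉ B ∧ Y v = l ∧ X v = l + 1) :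
    Lev r A B t N X Y := by
  refine ⟨hP.dia, hP.arc, hP.xN, hP.yN, hocc, ?_⟩
  intro l
  apply hP.cross hτ hA hB l
  intro v hv
  rw [mem_Jump] at hv
  refine ⟨hv.1, hv.2.1, ?_, hv.2.2.1.le, hv.2.2.2⟩
  intro hm
  have := hP.fix v hv.1 hm
  omega

/-- Either there is a separation of order `t` and we are done, or all middle levels contain
unmoved vertices. -/
lemma sep_or {r : V → V → Prop} (hT : IsTournament r) {t : ℕ} (ht : 0 < t) (hk : Kc r t)
    {A B : Finset V} {τ : V → V} {N : ℕ} {X Y : V → ℕ}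
    (hτ : IsStep r A B τ) (hP : Pot r A B τ N X Y) (hA : A.card = t)
    (hB : B.card = t) (hocc : ∀ l < N, ∃ v, v ∉ A ∧ v ∉ B ∧ Y v = l ∧ X v = l + 1)
    (n : Fin t → ℕ) (hn : ∀ i, 3 ≤ n i) (hsum : ∑ i, n i = Fintype.card V) :
    (∃ F : Fin t → Finset V, (∀ i, Strong r (F i)) ∧ (∀ i, (F i).card = n i) ∧
      ∀ i j, i ≠ j → Disjoint (F i) (F j)) ∨
    ∀ l, t ≤ l → l + t + 1 ≤ N → ∃ v ∈ Um A B τ, Y v = l := by
  classical
  by_contra hcon
  rw [not_or] at hcon
  obtain ⟨hc1, hc2⟩ := hcon
  push Not at hc2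
  obtain ⟨l, hl1, hl2, hl3⟩ := hc2
  apply hc1
  have h1 := hP.count hτ hA hB l
  have h2 : (Um A B τ).filter (fun v => Y v = l) = ∅ := by
    apply Finset.eq_empty_of_forall_notMem
    intro v hv
    rw [Finset.mem_filter] at hv
    exact hl3 v hv.1 hv.2
  rw [h2, Finset.card_empty, add_zero] at h1
  have hLR : Disjoint (LeftL A X l) (RightL B Y l) := by
    rw [Finset.disjoint_left]
    intro v hv hv'
    rw [mem_LeftL] at hv
    rw [mem_RightL] at hv'
    have := hP.dia v hv.1 hv'.1
    omega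
  have : Nonempty V := Fintype.card_pos_iff.mp (by have := hk.1; omega)
  choose! w hw1 hw2 hw3 hw4 using hocc
  apply sep_case hT ht hk (L := LeftL A X l) (R := RightL B Y l)
    (S := univ \ (LeftL A X l ∪ RightL B Y l)) hLR _ _ _ _ _ _ _ n hn hsum
  · rw [Finset.disjoint_left]
    intro v hv hv'
    exact (Finset.mem_sdiff.mp hv').2 (Finset.mem_union_left _ hv)
  · rw [Finset.disjoint_left]
    intro v hv hv'
    exact (Finset.mem_sdiff.mp hv').2 (Finset.mem_union_right _ hv)
  · intro v
    by_cases h3 : v ∈ LeftL A X l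
    · exact Or.inl h3
    · by_cases h4 : v ∈ RightL B Y l
      · exact Or.inr (Or.inr h4)
      · refine Or.inr (Or.inl (Finset.mem_sdiff.mpr ⟨Finset.mem_univ _, ?_⟩))
        rw [Finset.mem_union, not_or]
        exact ⟨h3, h4⟩
  · rw [Finset.card_sdiff_of_subset (Finset.subset_univ _), Finset.card_univ,
      Finset.card_union_of_disjoint hLR]
    omega
  · intro x hx y hy hr
    rw [mem_LeftL] at hx
    rw [mem_RightL] at hy
    have := hP.arc x y hx.1 hy.1 hr
    omega
  · have h3 : (Finset.range l).card ≤ (LeftL A X l).card := by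
      apply Finset.card_le_card_of_injOn w
      · intro i hi
        rw [Finset.mem_coe, Finset.mem_range] at hi
        rw [Finset.mem_coe, mem_LeftL]
        exact ⟨hw1 i (by omega), by rw [hw4 i (by omega)]; omega⟩
      · intro i hi j hj hij
        rw [Finset.mem_coe, Finset.mem_range] at hi hj
        have h4 := hw3 i (by omega)
        have h5 := hw3 j (by omega)
        rw [hij] at h4
        omega
    rw [Finset.card_range] at h3
    omega
  · have h3 : (Finset.range (N - 1 - l)).card ≤ (RightL B Y l).card := by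
      apply Finset.card_le_card_of_injOn (fun i => w (l + 1 + i))
      · intro i hi
        rw [Finset.mem_coe, Finset.mem_range] at hi
        rw [Finset.mem_coe, mem_RightL]
        exact ⟨hw2 _ (by omega), by rw [hw3 _ (by omega)]; omega⟩
      · intro i hi j hj hij
        rw [Finset.mem_coe, Finset.mem_range] at hi hj
        have h4 := hw3 (l + 1 + i) (by omega)
        have h5 := hw3 (l + 1 + j) (by omega)
        simp only at hij
        rw [hij] at h4
        omega
    rw [Finset.card_range] at h3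
    omega

/-- There are linearly many unmoved vertices. -/
lemma Pot.many {r : V → V → Prop} {A B : Finset V} {τ : V → V} {N : ℕ} {X Y : V → ℕ}
    (hτ : IsStep r A B τ) (hP : Pot r A B τ N X Y) {t : ℕ} (hA : A.card = t)
    (hB : B.card = t)
    (hF : ∀ l, t ≤ l → l + t + 1 ≤ N → ∃ v ∈ Um A B τ, Y v = l) :
    Fintype.card V ≤ (t + 1) * (Um A B τ).card + 2 * t * (t + 1) := by
  classical
  rcases isEmpty_or_nonempty V with hV | hV
  · rw [Fintype.card_eq_zero]; exact Nat.zero_le _
  have h1 : N - 2 * t ≤ (Um A B τ).card := by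
    have hF' : ∀ i, i < N - 2 * t → ∃ v ∈ Um A B τ, Y v = t + i := fun i hi =>
      hF (t + i) (by omega) (by omega)
    choose! w hw1 hw2 using hF'
    have h3 : (Finset.range (N - 2 * t)).card ≤ (Um A B τ).card := by
      apply Finset.card_le_card_of_injOn w
      · intro i hi
        rw [Finset.mem_coe, Finset.mem_range] at hi
        exact hw1 i hi
      · intro i hi j hj hij
        rw [Finset.mem_coe, Finset.mem_range] at hi hj
        have h4 := hw2 i hi
        have h5 := hw2 j hj
        rw [hij] at h4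
        omega
    rwa [Finset.card_range] at h3
  set Mv : Finset V := univ.filter (fun v => v ∉ A ∧ v ∉ B ∧ τ v ≠ v) with hMv
  have h2 : Mv.card ≤ N * t := by
    have h3 : Mv ⊆ (Finset.range N).biUnion (fun l => Mv.filter (fun v => Y v = l)) := by
      intro v hv
      have hv' := hv
      rw [hMv, Finset.mem_filter] at hv'
      rw [Finset.mem_biUnion]
      refine ⟨Y v, ?_, Finset.mem_filter.mpr ⟨hv, rfl⟩⟩
      rw [Finset.mem_range]
      have := hP.dia v hv'.2.1 hv'.2.2.1
      have := hP.xN v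
      omega
    refine (Finset.card_le_card h3).trans ?_
    have h4 := Finset.card_biUnion_le_card_mul (Finset.range N)
      (fun l => Mv.filter (fun v => Y v = l)) t (by
        intro l _
        apply hP.cross hτ hA hB l
        intro v hv
        rw [Finset.mem_filter, hMv, Finset.mem_filter] at hv
        have := hP.dia v hv.1.2.1 hv.1.2.2.1
        exact ⟨hv.1.2.1, hv.1.2.2.1, hv.1.2.2.2, by omega, by omega⟩)
    rwa [Finset.card_range] at h4
  have h5 : Fintype.card V ≤ (A.card + B.card) + ((Um A B τ).card + Mv.card) := by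
    have h6 : (univ : Finset V) ⊆ (A ∪ B) ∪ (Um A B τ ∪ Mv) := by
      intro v _
      simp only [Finset.mem_union, mem_Um, hMv, Finset.mem_filter, Finset.mem_univ, true_and]
      tauto
    have h7 := (Finset.card_le_card h6).trans (Finset.card_union_le _ _)
    have h8 := Finset.card_union_le A B
    have h9 := Finset.card_union_le (Um A B τ) Mv
    rw [Finset.card_univ] at h7
    omega
  have h6 : N * t ≤ ((Um A B τ).card + 2 * t) * t := Nat.mul_le_mul_right _ (by omega)
  have h7 : ((Um A B τ).card + 2 * t) * t + (Um A B τ).card + 2 * t =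
      (t + 1) * (Um A B τ).card + 2 * t * (t + 1) := by ring
  omega

section trackLevels

variable {r : V → V → Prop} {A B : Finset V} {τ : V → V} {N : ℕ} {X Y : V → ℕ}

lemma Pot.track_step (hτ : IsStep r A B τ) (hP : Pot r A B τ N X Y) {b : V} (hb : b ∈ B)
    {j : ℕ} (hj : j < tend A τ b) : Y (τ^[j + 1] b) = X (τ^[j] b) := by
  have h1 := (hτ.tend_spec hb).2 j hj
  rw [Function.iterate_succ_apply']
  apply hP.mov _ h1
  intro h2
  have h3 : τ^[j + 1] b = τ^[j] b := by rw [Function.iterate_succ_apply', h2]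
  have := hτ.track_inj hb (by omega) (by omega) h3
  omega

lemma IsStep.track_nB (hτ : IsStep r A B τ) {b : V} (hb : b ∈ B) {j : ℕ} (hj1 : 1 ≤ j)
    (hj : j ≤ tend A τ b) : τ^[j] b ∉ B := by
  obtain ⟨i, rfl⟩ : ∃ i, j = i + 1 := ⟨j - 1, by omega⟩
  rw [Function.iterate_succ_apply']
  exact hτ.nB ((hτ.tend_spec hb).2 i (by omega))

/-- Levels increase along a track. -/
lemma Pot.track_mono (hτ : IsStep r A B τ) (hP : Pot r A B τ N X Y) {b : V} (hb : b ∈ B)
    {i : ℕ} (hi1 : 1 ≤ i) (k : ℕ) (hk : i + k ≤ tend A τ b) :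
    Y (τ^[i] b) + k ≤ Y (τ^[i + k] b) := by
  induction k with
  | zero => exact le_rfl
  | succ k ih =>
    have h1 := ih (by omega)
    have h2 := hP.track_step hτ hb (j := i + k) (by omega)
    have h3 := hP.dia _ ((hτ.tend_spec hb).2 (i + k) (by omega))
      (hτ.track_nB hb (j := i + k) (by omega) (by omega))
    have h4 : i + (k + 1) = i + k + 1 := by ring
    rw [h4]
    omega

lemma Pot.track_Y (hτ : IsStep r A B τ) (hP : Pot r A B τ N X Y) {b : V} (hb : b ∈ B)
    {j : ℕ} (hj1 : 1 ≤ j) (hj : j ≤ tend A τ b) : j ≤ Y (τ^[j] b) + 1 := by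
  have h1 := hP.track_mono hτ hb (i := 1) le_rfl (j - 1) (by omega)
  have h2 : 1 + (j - 1) = j := by omega
  rw [h2] at h1
  omega

lemma Pot.tend_le (hτ : IsStep r A B τ) (hP : Pot r A B τ N X Y) {b : V} (hb : b ∈ B) :
    tend A τ b ≤ N + 1 := by
  by_cases h : 1 ≤ tend A τ b
  · have h1 := hP.track_Y hτ hb h le_rfl
    have h2 := hP.yN (τ^[tend A τ b] b)
    omega
  · omega

/-- Few vertices of a track have low level. -/
lemma Pot.track_low (hτ : IsStep r A B τ) (hP : Pot r A B τ N X Y) {b : V} (hb : b ∈ B)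
    (Z : Finset V) (hZ : ∀ v ∈ Z, v ∈ track A τ b ∧ v ∉ A ∧ v ∉ B ∧ Y v ≤ 5) : Z.card ≤ 6 := by
  have h1 : Z ⊆ (Finset.Icc 1 6).image (fun j => τ^[j] b) := by
    intro v hv
    obtain ⟨h1, h2, h3, h4⟩ := hZ v hv
    obtain ⟨j, hj, rfl⟩ := mem_track.mp h1
    have hj1 : 1 ≤ j := by
      by_contra h
      have : j = 0 := by omega
      subst this
      exact h3 hb
    have h5 := hP.track_Y hτ hb hj1 hj
    exact Finset.mem_image.mpr ⟨j, Finset.mem_Icc.mpr ⟨hj1, by omega⟩, rfl⟩
  have h2 := (Finset.card_le_card h1).trans Finset.card_image_le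
  simpa using h2

/-- Few vertices of a track have high level. -/
lemma Pot.track_high (hτ : IsStep r A B τ) (hP : Pot r A B τ N X Y) {b : V} (hb : b ∈ B)
    (Z : Finset V) (hZ : ∀ v ∈ Z, v ∈ track A τ b ∧ v ∉ A ∧ v ∉ B ∧ N ≤ X v + 5) :
    Z.card ≤ 6 := by
  have h1 : Z ⊆ (Finset.Icc 1 6).image (fun j => τ^[tend A τ b - j] b) := by
    intro v hv
    obtain ⟨h1, h2, h3, h4⟩ := hZ v hv
    obtain ⟨j, hj, rfl⟩ := mem_track.mp h1
    have hj2 : j < tend A τ b := by
      rcases Nat.lt_or_ge j (tend A τ b) with h | h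
      · exact h
      · have : j = tend A τ b := by omega
        rw [this] at h2
        exact absurd (hτ.tend_spec hb).1 h2
    have h5 := hP.track_step hτ hb hj2
    have h6 := hP.track_mono hτ hb (i := j + 1) (by omega) (tend A τ b - (j + 1)) (by omega)
    have h7 : j + 1 + (tend A τ b - (j + 1)) = tend A τ b := by omega
    rw [h7] at h6
    have h8 := hP.yN (τ^[tend A τ b] b)
    refine Finset.mem_image.mpr ⟨tend A τ b - j, Finset.mem_Icc.mpr ⟨by omega, by omega⟩, ?_⟩
    have h9 : tend A τ b - (tend A τ b - j) = j := by omega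
    simp only [h9]
  have h2 := (Finset.card_le_card h1).trans Finset.card_image_le
  simpa using h2

/-- Two-step arcs of a track go backwards. -/
lemma Pot.track_back (hT : IsTournament r) (hτ : IsStep r A B τ) (hP : Pot r A B τ N X Y)
    {b : V} (hb : b ∈ B) {j : ℕ} (hj : j + 2 ≤ tend A τ b) :
    r (τ^[j + 2] b) (τ^[j] b) := by
  have h1 := hP.track_step hτ hb (j := j) (by omega)
  have h2 := hP.track_step hτ hb (j := j + 1) (by omega)
  have h3 := hP.dia _ ((hτ.tend_spec hb).2 (j + 1) (by omega))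
    (hτ.track_nB hb (j := j + 1) (by omega) (by omega))
  have h5 : τ^[j] b ≠ τ^[j + 2] b := by
    intro h
    have := hτ.track_inj hb (by omega) (by omega) h
    omega
  apply hT.of_not h5
  intro h
  have h4 := hP.arc _ _ ((hτ.tend_spec hb).2 j (by omega))
    (hτ.track_nB hb (j := j + 2) (by omega) hj) h
  have h6 : j + 1 + 1 = j + 2 := rfl
  rw [h6] at h2
  omega

end trackLevels

end H990
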