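import Pool.Agent.H990_Song.Upper
import Pool.Agent.H990_Full.Lev

/-! The bounded classes: disjoint strong sets of bounded size which leave a strong tournament and
avoid a given number of tracks. -/

namespace H990

open Finset

set_option linter.unusedSectionVars false

variable {V : Type*} [DecidableEq V] [Fintype V]

/-- The thin case. -/
lemma thin_case' {r : V → V → Prop} (hT : IsTournament r) {t : ℕ} (hk : Kc r t)
    {ι : Type*} [Fintype ι] [DecidableEq ι] {s : ℕ} (hs : 1 ≤ s) (hι : Fintype.card ι + s = t)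
    {A B : Finset V} {τ : V → V} (hτ : IsStep r A B τ) (hA : A.card = t) (hB : B.card = t)
    {q Kb L : ℕ} (l : ι → ℕ) (hl3 : ∀ i, 3 ≤ l i) (hlq : ∑ i, l i ≤ q)
    (hbK : ∀ b ∈ B, (Nout r b).card ≤ Kb) (haK : ∀ a ∈ A, (Nout (rev r) a).card ≤ Kb)
    (hshort : ∀ b ∈ B, tend A τ b + 1 ≤ L)
    (hn : (t * L + 2 * (2 * (Kb + q) + 1)) + 2 * (t * Kb) +
      2 ^ (t * L + 2 * (2 * (Kb + q) + 1)) * q + 1 ≤ Fintype.card V) :
    ∃ F : ι → Finset V, (∀ i, Strong r (F i)) ∧ (∀ i, (F i).card = l i) ∧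
      (∀ i j, i ≠ j → Disjoint (F i) (F j)) ∧ Strong r (univ \ univ.biUnion F) ∧
      ∃ Bs : Finset V, Bs ⊆ B ∧ Bs.card = s ∧ ∀ b ∈ Bs, ∀ i, Disjoint (F i) (track A τ b) := by
  classical
  set ψ := t * L + 2 * (2 * (Kb + q) + 1) with hψ
  set Ψ : Finset V := B.biUnion (fun b => track A τ b) ∪ (Low r (Kb + q) ∪ Low (rev r) (Kb + q))
    with hΨ
  have hΨcard : Ψ.card ≤ ψ := by
    have h1 : (B.biUnion (fun b => track A τ b)).card ≤ B.card * L :=
      Finset.card_biUnion_le_card_mul _ _ _ (fun b hb => card_track_le.trans (hshort b hb))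
    have h2 := card_Low_le hT (Kb + q)
    have h3 := card_Low_le hT.rev (Kb + q)
    rw [hB] at h1
    calc Ψ.card ≤ _ + (Low r (Kb + q) ∪ Low (rev r) (Kb + q)).card := Finset.card_union_le _ _
      _ ≤ _ + ((Low r (Kb + q)).card + (Low (rev r) (Kb + q)).card) :=
        Nat.add_le_add_left (Finset.card_union_le _ _) _
      _ ≤ ψ := by omega
  have htrackΨ : ∀ b ∈ B, track A τ b ⊆ Ψ := by
    intro b hb v hv
    exact Finset.mem_union_left _ (Finset.mem_biUnion.mpr ⟨b, hb, hv⟩)
  set Dom : Finset V := univ \ (Ψ ∪ (NoutS r B ∪ NoutS (rev r) A)) with hDom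
  have hDomcard : 2 ^ Ψ.card * q < Dom.card := by
    have h1 : (NoutS r B).card ≤ t * Kb := by
      rw [← hB]; exact card_NoutS_le hbK
    have h2 : (NoutS (rev r) A).card ≤ t * Kb := by
      rw [← hA]; exact card_NoutS_le haK
    have h3 : (Ψ ∪ (NoutS r B ∪ NoutS (rev r) A)).card ≤ ψ + 2 * (t * Kb) := by
      calc _ ≤ Ψ.card + (NoutS r B ∪ NoutS (rev r) A).card := Finset.card_union_le _ _
        _ ≤ Ψ.card + ((NoutS r B).card + (NoutS (rev r) A).card) :=
          Nat.add_le_add_left (Finset.card_union_le _ _) _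
        _ ≤ _ := by omega
    rw [hDom, Finset.card_sdiff_of_subset (Finset.subset_univ _), Finset.card_univ]
    have h4 : 2 ^ Ψ.card * q ≤ 2 ^ ψ * q :=
      Nat.mul_le_mul_right _ (Nat.pow_le_pow_right (by norm_num) hΨcard)
    omega
  obtain ⟨O, hO, hfib⟩ := Finset.exists_lt_card_fiber_of_mul_lt_card_of_maps_to
    (s := Dom) (t := Ψ.powerset) (f := fun d => Nout r d ∩ Ψ) (n := q)
    (by
      intro d _
      rw [Finset.mem_powerset]
      exact Finset.inter_subset_right)
    (by rw [Finset.card_powerset]; exact hDomcard)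
  set D' : Finset V := Dom.filter (fun d => Nout r d ∩ Ψ = O) with hD'
  have hD'ne : D'.Nonempty := by
    rw [← Finset.card_pos]; omega
  obtain ⟨d0, hd0⟩ := hD'ne
  have hDprop : ∀ d ∈ D', d ∉ Ψ ∧ d ∉ NoutS r B ∧ d ∉ NoutS (rev r) A ∧ Nout r d ∩ Ψ = O := by
    intro d hd
    obtain ⟨hd1, hd2⟩ := Finset.mem_filter.mp hd
    have hd3 := (Finset.mem_sdiff.mp hd1).2
    refine ⟨fun h => hd3 (Finset.mem_union_left _ h),
      fun h => hd3 (Finset.mem_union_right _ (Finset.mem_union_left _ h)),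
      fun h => hd3 (Finset.mem_union_right _ (Finset.mem_union_right _ h)), hd2⟩
  have hDO : ∀ d ∈ D', ∀ o ∈ O, r d o := by
    intro d hd o ho
    rw [← (hDprop d hd).2.2.2, Finset.mem_inter, mem_Nout] at ho
    exact ho.1
  have hOΨ : O ⊆ Ψ := Finset.mem_powerset.mp hO
  have hDX : ∀ d ∈ D', ∀ x ∈ Ψ \ O, r x d := by
    intro d hd x hx
    rw [Finset.mem_sdiff] at hx
    have h1 : d ≠ x := by
      rintro rfl
      exact (hDprop d hd).1 hx.1
    apply hT.of_not h1
    intro h
    apply hx.2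
    rw [← (hDprop d hd).2.2.2, Finset.mem_inter, mem_Nout]
    exact ⟨h, hx.1⟩
  have hBO : ∀ b ∈ B, b ∈ O := by
    intro b hb
    have hbΨ : b ∈ Ψ := htrackΨ b hb (mem_track.mpr ⟨0, by omega, rfl⟩)
    by_contra hbO
    have h1 := hDX d0 hd0 b (Finset.mem_sdiff.mpr ⟨hbΨ, hbO⟩)
    exact (hDprop d0 hd0).2.1 (mem_NoutS.mpr ⟨b, hb, h1⟩)
  have hAO : ∀ a ∈ A, a ∉ O := by
    intro a ha haO
    exact (hDprop d0 hd0).2.2.1 (mem_NoutS.mpr ⟨a, ha, hDO d0 hd0 a haO⟩)
  -- disjoint pieces of the bulk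
  obtain ⟨Df, hDf1, hDf2, hDf3⟩ := exists_disj_family (fun i => l i - 2) (D'.erase d0) (by
    rw [Finset.card_erase_of_mem hd0]
    have h1 : ∑ i, (l i - 2) ≤ ∑ i, l i := Finset.sum_le_sum (fun i _ => Nat.sub_le _ _)
    omega)
  set DD : Finset V := univ.biUnion Df with hDD
  have hDDsub : ∀ d ∈ insert d0 DD, d ∈ D' := by
    intro d hd
    rcases Finset.mem_insert.mp hd with rfl | h
    · exact hd0
    · obtain ⟨i, _, hi⟩ := Finset.mem_biUnion.mp h
      exact (Finset.mem_erase.mp (hDf1 i hi)).2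
  have hd0DD : d0 ∉ DD := by
    intro h
    obtain ⟨i, _, hi⟩ := Finset.mem_biUnion.mp h
    exact (Finset.mem_erase.mp (hDf1 i hi)).1 rfl
  -- the special tracks
  obtain ⟨Bs, hBsB, hBsc⟩ := Finset.exists_subset_card_eq (s := B) (n := s) (by omega)
  have hBsne : Bs.Nonempty := by
    rw [← Finset.card_pos]; omega
  obtain ⟨β⟩ : Nonempty (ι ↪ {b // b ∈ B \ Bs}) := by
    apply Function.Embedding.nonempty_of_card_le
    rw [Fintype.card_coe, Finset.card_sdiff_of_subset hBsB]
    omega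
  have hβB : ∀ i, (β i).1 ∈ B := fun i => (Finset.mem_sdiff.mp (β i).2).1
  have hβne : ∀ i, (β i).1 ∉ Bs := fun i => (Finset.mem_sdiff.mp (β i).2).2
  set P : Finset V := Bs.biUnion (fun b => track A τ b) with hP
  have htrP : ∀ b ∈ Bs, track A τ b ⊆ P := by
    intro b hb v hv
    exact Finset.mem_biUnion.mpr ⟨b, hb, hv⟩
  have hPΨ : P ⊆ Ψ := by
    intro v hv
    obtain ⟨b, hb, hv'⟩ := Finset.mem_biUnion.mp hv
    exact htrackΨ b (hBsB hb) hv'
  set Op : Finset V := O \ P with hOp
  set Xp : Finset V := (Ψ \ O) \ P with hXp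
  have hOX : Disjoint Op Xp := by
    rw [Finset.disjoint_left]
    intro v hv hv'
    exact (Finset.mem_sdiff.mp (Finset.mem_sdiff.mp hv').1).2 (Finset.mem_sdiff.mp hv).1
  -- initial configuration
  have hcross : ∀ i, ∃ k < tend A τ (β i).1, τ^[k] (β i).1 ∈ O ∧ τ^[k + 1] (β i).1 ∉ O := by
    intro i
    exact hτ.crossing (hβB i) (fun v => v ∈ O) (hBO _ (hβB i)) (fun a ha _ => hAO a ha)
  choose k hk1 hk2 hk3 using hcross
  have hPdisj : ∀ i, Disjoint (track A τ (β i).1) P := by
    intro i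
    rw [hP, Finset.disjoint_biUnion_right]
    intro b hb
    exact hτ.track_disjoint (hβB i) (hBsB hb) (fun h => hβne i (h ▸ hb))
  have htr1 : ∀ i, τ^[k i] (β i).1 ∈ track A τ (β i).1 := fun i =>
    mem_track.mpr ⟨_, (hk1 i).le, rfl⟩
  have htr2 : ∀ i, τ^[k i + 1] (β i).1 ∈ track A τ (β i).1 := fun i =>
    mem_track.mpr ⟨_, hk1 i, rfl⟩
  have hcfg0 : IsCfg r Op Xp (fun i => τ^[k i] (β i).1) (fun i => τ^[k i + 1] (β i).1) := by
    refine ⟨?_, ?_, ?_, ?_, ?_⟩
    · intro i j hij
      by_contra hne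
      have h1 : (β i).1 ≠ (β j).1 := fun h => hne (β.injective (Subtype.ext h))
      have h2 := hτ.track_disjoint (hβB i) (hβB j) h1
      exact Finset.disjoint_left.mp h2 (htr1 i) (by
        have : τ^[k i] (β i).1 = τ^[k j] (β j).1 := hij
        rw [this]; exact htr1 j)
    · intro i j hij
      by_contra hne
      have h1 : (β i).1 ≠ (β j).1 := fun h => hne (β.injective (Subtype.ext h))
      have h2 := hτ.track_disjoint (hβB i) (hβB j) h1
      exact Finset.disjoint_left.mp h2 (htr2 i) (by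
        have : τ^[k i + 1] (β i).1 = τ^[k j + 1] (β j).1 := hij
        rw [this]; exact htr2 j)
    · intro i
      exact Finset.mem_sdiff.mpr ⟨hk2 i, Finset.disjoint_left.mp (hPdisj i) (htr1 i)⟩
    · intro i
      refine Finset.mem_sdiff.mpr ⟨Finset.mem_sdiff.mpr ⟨htrackΨ _ (hβB i) (htr2 i), hk3 i⟩,
        Finset.disjoint_left.mp (hPdisj i) (htr2 i)⟩
    · intro i
      exact hτ.track_arc (hβB i) (hk1 i)
  -- minimal configuration
  have hex : ∃ n, ∃ o x : ι → V, IsCfg r Op Xp o x ∧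
      (Zcl r (Wc DD o x) d0).card + (Zcl (rev r) (Wc DD o x) d0).card = n :=
    ⟨_, _, _, hcfg0, rfl⟩
  obtain ⟨o, x, hc, hcn⟩ := Nat.find_spec hex
  have hmin : ∀ o' x' : ι → V, IsCfg r Op Xp o' x' →
      (Zcl r (Wc DD o x) d0).card + (Zcl (rev r) (Wc DD o x) d0).card ≤
      (Zcl r (Wc DD o' x') d0).card + (Zcl (rev r) (Wc DD o' x') d0).card := by
    intro o' x' hc'
    rw [hcn]
    exact Nat.find_min' hex ⟨o', x', hc', rfl⟩
  -- the pieces
  set F : ι → Finset V := fun i => insert (o i) (insert (x i) (Df i)) with hF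
  have hoD : ∀ i j, o i ∉ Df j := by
    intro i j h
    have h1 := (Finset.mem_erase.mp (hDf1 j h)).2
    exact (hDprop _ h1).1 (hOΨ (Finset.mem_sdiff.mp (hc.omem i)).1)
  have hxD : ∀ i j, x i ∉ Df j := by
    intro i j h
    have h1 := (Finset.mem_erase.mp (hDf1 j h)).2
    exact (hDprop _ h1).1 (Finset.mem_sdiff.mp (Finset.mem_sdiff.mp (hc.xmem i)).1).1
  have hox : ∀ i j, o i ≠ x j := fun i j h =>
    Finset.disjoint_left.mp hOX (hc.omem i) (h ▸ hc.xmem j)
  have hUW : univ.biUnion F = Wc DD o x := by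
    ext v
    rw [mem_Wc, Finset.mem_biUnion]
    constructor
    · rintro ⟨i, _, hi⟩
      simp only [hF, Finset.mem_insert] at hi
      rcases hi with rfl | rfl | h
      · exact Or.inl ⟨i, rfl⟩
      · exact Or.inr (Or.inl ⟨i, rfl⟩)
      · exact Or.inr (Or.inr (Finset.mem_biUnion.mpr ⟨i, Finset.mem_univ _, h⟩))
    · rintro (⟨i, rfl⟩ | ⟨i, rfl⟩ | h)
      · exact ⟨i, Finset.mem_univ _, by simp [hF]⟩
      · exact ⟨i, Finset.mem_univ _, by simp [hF]⟩
      · obtain ⟨i, _, hi⟩ := Finset.mem_biUnion.mp h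
        exact ⟨i, Finset.mem_univ _, by simp [hF, hi]⟩
  have hFcard : ∀ i, (F i).card = l i := by
    intro i
    have h1 : x i ∉ Df i := hxD i i
    have h2 : o i ∉ insert (x i) (Df i) := by
      rw [Finset.mem_insert, not_or]
      exact ⟨hox i i, hoD i i⟩
    simp only [hF]
    rw [Finset.card_insert_of_notMem h2, Finset.card_insert_of_notMem h1, hDf2]
    have := hl3 i
    omega
  have hFdisj : ∀ i j, i ≠ j → Disjoint (F i) (F j) := by
    intro i j hij
    rw [Finset.disjoint_left]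
    intro v hv hv'
    simp only [hF, Finset.mem_insert] at hv hv'
    rcases hv with rfl | rfl | hv
    · rcases hv' with h | h | h
      · exact hij (hc.oinj h)
      · exact hox _ _ h
      · exact hoD _ _ h
    · rcases hv' with h | h | h
      · exact hox _ _ h.symm
      · exact hij (hc.xinj h)
      · exact hxD _ _ h
    · rcases hv' with h | h | h
      · exact hoD _ _ (h ▸ hv)
      · exact hxD _ _ (h ▸ hv)
      · exact Finset.disjoint_left.mp (hDf3 i j hij) hv h
  -- facts on `W`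
  set W := Wc DD o x with hW
  have hWcard : W.card ≤ q := by
    rw [← hUW]
    calc (univ.biUnion F).card ≤ ∑ i, (F i).card := Finset.card_biUnion_le
      _ = ∑ i, l i := Finset.sum_congr rfl (fun i _ => hFcard i)
      _ ≤ q := hlq
  have hPW : Disjoint P W := by
    rw [Finset.disjoint_left]
    intro v hv hvW
    rcases mem_Wc.mp hvW with ⟨i, rfl⟩ | ⟨i, rfl⟩ | h
    · exact (Finset.mem_sdiff.mp (hc.omem i)).2 hv
    · exact (Finset.mem_sdiff.mp (hc.xmem i)).2 hv
    · exact (hDprop v (hDDsub v (Finset.mem_insert_of_mem h))).1 (hPΨ hv)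
  have hdW : d0 ∉ W := by
    intro h
    rcases mem_Wc.mp h with ⟨i, hi⟩ | ⟨i, hi⟩ | h
    · apply (hDprop d0 hd0).1
      rw [← hi]
      exact hOΨ (Finset.mem_sdiff.mp (hc.omem i)).1
    · apply (hDprop d0 hd0).1
      rw [← hi]
      exact (Finset.mem_sdiff.mp (Finset.mem_sdiff.mp (hc.xmem i)).1).1
    · exact hd0DD h
  obtain ⟨bs, hbs'⟩ := hBsne
  have hbs : bs ∈ B := hBsB hbs'
  have hends := (hτ.tend_spec hbs).1
  have hendP : τ^[tend A τ bs] bs ∈ P := htrP bs hbs' (mem_track.mpr ⟨_, le_rfl, rfl⟩)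
  have hbsP : bs ∈ P := htrP bs hbs' (mem_track.mpr ⟨0, by omega, rfl⟩)
  have htrW : ∀ b ∈ Bs, Disjoint (track A τ b) W := fun b hb =>
    Finset.disjoint_of_subset_left (htrP b hb) hPW
  have hreach1 : Disjoint (Zcl r W d0) P := by
    rw [hP, Finset.disjoint_biUnion_right]
    intro b hb
    have hbB := hBsB hb
    exact hτ.reach hbB (htrW b hb) hdW (hDX d0 hd0 _ (Finset.mem_sdiff.mpr
      ⟨htrackΨ b hbB (mem_track.mpr ⟨_, le_rfl, rfl⟩), hAO _ (hτ.tend_spec hbB).1⟩))
  have hreach2 : Disjoint (Zcl (rev r) W d0) P := by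
    rw [hP, Finset.disjoint_biUnion_right]
    intro b hb
    have hbB := hBsB hb
    exact hτ.reach_rev hbB (htrW b hb) hdW (hDO d0 hd0 b (hBO b hbB))
  have hsub1 : Zcl r W d0 ⊆ Op := by
    have h1 := trap hT (Ψ := Ψ) (Kb := Kb) (q := q) hWcard hPW hdW hbsP (hbK bs hbs)
      (by
        intro v hv
        exact Finset.mem_union_right _ (Finset.mem_union_left _ hv))
      hreach1
    rw [(hDprop d0 hd0).2.2.2] at h1
    exact h1
  have hsub2 : Zcl (rev r) W d0 ⊆ Xp := by
    have h1 := trap hT.rev (Ψ := Ψ) (Kb := Kb) (q := q) hWcard hPW hdW hendP (haK _ hends)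
      (by
        intro v hv
        exact Finset.mem_union_right _ (Finset.mem_union_right _ hv))
      hreach2
    refine h1.trans ?_
    intro v hv
    rw [Finset.mem_sdiff, Finset.mem_inter, mem_Nout] at hv
    refine Finset.mem_sdiff.mpr ⟨Finset.mem_sdiff.mpr ⟨hv.1.2, ?_⟩, hv.2⟩
    intro hvO
    exact hT.2.2 _ _ (hDO d0 hd0 v hvO) hv.1.1
  have hz1 : Zcl r W d0 = ∅ := by
    apply exchange hT hk (ι := ι) (by omega) hd0DD hOX _ _ hc hsub1 hmin
    · intro v hv d hd
      exact hDO d (hDDsub d hd) v (Finset.mem_sdiff.mp hv).1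
    · intro v hv d hd
      exact hDX d (hDDsub d hd) v (Finset.mem_sdiff.mp hv).1
  have hz2 : Zcl (rev r) W d0 = ∅ := by
    have h1 := exchange (r := rev r) hT.rev hk.rev (ι := ι) (Op := Xp) (Xp := Op) (DD := DD)
      (d0 := d0) (o := x) (x := o) (by omega) hd0DD hOX.symm
      (by
        intro v hv d hd
        exact hDX d (hDDsub d hd) v (Finset.mem_sdiff.mp hv).1)
      (by
        intro v hv d hd
        exact hDO d (hDDsub d hd) v (Finset.mem_sdiff.mp hv).1)
      hc.rev (by rw [Wc_swap]; exact hsub2)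
      (by
        intro o' x' hc'
        have h2 := hmin x' o' hc'.rev
        rw [rev_rev, Wc_swap (o := o) (x := x), Wc_swap (o := x') (x := o'), add_comm,
          add_comm (Zcl (rev r) (Wc DD x' o') d0).card]
        exact h2)
    rw [Wc_swap] at h1
    exact h1
  refine ⟨F, ?_, hFcard, hFdisj, ?_, ?_⟩
  · intro i
    apply strong_triangle
    · rw [← Finset.card_pos, hDf2]
      have := hl3 i
      omega
    · exact hc.arc i
    · intro d hd
      exact hDX d (Finset.mem_erase.mp (hDf1 i hd)).2 _ (Finset.mem_sdiff.mp (hc.xmem i)).1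
    · intro d hd
      exact hDO d (Finset.mem_erase.mp (hDf1 i hd)).2 _ (Finset.mem_sdiff.mp (hc.omem i)).1
  · rw [hUW]
    exact strong_of_Zcl hz1 hz2
  · refine ⟨Bs, hBsB, hBsc, ?_⟩
    intro b hb i
    have h1 : F i ⊆ W := by
      rw [← hUW]
      exact Finset.subset_biUnion_of_mem F (Finset.mem_univ i)
    exact (Finset.disjoint_of_subset_right h1 (htrW b hb)).symm


/-- Size of the exceptional set together with all tracks and the greedy sets. -/
def cS (t M : ℕ) : ℕ := ce t M + t * cL t M + t * M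

/-- Degree bound in the thin case. -/
def cK' (t M : ℕ) : ℕ := M + cS t M

/-- The threshold order for the bounded classes. -/
def cn' (t M : ℕ) : ℕ :=
  (t * cL t M + 2 * (2 * (cK' t M + t * M) + 1)) + 2 * (t * cK' t M) +
    2 ^ (t * cL t M + 2 * (2 * (cK' t M + t * M) + 1)) * (t * M) + 1 + 2 * t + cK' t M

/-- The bounded classes. -/
theorem small_classes {r : V → V → Prop} (hT : IsTournament r) {t M : ℕ} (hM : 3 ≤ M)
    (hk : Kc r t) {ι : Type*} [Fintype ι] [DecidableEq ι] {s : ℕ} (hs : 1 ≤ s)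
    (hι : Fintype.card ι + s = t) {A B : Finset V} {τ : V → V} (hτ : IsStep r A B τ)
    (hτ2 : ∀ v, v ∉ A → τ v ≠ v → τ v ∉ A → r (τ (τ v)) v)
    (hA : A.card = t) (hB : B.card = t)
    (hB' : ∀ b ∈ B, ∀ v, v ∉ A ∪ B → (Nout r b).card ≤ (Nout r v).card)
    (hA' : ∀ a ∈ A, ∀ v, v ∉ A ∪ B → (Nout (rev r) a).card ≤ (Nout (rev r) v).card)
    (l : ι → ℕ) (hl3 : ∀ i, 3 ≤ l i) (hlM : ∀ i, l i ≤ M) (hn : cn' t M ≤ Fintype.card V) :
    ∃ F : ι → Finset V, (∀ i, Strong r (F i)) ∧ (∀ i, (F i).card = l i) ∧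
      (∀ i j, i ≠ j → Disjoint (F i) (F j)) ∧ Strong r (univ \ univ.biUnion F) ∧
      ∃ Bs : Finset V, Bs ⊆ B ∧ Bs.card = s ∧ ∀ b ∈ Bs, ∀ i, Disjoint (F i) (track A τ b) := by
  classical
  have ht : 0 < t := by omega
  rcases isEmpty_or_nonempty ι with hι0 | hι1
  · refine ⟨fun _ => ∅, fun i => (hι0.false i).elim, fun i => (hι0.false i).elim,
      fun i => (hι0.false i).elim, ?_, B, Finset.Subset.refl _, ?_,
      fun b _ i => (hι0.false i).elim⟩
    · have h6 : (univ : Finset ι).biUnion (fun _ => (∅ : Finset V)) = ∅ := by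
        ext v
        simp
      rw [h6, Finset.sdiff_empty]
      exact hk.strong ht
    · rw [Fintype.card_eq_zero] at hι
      omega
  have hcι : 0 < Fintype.card ι := Fintype.card_pos
  have hlq : ∑ i, l i ≤ t * M := by
    calc ∑ i, l i ≤ ∑ _i : ι, M := Finset.sum_le_sum (fun i _ => hlM i)
      _ = Fintype.card ι * M := by simp
      _ ≤ t * M := Nat.mul_le_mul_right _ (by omega)
  set q := t * M with hq
  set E := Eset r A B (2 * t + 3 * q) with hE
  have hEcard : E.card ≤ ce t M := card_Eset_le hT hA hB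
  -- generic conclusion from pieces avoiding `E` and a track
  have concl : ∀ F : ι → Finset V, (∀ i, (F i).card = l i) → (∀ i, Disjoint (F i) E) →
      (∃ b ∈ B, ∀ i, Disjoint (F i) (track A τ b)) → Strong r (univ \ univ.biUnion F) := by
    intro F hF1 hF2 hF3
    obtain ⟨b, hb, hF3⟩ := hF3
    apply lemmaW hT hk ht hA hB hB' hA' (q := q)
    · calc (univ.biUnion F).card ≤ ∑ i, (F i).card := Finset.card_biUnion_le
        _ = ∑ i, l i := Finset.sum_congr rfl (fun i _ => hF1 i)
        _ ≤ q := hlq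
    · rw [Finset.disjoint_biUnion_left]
      intro i _
      exact hF2 i
    · apply hτ.path hb
      rw [Finset.disjoint_biUnion_right]
      intro i _
      exact (hF3 i).symm
  by_cases hlong : ∃ b ∈ B, M * (ce t M + t) ≤ tend A τ b + 1
  · obtain ⟨b, hb, hlong⟩ := hlong
    obtain ⟨F, h1, h2, h3, h4, h5⟩ := long_blocks hτ hτ2 hb hEcard (by omega) hlong l hl3 hlM
    obtain ⟨Bs, hBs1, hBs2⟩ := Finset.exists_subset_card_eq (s := B.erase b) (n := s) (by
      rw [Finset.card_erase_of_mem hb]; omega)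
    have hdis : ∀ b' ∈ Bs, ∀ i, Disjoint (F i) (track A τ b') := by
      intro b' hb' i
      have h6 := Finset.mem_erase.mp (hBs1 hb')
      exact Finset.disjoint_of_subset_left (h5 i) (hτ.track_disjoint hb h6.2 (Ne.symm h6.1))
    obtain ⟨b1, hb1⟩ : Bs.Nonempty := by
      rw [← Finset.card_pos]; omega
    exact ⟨F, h1, h2, h3, concl F h2 h4 ⟨b1, Finset.mem_of_mem_erase (hBs1 hb1), hdis b1 hb1⟩,
      Bs, hBs1.trans (Finset.erase_subset _ _), hBs2, hdis⟩
  · push Not at hlong
    set P0 : Finset V := B.biUnion (fun b => track A τ b) with hP0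
    have hP0c : P0.card ≤ t * cL t M := by
      have h1 := Finset.card_biUnion_le_card_mul B (fun b => track A τ b) (cL t M)
        (fun b hb => by
          have h3 := hlong b hb
          unfold cL
          exact card_track_le.trans h3.le)
      rwa [hB] at h1
    rcases greedy r (E ∪ P0) M t with ⟨F, h1, h2, h3, h4⟩ | ⟨U, h1, h2⟩
    · -- many strong sets of size `M`
      obtain ⟨g⟩ : Nonempty (ι ↪ Fin t) := by
        apply Function.Embedding.nonempty_of_card_le
        rw [Fintype.card_fin]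
        omega
      have h5 : ∀ i, ∃ X : Finset V, X ⊆ F (g i) ∧ Strong r X ∧ X.card = l i := fun i =>
        exists_strong_subset hT (h1 (g i)) (hl3 i) (by rw [h2]; exact hlM i)
      choose X hX1 hX2 hX3 using h5
      obtain ⟨Bs, hBs1, hBs2⟩ := Finset.exists_subset_card_eq (s := B) (n := s) (by omega)
      have hdis : ∀ b' ∈ Bs, ∀ i, Disjoint (X i) (track A τ b') := by
        intro b' hb' i
        have h7 := h3 (g i)
        rw [Finset.disjoint_union_right, hP0, Finset.disjoint_biUnion_right] at h7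
        exact Finset.disjoint_of_subset_left (hX1 i) (h7.2 b' (hBs1 hb'))
      obtain ⟨b1, hb1⟩ : Bs.Nonempty := by
        rw [← Finset.card_pos]; omega
      refine ⟨X, hX2, hX3, ?_, ?_, Bs, hBs1, hBs2, hdis⟩
      · intro i j hij
        have h6 : g i ≠ g j := fun h => hij (g.injective h)
        exact Finset.disjoint_of_subset_left (hX1 i)
          (Finset.disjoint_of_subset_right (hX1 j) (h4 _ _ h6))
      · apply concl X hX3
        · intro i
          have h7 := h3 (g i)
          rw [Finset.disjoint_union_right] at h7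
          exact Finset.disjoint_of_subset_left (hX1 i) h7.1
        · exact ⟨b1, hBs1 hb1, hdis b1 hb1⟩
    · -- thin case
      set S' := (E ∪ P0) ∪ U with hS'
      have hS'card : S'.card ≤ cS t M := by
        unfold cS
        calc S'.card ≤ (E ∪ P0).card + U.card := Finset.card_union_le _ _
          _ ≤ (E.card + P0.card) + U.card :=
            Nat.add_le_add_right (Finset.card_union_le _ _) _
          _ ≤ _ := by omega
      have hK1 : M + S'.card ≤ cK' t M := by unfold cK'; omega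
      have hltV : S'.card < Fintype.card V := by
        have : cK' t M + 1 ≤ cn' t M := by unfold cn'; omega
        omega
      have hno' : ∀ X : Finset V, Strong (rev r) X → X.card = M → ¬ Disjoint X S' := by
        intro X hX hXM
        exact h2 X (by have := hX.rev; rwa [rev_rev] at this) hXM
      have hABS : ∀ v, v ∉ S' → v ∉ A ∪ B := by
        intro v hv h
        apply hv
        apply Finset.mem_union_left
        apply Finset.mem_union_left
        rw [hE]
        unfold Eset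
        exact Finset.mem_union_left _ h
      obtain ⟨v, hv1, hv2⟩ := small_degree hT hM h2 hltV
      obtain ⟨w, hw1, hw2⟩ := small_degree hT.rev hM hno' hltV
      have hbK : ∀ b ∈ B, (Nout r b).card ≤ cK' t M := fun b hb =>
        (hB' b hb v (hABS v hv1)).trans (hv2.trans hK1)
      have haK : ∀ a ∈ A, (Nout (rev r) a).card ≤ cK' t M := fun a ha =>
        (hA' a ha w (hABS w hw1)).trans (hw2.trans hK1)
      apply thin_case' hT hk hs hι hτ hA hB (q := t * M) (Kb := cK' t M) (L := cL t M) l hl3 hlq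
        hbK haK
      · intro b hb
        unfold cL
        exact (hlong b hb).le
      · have : (t * cL t M + 2 * (2 * (cK' t M + t * M) + 1)) + 2 * (t * cK' t M) +
            2 ^ (t * cL t M + 2 * (2 * (cK' t M + t * M) + 1)) * (t * M) + 1 ≤ cn' t M := by
          unfold cn'; omega
        omega

/-- The no-shortcut property from potentials. -/
lemma Pot.back {r : V → V → Prop} (hT : IsTournament r) {A B : Finset V} {τ : V → V} {N : ℕ}
    {X Y : V → ℕ} (hτ : IsStep r A B τ) (hP : Pot r A B τ N X Y) :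
    ∀ v, v ∉ A → τ v ≠ v → τ v ∉ A → r (τ (τ v)) v := by
  intro v hv hne hw
  have h1 := hP.mov v hv hne
  have h2 : τ (τ v) ≠ τ v := by
    intro h
    exact hne (hτ.inj _ _ hw hv h)
  have h3 := hP.mov _ hw h2
  have h4 := hP.dia _ hw (hτ.nB hv)
  have h5 : v ≠ τ (τ v) := by
    intro h
    have h6 : v ∉ B := by rw [h]; exact hτ.nB hw
    have h7 := hP.dia v hv h6
    rw [← h] at h3
    omega
  apply hT.of_not h5
  intro hr
  have := hP.arc v _ hv (hτ.nB hw) hr
  omega

end H990
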