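import Pool.Agent.H990_Full.Large
import Pool.Agent.H990_Full.Small

/-! Assembly of the upper bound for all lengths. -/

namespace H990

open Finset

set_option linter.unusedSectionVars false

/-- Threshold used for the room of the giant class. -/
def kc (t M : ℕ) : ℕ :=
  8 * (t * (t + 1)) + 8 * (t * (t + 1)) * kk t (t * M) +
    4 * (t * (t + 1)) * (t * kd t (t * M) + 7 + 3 * ku t (t * M)) + 4 * (t * (t + 1)) * M

/-- Threshold order for given `t` and gap position `M`. -/
def kn (t M : ℕ) : ℕ :=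
  cn' t M + (10 * kq t (t * M) + 28 * t + 1) + kc t M +
    (16 * (t * (t + 1))) * (2 * (16 * (t * (t + 1))) + 4) + (t * M + 1)

lemma exp_large (c n : ℕ) (hc : 1 ≤ c) (hn : c * (2 * c + 4) ≤ n) : n < 2 ^ (n / c) := by
  set m := n / c with hm
  have h1 : 2 * c + 4 ≤ m := by
    rw [hm, Nat.le_div_iff_mul_le hc, mul_comm]
    exact hn
  have h2 : n < c * (m + 1) := by
    have := Nat.lt_mul_div_succ n hc
    exact this
  obtain ⟨k, hk⟩ : ∃ k, m = c + k := ⟨m - c, by omega⟩
  have h3 : k ≤ 2 ^ (k - 1) := by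
    have := Nat.lt_two_pow_self (n := k - 1)
    omega
  have h4 : 2 * k ≤ 2 ^ k := by
    have h5 : 2 ^ k = 2 * 2 ^ (k - 1) := by
      rw [← pow_succ']
      congr 1
      omega
    omega
  have h5 : c ≤ 2 ^ c := (Nat.lt_two_pow_self).le
  calc n < c * (m + 1) := h2
    _ ≤ c * 2 ^ k := Nat.mul_le_mul_left _ (by omega)
    _ ≤ 2 ^ c * 2 ^ k := Nat.mul_le_mul_right _ h5
    _ = 2 ^ m := by rw [hk, pow_add]

/-- The room inequality. -/
lemma room_ineq {t M n s ng te U J : ℕ} (ht : 1 ≤ t) (hs1 : 1 ≤ s) (hst : s ≤ t)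
    (hU : n ≤ (t + 1) * U + 2 * t * (t + 1)) (hng : s * (te + 1) + U ≤ s * ng + t * M)
    (hJ : 16 * (t * (t + 1)) * J ≤ n) (hn : kc t M ≤ n) {y1 y2 : ℕ}
    (hy1 : 2 ^ kh t * y1 ≤ n + 2 ^ kh t * kk t (t * M))
    (hy2 : 2 ^ kh t * y2 ≤ n + 2 ^ kh t * kk t (t * M)) :
    y1 + y2 + t * kd t (t * M) + 7 + 4 * J + 3 * ku t (t * M) + (te + 1) ≤ ng := by
  set L := t * (t + 1) with hL
  set κ := kk t (t * M) with hκ
  have hL2 : 4 * L ≤ 2 ^ kh t := by
    unfold kh
    exact (Nat.lt_two_pow_self).le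
  have hLpos : 1 ≤ L := Nat.mul_pos ht (by omega)
  have key : ∀ y, 2 ^ kh t * y ≤ n + 2 ^ kh t * κ → 4 * L * y ≤ n + 4 * L * κ := by
    intro y hy
    rcases Nat.le_total y κ with h | h
    · have := Nat.mul_le_mul_left (4 * L) h
      omega
    · obtain ⟨z, rfl⟩ := Nat.exists_eq_add_of_le h
      rw [mul_add] at hy ⊢
      have h1 : 4 * L * z ≤ 2 ^ kh t * z := Nat.mul_le_mul_right _ hL2
      omega
  have h1 := key y1 hy1
  have h2 := key y2 hy2
  by_contra hcon
  push Not at hcon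
  set c1 := t * kd t (t * M) + 7 + 3 * ku t (t * M) with hc1
  have h3 : ng < y1 + y2 + c1 + 4 * J + (te + 1) := by omega
  have h4 : s * ng < s * (y1 + y2 + c1 + 4 * J + (te + 1)) :=
    Nat.mul_lt_mul_of_pos_left h3 (by omega)
  have h5 : s * (y1 + y2 + c1 + 4 * J + (te + 1)) =
      s * (y1 + y2 + c1 + 4 * J) + s * (te + 1) := by ring
  have h6 : U < s * (y1 + y2 + c1 + 4 * J) + t * M := by omega
  have h7 : s * (y1 + y2 + c1 + 4 * J) ≤ t * (y1 + y2 + c1 + 4 * J) :=
    Nat.mul_le_mul_right _ hst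
  have h8 : (t + 1) * U ≤ (t + 1) * (t * (y1 + y2 + c1 + 4 * J) + t * M) :=
    Nat.mul_le_mul_left _ (by omega)
  have h9 : (t + 1) * (t * (y1 + y2 + c1 + 4 * J) + t * M) =
      L * y1 + L * y2 + L * c1 + 4 * (L * J) + L * M := by
    rw [hL]; ring
  have h10 : 2 * t * (t + 1) = 2 * L := by rw [hL]; ring
  have h11 : 4 * L * y1 = 4 * (L * y1) := by ring
  have h12 : 4 * L * y2 = 4 * (L * y2) := by ring
  have h13 : 16 * L * J = 16 * (L * J) := by ring
  have h14 : 4 * L * κ = 4 * (L * κ) := by ring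
  have h15 : kc t M = 8 * L + 8 * (L * κ) + 4 * (L * c1) + 4 * (L * M) := by
    unfold kc
    rw [hL, hκ, hc1]
    ring
  have h16 : (t + 1) * U < (t + 1) * (t * (y1 + y2 + c1 + 4 * J) + t * M) :=
    Nat.mul_lt_mul_of_pos_left (by omega) (by omega)
  omega

variable {V : Type*} [DecidableEq V] [Fintype V]

/-- Partition when there is a gap in the sizes. -/
theorem assemble {r : V → V → Prop} (hT : IsTournament r) {t M : ℕ} (ht : 1 ≤ t) (hM : 3 ≤ M)
    (hk : Kc r t) (l : Fin t → ℕ) (hl3 : ∀ i, 3 ≤ l i) (hsum : ∑ i, l i = Fintype.card V)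
    (hgap : ∀ i, l i ≤ M ∨ kL t (t * M) ≤ l i) (hn : kn t M ≤ Fintype.card V) :
    ∃ F : Fin t → Finset V, (∀ i, Strong r (F i)) ∧ (∀ i, (F i).card = l i) ∧
      ∀ i j, i ≠ j → Disjoint (F i) (F j) := by
  classical
  have hn1 : cn' t M ≤ Fintype.card V := by unfold kn at hn; omega
  have hn2 : 10 * kq t (t * M) + 28 * t < Fintype.card V := by unfold kn at hn; omega
  have hn3 : kc t M ≤ Fintype.card V := by unfold kn at hn; omega
  have hn4 : (16 * (t * (t + 1))) * (2 * (16 * (t * (t + 1))) + 4) ≤ Fintype.card V := by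
    unfold kn at hn; omega
  have hn5 : t * M < Fintype.card V := by unfold kn at hn; omega
  have hLpos : 1 ≤ t * (t + 1) := Nat.mul_pos ht (by omega)
  obtain ⟨A, B, hA, hB, hAB, hB', hA'⟩ := exists_AB r t (by
    have : 2 * t ≤ cn' t M := by unfold cn'; omega
    omega)
  obtain ⟨τ, N, X, Y, hτ, hP, hocc⟩ := exists_potential hT hk hA hB hAB
  rcases sep_or hT ht hk hτ hP hA hB hocc l hl3 hsum with hdone | hF
  · exact hdone
  have hmany := hP.many hτ hA hB hF
  have hN1 : 1 ≤ N := by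
    have h1 : 0 < (Um A B τ).card := by
      rcases Nat.eq_zero_or_pos (Um A B τ).card with h0 | h0
      · rw [h0, mul_zero, zero_add] at hmany
        have h2 : 8 * (t * (t + 1)) ≤ kc t M := by unfold kc; omega
        have h3 : 2 * t * (t + 1) = 2 * (t * (t + 1)) := by ring
        omega
      · exact h0
    obtain ⟨v, hv⟩ := Finset.card_pos.mp h1
    rw [mem_Um] at hv
    have h2 := hP.fix v hv.1 hv.2.2
    have h3 := hP.xN v
    omega
  have hEnv : Env r A B t N X Y := by
    refine ⟨hT, hP.lev hτ hA hB hocc, hA, hB, hN1, ?_, ?_⟩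
    · intro b hb v h1 h2
      exact hB' b hb v (by rw [Finset.mem_union, not_or]; exact ⟨h1, h2⟩)
    · intro a ha v h1 h2
      exact hA' a ha v (by rw [Finset.mem_union, not_or]; exact ⟨h1, h2⟩)
  -- the two kinds of classes
  have hex : ∃ i, ¬ l i ≤ M := by
    by_contra hcon
    push Not at hcon
    have h1 : ∑ i, l i ≤ ∑ _i : Fin t, M := Finset.sum_le_sum (fun i _ => hcon i)
    simp only [Finset.sum_const, Finset.card_univ, Fintype.card_fin, smul_eq_mul] at h1
    omega
  have hcardsum : Fintype.card {i : Fin t // l i ≤ M} +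
      Fintype.card {i : Fin t // ¬ l i ≤ M} = t := by
    have h1 := Fintype.card_subtype_compl (fun i : Fin t => l i ≤ M)
    have h2 : Fintype.card {i : Fin t // l i ≤ M} ≤ Fintype.card (Fin t) :=
      Fintype.card_subtype_le _
    rw [Fintype.card_fin] at h1 h2
    omega
  set s := Fintype.card {i : Fin t // ¬ l i ≤ M} with hs
  have hs1 : 1 ≤ s := by
    obtain ⟨i, hi⟩ := hex
    exact Fintype.card_pos_iff.mpr ⟨⟨i, hi⟩⟩
  obtain ⟨F1, hF1s, hF1c, hF1d, hF1W, Bs, hBs, hBsc, hBsd⟩ := small_classes hT hM hk hs1 hcardsum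
    hτ (hP.back hT hτ) hA hB hB' hA' (fun i : {i : Fin t // l i ≤ M} => l i.1)
    (fun i => hl3 i.1) (fun i => i.2) hn1
  set W := univ.biUnion F1 with hW
  have hWc : W.card = ∑ i : {i : Fin t // l i ≤ M}, l i.1 := by
    rw [hW, Finset.card_biUnion (fun i _ j _ hij => hF1d i j hij)]
    exact Finset.sum_congr rfl (fun i _ => hF1c i)
  have hWle : W.card ≤ t * M := by
    rw [hWc]
    calc ∑ i : {i : Fin t // l i ≤ M}, l i.1 ≤ ∑ _i : {i : Fin t // l i ≤ M}, M :=
          Finset.sum_le_sum (fun i _ => i.2)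
      _ = Fintype.card {i : Fin t // l i ≤ M} * M := by simp
      _ ≤ t * M := Nat.mul_le_mul_right _ (by omega)
  have hsplit : ∑ i : {i : Fin t // ¬ l i ≤ M}, l i.1 + W.card = Fintype.card V := by
    rw [hWc, ← hsum, add_comm]
    exact Fintype.sum_subtype_add_sum_subtype (fun i : Fin t => l i ≤ M) l
  -- the giant class and the shortest track
  have hKne : Nonempty {i : Fin t // ¬ l i ≤ M} := by
    obtain ⟨i, hi⟩ := hex
    exact ⟨⟨i, hi⟩⟩
  obtain ⟨g, _, hg⟩ := Finset.exists_max_image (univ : Finset {i : Fin t // ¬ l i ≤ M})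
    (fun i => l i.1) ⟨hKne.some, Finset.mem_univ _⟩
  obtain ⟨bg, hbg, hbgmin⟩ := Finset.exists_min_image Bs (fun b => tend A τ b) (by
    rw [← Finset.card_pos]; omega)
  have hcardBs : Fintype.card {i : Fin t // ¬ l i ≤ M} = Fintype.card {b // b ∈ Bs} := by
    rw [Fintype.card_coe, hBsc]
  let e : {i : Fin t // ¬ l i ≤ M} ≃ {b // b ∈ Bs} := Fintype.equivOfCardEq hcardBs
  let e' : {i : Fin t // ¬ l i ≤ M} ≃ {b // b ∈ Bs} := e.trans (Equiv.swap (e g) ⟨bg, hbg⟩)
  have he'g : (e' g).1 = bg := by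
    simp [e']
  have hβinj : Function.Injective (fun k => (e' k).1) := fun i j h =>
    e'.injective (Subtype.ext h)
  have hβB : ∀ k, (e' k).1 ∈ B := fun k => hBs (e' k).2
  have hβW : ∀ k, Disjoint (track A τ (e' k).1) W := by
    intro k
    rw [hW, Finset.disjoint_biUnion_right]
    intro i _
    exact (hBsd _ (e' k).2 i).symm
  -- counting for the room
  have htr : s * (tend A τ bg + 1) + (Um A B τ).card ≤ Fintype.card V := by
    have h1 : ∀ b ∈ Bs, (track A τ b).card = tend A τ b + 1 := by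
      intro b hb
      exact card_seg hτ (hBs hb) (c := tend A τ b + 1) le_rfl
    have h2 : (Bs.biUnion (fun b => track A τ b)).card = ∑ b ∈ Bs, (track A τ b).card :=
      Finset.card_biUnion (fun b hb b' hb' hne => hτ.track_disjoint (hBs hb) (hBs hb') hne)
    have h3 : Bs.card * (tend A τ bg + 1) ≤ ∑ b ∈ Bs, (track A τ b).card := by
      rw [← smul_eq_mul]
      apply Finset.card_nsmul_le_sum
      intro b hb
      rw [h1 b hb]
      have h4 : tend A τ bg ≤ tend A τ b := hbgmin b hb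
      omega
    have h4 : Disjoint (Bs.biUnion (fun b => track A τ b)) (Um A B τ) := by
      rw [Finset.disjoint_left]
      intro v hv
      obtain ⟨b, hb, hv'⟩ := Finset.mem_biUnion.mp hv
      exact track_Um hτ (hBs hb) hv'
    have h5 : (Bs.biUnion (fun b => track A τ b) ∪ Um A B τ).card ≤ Fintype.card V :=
      Finset.card_le_univ _
    rw [Finset.card_union_of_disjoint h4, h2] at h5
    rw [hBsc] at h3
    omega
  have hng : s * (tend A τ bg + 1) + (Um A B τ).card ≤ s * l g.1 + t * M := by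
    have h1 : ∑ i : {i : Fin t // ¬ l i ≤ M}, l i.1 ≤ s * l g.1 := by
      have h2 := Finset.sum_le_card_nsmul (univ : Finset {i : Fin t // ¬ l i ≤ M})
        (fun i => l i.1) (l g.1) (fun i hi => hg i hi)
      rw [Finset.card_univ, smul_eq_mul] at h2
      exact h2
    omega
  have hJ1 : Fintype.card V < 2 ^ (Fintype.card V / (16 * (t * (t + 1)))) :=
    exp_large _ _ (by omega) hn4
  have hJ2 : 16 * (t * (t + 1)) * (Fintype.card V / (16 * (t * (t + 1)))) ≤ Fintype.card V :=
    Nat.mul_div_le _ _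
  obtain ⟨F2, hF2s, hF2c, hF2d, hF2W⟩ := large_classes (W := W) (w := t * M) hEnv hτ hP hAB hF
    (by omega) hWle hF1W hβinj hβB hβW g (n := fun k => l k.1) hsplit
    (fun k => (hgap k.1).resolve_left k.2) hJ1 hn2 (by
      intro y1 y2 hy1 hy2
      rw [he'g]
      exact room_ineq ht hs1 (by omega) hmany hng hJ2 hn3 hy1 hy2)
  -- put everything together
  refine ⟨fun i => if h : l i ≤ M then F1 ⟨i, h⟩ else F2 ⟨i, h⟩, ?_, ?_, ?_⟩
  · intro i
    by_cases h : l i ≤ M
    · simp only [dif_pos h]; exact hF1s _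
    · simp only [dif_neg h]; exact hF2s _
  · intro i
    by_cases h : l i ≤ M
    · simp only [dif_pos h]; exact hF1c _
    · simp only [dif_neg h]; exact hF2c _
  · intro i j hij
    have hsubW : ∀ i, F1 i ⊆ W := fun i => Finset.subset_biUnion_of_mem F1 (Finset.mem_univ i)
    by_cases hi : l i ≤ M
    · by_cases hj : l j ≤ M
      · simp only [dif_pos hi, dif_pos hj]
        exact hF1d _ _ (fun e => hij (congrArg Subtype.val e))
      · simp only [dif_pos hi, dif_neg hj]
        exact (Finset.disjoint_of_subset_right (hsubW _) (hF2W _)).symm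
    · by_cases hj : l j ≤ M
      · simp only [dif_neg hi, dif_pos hj]
        exact Finset.disjoint_of_subset_right (hsubW _) (hF2W _)
      · simp only [dif_neg hi, dif_neg hj]
        exact hF2d _ _ (fun e => hij (congrArg Subtype.val e))

end H990
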