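import Pool.Agent.H990_Full.Reach

/-! Cascades (after Gyori, Hoyer and Thomas) in the directed setting. -/

namespace H990.DGL

open Finset

set_option linter.unusedSectionVars false

variable {V : Type*} [DecidableEq V] [Fintype V] {k : ℕ}

/-- A configuration: disjoint sets, each containing its root and in-connected to it. -/
structure Cfg (E : V → V → Prop) (z : Fin k → V) (X : Finset V) (G : Fin k → Finset V) :
    Prop where
  root : ∀ i, z i ∈ G i
  conn : ∀ i, ∀ u ∈ G i, Rch E (G i) u (z i)
  disj : ∀ i j, i ≠ j → Disjoint (G i) (G j)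
  sub : ∀ i, G i ⊆ insert (z i) X

/-- The reservoir of a marked vertex. -/
noncomputable def RR (E : V → V → Prop) (z : Fin k → V) (G : Fin k → Finset V)
    (q : Fin k × V) : Finset V :=
  Rset E (G q.1) (z q.1) q.2

/-- Cascades, latest entry first. -/
def Casc (E : V → V → Prop) (z : Fin k → V) (K : Finset V) (i0 : Fin k)
    (G : Fin k → Finset V) : List (Fin k × V) → Prop
  | [] => True
  | q :: c => Casc E z K i0 G c ∧ q.1 ≠ i0 ∧ q.2 ∈ G q.1 ∧ q.2 ≠ z q.1 ∧
      (∀ p ∈ c, q.2 ∉ RR E z G p ∧ q.2 ≠ p.2) ∧
      ∃ x, E q.2 x ∧ (x ∈ K ∨ ∃ p ∈ c, x ∈ RR E z G p)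

/-- Lexicographic value of a cascade. -/
noncomputable def val (E : V → V → Prop) (z : Fin k → V) (G : Fin k → Finset V) (N L : ℕ) :
    List (Fin k × V) → ℕ
  | [] => 0
  | q :: c => val E z G N L c + ((RR E z G q).card + 1) * N ^ (L - 1 - c.length)

variable {E : V → V → Prop} {z : Fin k → V} {K : Finset V} {i0 : Fin k}

lemma val_inv {G : Fin k → Finset V} {L : ℕ} (c c2 : List (Fin k × V))
    (hL : (c2 ++ c).length ≤ L) :
    val E z G (Fintype.card V + 2) L (c2 ++ c) + (Fintype.card V + 2) ^ (L - (c2 ++ c).length) ≤
      val E z G (Fintype.card V + 2) L c + (Fintype.card V + 2) ^ (L - c.length) := by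
  induction c2 with
  | nil => simp
  | cons q c2 ih =>
    have h1 : (c2 ++ c).length + 1 ≤ L := by simpa using hL
    have h2 := ih (by omega)
    refine le_trans ?_ h2
    have h3 : (q :: c2 ++ c).length = (c2 ++ c).length + 1 := by simp
    have h4 : val E z G (Fintype.card V + 2) L (q :: c2 ++ c) =
        val E z G (Fintype.card V + 2) L (c2 ++ c) +
        ((RR E z G q).card + 1) * (Fintype.card V + 2) ^ (L - 1 - (c2 ++ c).length) := rfl
    rw [h3, h4]
    have h5 : L - ((c2 ++ c).length + 1) = L - 1 - (c2 ++ c).length := by omega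
    have h6 : L - (c2 ++ c).length = (L - 1 - (c2 ++ c).length) + 1 := by omega
    rw [h5, h6, pow_succ]
    have h7 : (RR E z G q).card ≤ Fintype.card V := Finset.card_le_univ _
    set P := (Fintype.card V + 2) ^ (L - 1 - (c2 ++ c).length)
    have h8 : ((RR E z G q).card + 2) * P ≤ P * (Fintype.card V + 2) := by
      rw [mul_comm P]
      exact Nat.mul_le_mul_right _ (by omega)
    have h9 : ((RR E z G q).card + 2) * P = ((RR E z G q).card + 1) * P + P := by ring
    omega

lemma val_congr {G G' : Fin k → Finset V} {N L : ℕ} (c : List (Fin k × V))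
    (h : ∀ q ∈ c, RR E z G' q = RR E z G q) : val E z G' N L c = val E z G N L c := by
  induction c with
  | nil => rfl
  | cons q c ih =>
    have h1 := ih (fun p hp => h p (List.mem_cons_of_mem _ hp))
    have h2 := h q List.mem_cons_self
    show val E z G' N L c + ((RR E z G' q).card + 1) * N ^ (L - 1 - c.length) =
      val E z G N L c + ((RR E z G q).card + 1) * N ^ (L - 1 - c.length)
    rw [h1, h2]

lemma Casc.suffix {G : Fin k → Finset V} (c2 c : List (Fin k × V))
    (h : Casc E z K i0 G (c2 ++ c)) : Casc E z K i0 G c := by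
  induction c2 with
  | nil => exact h
  | cons q c2 ih => exact ih h.1

lemma Casc.nodup {G : Fin k → Finset V} (c : List (Fin k × V))
    (h : Casc E z K i0 G c) : (c.map Prod.snd).Nodup := by
  induction c with
  | nil => simp
  | cons q c ih =>
    rw [List.map_cons, List.nodup_cons]
    refine ⟨?_, ih h.1⟩
    intro hq
    rw [List.mem_map] at hq
    obtain ⟨p, hp, hpq⟩ := hq
    exact (h.2.2.2.2.1 p hp).2 hpq.symm

lemma Casc.length_le {G : Fin k → Finset V} (c : List (Fin k × V))
    (h : Casc E z K i0 G c) : c.length ≤ Fintype.card V := by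
  have h1 := Casc.nodup c h
  have h2 := List.toFinset_card_of_nodup h1
  rw [List.length_map] at h2
  rw [← h2]
  exact Finset.card_le_univ _

/-- For two marked vertices of a cascade, one lies outside the reservoir of the other. -/
lemma Casc.pair {G : Fin k → Finset V} (c : List (Fin k × V))
    (h : Casc E z K i0 G c) : ∀ p ∈ c, ∀ q ∈ c, p.2 ≠ q.2 →
      p.2 ∉ RR E z G q ∨ q.2 ∉ RR E z G p := by
  induction c with
  | nil => intro p hp; simp at hp
  | cons a c ih =>
    intro p hp q hq hne
    rcases List.mem_cons.mp hp with hpa | hpc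
    · rcases List.mem_cons.mp hq with hqa | hqc
      · exact absurd (by rw [hpa, hqa]) hne
      · rw [hpa]; exact Or.inl (h.2.2.2.2.1 q hqc).1
    · rcases List.mem_cons.mp hq with hqa | hqc
      · rw [hqa]; exact Or.inr (h.2.2.2.2.1 p hpc).1
      · exact ih h.1 p hpc q hqc hne

lemma Casc.mem {G : Fin k → Finset V} (c : List (Fin k × V))
    (h : Casc E z K i0 G c) : ∀ p ∈ c, p.1 ≠ i0 ∧ p.2 ∈ G p.1 ∧ p.2 ≠ z p.1 := by
  induction c with
  | nil => intro p hp; simp at hp
  | cons a c ih =>
    intro p hp
    rcases List.mem_cons.mp hp with rfl | hp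
    · exact ⟨h.2.1, h.2.2.1, h.2.2.2.1⟩
    · exact ih h.1 p hp

/-- Reservoirs survive in any set which contains them. -/
lemma Rset_sub {G G' : Finset V} {v w : V} (h : Rset E G v w ⊆ G') :
    Rset E G v w ⊆ Rset E G' v w := by
  intro u hu
  refine mem_Rset.mpr ⟨h hu, (mem_Rset.mp hu).2.1, (Rset_conn hu).mono ?_⟩
  intro x hx
  exact Finset.mem_erase.mpr ⟨(mem_Rset.mp hx).2.1, h hx⟩

/-- Dichotomy when all reservoirs grow weakly. -/
lemma dich {G G' : Fin k → Finset V} {L : ℕ} (c : List (Fin k × V)) :
    Casc E z K i0 G c → (∀ q ∈ c, q.2 ∈ G' q.1 ∧ RR E z G q ⊆ RR E z G' q) → c.length ≤ L →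
    (Casc E z K i0 G' c ∧ ∀ q ∈ c, RR E z G' q = RR E z G q) ∨
    (∃ c', Casc E z K i0 G' c' ∧ val E z G (Fintype.card V + 2) L c +
      (Fintype.card V + 2) ^ (L - c.length) ≤ val E z G' (Fintype.card V + 2) L c') := by
  induction c with
  | nil => intro _ _ _; exact Or.inl ⟨trivial, by simp⟩
  | cons q c ih =>
    intro hc hsub hL
    have hL' : c.length + 1 ≤ L := by simpa using hL
    rcases ih hc.1 (fun p hp => hsub p (List.mem_cons_of_mem _ hp)) (by omega) with
      ⟨h1, h2⟩ | ⟨c', h1, h2⟩
    · have h3 : Casc E z K i0 G' (q :: c) := by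
        refine ⟨h1, hc.2.1, (hsub q List.mem_cons_self).1, hc.2.2.2.1, ?_, ?_⟩
        · intro p hp
          rw [h2 p hp]
          exact hc.2.2.2.2.1 p hp
        · obtain ⟨x, hx1, hx2⟩ := hc.2.2.2.2.2
          refine ⟨x, hx1, ?_⟩
          rcases hx2 with hx2 | ⟨p, hp, hx2⟩
          · exact Or.inl hx2
          · exact Or.inr ⟨p, hp, by rw [h2 p hp]; exact hx2⟩
      by_cases heq : RR E z G' q = RR E z G q
      · left
        refine ⟨h3, ?_⟩
        intro p hp
        rcases List.mem_cons.mp hp with rfl | hp
        · exact heq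
        · exact h2 p hp
      · right
        refine ⟨q :: c, h3, ?_⟩
        have h4 := (hsub q List.mem_cons_self).2
        have h5 : (RR E z G q).card + 1 ≤ (RR E z G' q).card := by
          apply Finset.card_lt_card
          exact Finset.ssubset_iff_subset_ne.mpr ⟨h4, Ne.symm heq⟩
        have h6 : val E z G' (Fintype.card V + 2) L c = val E z G (Fintype.card V + 2) L c :=
          val_congr c h2
        show val E z G (Fintype.card V + 2) L c + ((RR E z G q).card + 1) *
          (Fintype.card V + 2) ^ (L - 1 - c.length) +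
          (Fintype.card V + 2) ^ (L - (q :: c).length) ≤
          val E z G' (Fintype.card V + 2) L c + ((RR E z G' q).card + 1) *
          (Fintype.card V + 2) ^ (L - 1 - c.length)
        rw [h6]
        have h7 : L - (q :: c).length = L - 1 - c.length := by
          rw [List.length_cons]; omega
        rw [h7]
        set P := (Fintype.card V + 2) ^ (L - 1 - c.length)
        have h8 : ((RR E z G q).card + 2) * P ≤ ((RR E z G' q).card + 1) * P :=
          Nat.mul_le_mul_right _ (by omega)
        have h9 : ((RR E z G q).card + 2) * P = ((RR E z G q).card + 1) * P + P := by ring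
        omega
    · right
      refine ⟨c', h1, le_trans ?_ h2⟩
      exact val_inv (E := E) (z := z) (G := G) c [q] (by simpa using hL)

/-- Prefix optimality. -/
def Opt (E : V → V → Prop) (z : Fin k → V) (X K : Finset V) (i0 : Fin k) (n : Fin k → ℕ)
    (L : ℕ) (G : Fin k → Finset V) (c : List (Fin k × V)) : Prop :=
  ∀ G' c', Cfg E z X G' → (∀ i, (G' i).card = n i) → G' i0 = K → Casc E z K i0 G' c' →
    val E z G' (Fintype.card V + 2) L c' <
      val E z G (Fintype.card V + 2) L c + (Fintype.card V + 2) ^ (L - c.length)

/-- No leftover vertex sees a reservoir of an optimal cascade. -/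
lemma claimA {X : Finset V} {n : Fin k → ℕ} {L : ℕ} (hL : Fintype.card V ≤ L)
    (hzX : ∀ i, z i ∉ X)
    (hno : ¬ ∃ G' : Fin k → Finset V, Cfg E z X G' ∧ (G' i0).card = n i0 + 1 ∧
      ∀ i, i ≠ i0 → (G' i).card = n i) :
    ∀ m : ℕ, ∀ G : Fin k → Finset V, Cfg E z X G → (∀ i, (G i).card = n i) → G i0 = K →
      ∀ q c, c.length ≤ m → Casc E z K i0 G (q :: c) → Opt E z X K i0 n L G (q :: c) →
      ∀ h ∈ X, (∀ i, h ∉ G i) → ∀ x ∈ RR E z G q, ¬ E h x := by
  intro m
  induction m using Nat.strong_induction_on with
  | _ m IH =>
  intro G hG hn hK q c hcm hc hopt h hhX hhG x hx hE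
  obtain ⟨i, w⟩ := q
  simp only [RR] at hx
  have hii0 : i ≠ i0 := hc.2.1
  have hwG : w ∈ G i := hc.2.2.1
  have hwz : w ≠ z i := hc.2.2.2.1
  have hhw : h ≠ w := fun e => hhG i (e ▸ hwG)
  have hlen : ((i, w) :: c).length ≤ L := (Casc.length_le _ hc).trans hL
  have hlen' : c.length ≤ L := by
    have : ((i, w) :: c).length = c.length + 1 := rfl
    omega
  -- older marked vertices of the same class lie in the reservoir of `w`
  have hold : ∀ p ∈ c, p.1 = i → p.2 ∈ Rset E (G i) (z i) w ∧
      Rset E (G i) (z i) p.2 ⊆ Rset E (G i) (z i) w := by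
    rintro ⟨j, p⟩ hp rfl
    have h1 := hc.2.2.2.2.1 (j, p) hp
    have h2 := Casc.mem c hc.1 (j, p) hp
    simp only [RR] at h1
    exact ⟨dominate (hG.conn j) h2.2.1 h2.2.2 hwz h1.2 h1.1, Rset_mono h1.1⟩
  have hoptc : Opt E z X K i0 n L G c := by
    intro G' c' h1 h2 h3 h4
    refine (hopt G' c' h1 h2 h3 h4).trans_le ?_
    exact val_inv (E := E) (z := z) (G := G) c [(i, w)] (by simpa using hlen)
  -- generic replacement of one vertex `y` of class `i` by `h`
  have hrep : ∀ y ∈ G i, y ≠ z i → Rset E (G i) (z i) y = (G i).erase y → x ≠ y →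
      Cfg E z X (Function.update G i (insert h ((G i).erase y))) ∧
      (∀ j, (Function.update G i (insert h ((G i).erase y)) j).card = n j) ∧
      Function.update G i (insert h ((G i).erase y)) i0 = K := by
    intro y hy hyz hyR hxy
    have hhe : h ∉ (G i).erase y := fun e => hhG i (Finset.mem_of_mem_erase e)
    refine ⟨⟨?_, ?_, ?_, ?_⟩, ?_, ?_⟩
    · intro j
      rcases eq_or_ne j i with rfl | hj
      · rw [Function.update_self]
        exact Finset.mem_insert_of_mem (Finset.mem_erase.mpr ⟨Ne.symm hyz, hG.root j⟩)
      · rw [Function.update_of_ne hj]; exact hG.root j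
    · intro j
      rcases eq_or_ne j i with rfl | hj
      · rw [Function.update_self]
        have h1 : ∀ u ∈ (G j).erase y, Rch E (insert h ((G j).erase y)) u (z j) := by
          intro u hu
          have h2 : u ∈ Rset E (G j) (z j) y := by rw [hyR]; exact hu
          have h3 := Rset_conn h2
          rw [hyR] at h3
          exact h3.mono (Finset.subset_insert _ _)
        intro u hu
        rcases Finset.mem_insert.mp hu with rfl | hu
        · have hx' : x ∈ (G j).erase y := Finset.mem_erase.mpr ⟨hxy, Rset_subset hx⟩
          exact Rch.head hE (Finset.mem_insert_self _ _) (Finset.mem_insert_of_mem hx')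
            (h1 x hx')
        · exact h1 u hu
      · rw [Function.update_of_ne hj]; exact hG.conn j
    · intro j j' hjj
      rcases eq_or_ne j i with rfl | hj
      · rw [Function.update_self, Function.update_of_ne (Ne.symm hjj)]
        rw [Finset.disjoint_insert_left]
        exact ⟨hhG j', Finset.disjoint_of_subset_left (Finset.erase_subset _ _)
          (hG.disj j j' hjj)⟩
      · rcases eq_or_ne j' i with rfl | hj'
        · rw [Function.update_self, Function.update_of_ne hj]
          rw [Finset.disjoint_insert_right]
          exact ⟨hhG j, Finset.disjoint_of_subset_right (Finset.erase_subset _ _)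
            (hG.disj j j' hjj)⟩
        · rw [Function.update_of_ne hj, Function.update_of_ne hj']
          exact hG.disj j j' hjj
    · intro j
      rcases eq_or_ne j i with rfl | hj
      · rw [Function.update_self]
        apply Finset.insert_subset (Finset.mem_insert_of_mem hhX)
        exact (Finset.erase_subset _ _).trans (hG.sub j)
      · rw [Function.update_of_ne hj]; exact hG.sub j
    · intro j
      rcases eq_or_ne j i with rfl | hj
      · rw [Function.update_self, Finset.card_insert_of_notMem hhe,
          Finset.card_erase_of_mem hy]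
        have h1 := hn j
        have h2 : 0 < (G j).card := Finset.card_pos.mpr ⟨y, hy⟩
        omega
      · rw [Function.update_of_ne hj]; exact hn j
    · rw [Function.update_of_ne (Ne.symm hii0)]; exact hK
  by_cases hex : ∃ y ∈ G i, y ≠ w ∧ y ∉ Rset E (G i) (z i) w
  · -- case 1: enlarge the reservoir
    obtain ⟨y, hyG, hyw, hyR, hyz, hyE⟩ := exists_leaf (hG.root i) (hG.conn i) hwG hwz hex
    have hxy : x ≠ y := fun e => hyR (e ▸ hx)
    obtain ⟨hC, hS, hK'⟩ := hrep y hyG hyz hyE hxy
    set G' := Function.update G i (insert h ((G i).erase y)) with hG'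
    have hG'i : G' i = insert h ((G i).erase y) := by rw [hG', Function.update_self]
    have hgrow : ∀ q ∈ ((i, w) :: c), q.2 ∈ G' q.1 ∧ RR E z G q ⊆ RR E z G' q := by
      rintro ⟨j, p⟩ hp
      rcases eq_or_ne j i with rfl | hj
      · have hcase : (p = w) ∨ (p ∈ Rset E (G j) (z j) w ∧
            Rset E (G j) (z j) p ⊆ Rset E (G j) (z j) w) := by
          rcases List.mem_cons.mp hp with h1 | h1
          · exact Or.inl (congrArg Prod.snd h1)
          · exact Or.inr (hold (j, p) h1 rfl)
        have hp1 : p ∈ G' j := by
          rw [hG'i]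
          apply Finset.mem_insert_of_mem
          rcases hcase with rfl | ⟨h1, _⟩
          · exact Finset.mem_erase.mpr ⟨Ne.symm hyw, hwG⟩
          · refine Finset.mem_erase.mpr ⟨fun e => hyR (e ▸ h1), Rset_subset h1⟩
        refine ⟨hp1, ?_⟩
        show Rset E (G j) (z j) p ⊆ Rset E (G' j) (z j) p
        apply Rset_sub
        rw [hG'i]
        intro u hu
        apply Finset.mem_insert_of_mem
        refine Finset.mem_erase.mpr ⟨?_, Rset_subset hu⟩
        rintro rfl
        rcases hcase with rfl | ⟨_, h2⟩
        · exact hyR hu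
        · exact hyR (h2 hu)
      · have h1 : G' j = G j := by rw [hG', Function.update_of_ne hj]
        have h2 := Casc.mem _ hc (j, p) hp
        refine ⟨by rw [h1]; exact h2.2.1, ?_⟩
        show Rset E (G j) (z j) p ⊆ Rset E (G' j) (z j) p
        rw [h1]
    rcases dich ((i, w) :: c) hc hgrow hlen with ⟨_, h2⟩ | ⟨c', h1, h2⟩
    · have h3 := h2 (i, w) List.mem_cons_self
      have h4 : h ∈ Rset E (G' i) (z i) w := by
        have h5 : Rset E (G i) (z i) w ⊆ Rset E (G' i) (z i) w :=
          (hgrow (i, w) List.mem_cons_self).2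
        exact Rset_closed (by rw [hG'i]; exact Finset.mem_insert_self _ _) hhw hE (h5 hx)
      have h5 : h ∈ Rset E (G i) (z i) w := by
        have h6 : Rset E (G' i) (z i) w = Rset E (G i) (z i) w := h3
        rw [← h6]; exact h4
      exact hhG i (Rset_subset h5)
    · have h3 := hopt G' c' hC hS hK' h1
      omega
  · -- case 2: exchange
    push Not at hex
    have hRw : Rset E (G i) (z i) w = (G i).erase w := by
      apply Finset.Subset.antisymm
      · intro u hu
        exact Finset.mem_erase.mpr ⟨(mem_Rset.mp hu).2.1, Rset_subset hu⟩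
      · intro u hu
        rw [Finset.mem_erase] at hu
        exact hex u hu.2 hu.1
    have hxw : x ≠ w := (mem_Rset.mp hx).2.1
    obtain ⟨hC, hS, hK'⟩ := hrep w hwG hwz hRw hxw
    set G' := Function.update G i (insert h ((G i).erase w)) with hG'
    have hG'i : G' i = insert h ((G i).erase w) := by rw [hG', Function.update_self]
    have hwX : w ∈ X := by
      rcases Finset.mem_insert.mp (hG.sub i hwG) with h1 | h1
      · exact absurd h1 hwz
      · exact h1
    have hwG' : ∀ j, w ∉ G' j := by
      intro j
      rcases eq_or_ne j i with rfl | hj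
      · rw [hG'i, Finset.mem_insert, not_or]
        exact ⟨Ne.symm hhw, fun e => (Finset.mem_erase.mp e).1 rfl⟩
      · have h1 : G' j = G j := by rw [hG', Function.update_of_ne hj]
        rw [h1]
        exact Finset.disjoint_left.mp (hG.disj i j (Ne.symm hj)) hwG
    obtain ⟨x', hE', hx'⟩ := hc.2.2.2.2.2
    rcases hx' with hx' | ⟨p, hp, hx'⟩
    · -- success
      apply hno
      refine ⟨Function.update G' i0 (insert w K), ⟨?_, ?_, ?_, ?_⟩, ?_, ?_⟩
      · intro j
        rcases eq_or_ne j i0 with rfl | hj
        · rw [Function.update_self, ← hK']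
          exact Finset.mem_insert_of_mem (hC.root j)
        · rw [Function.update_of_ne hj]; exact hC.root j
      · intro j
        rcases eq_or_ne j i0 with rfl | hj
        · rw [Function.update_self]
          have h1 : ∀ u ∈ K, Rch E (insert w K) u (z j) := by
            intro u hu
            have h2 := hC.conn j u (by rw [hK']; exact hu)
            rw [hK'] at h2
            exact h2.mono (Finset.subset_insert _ _)
          intro u hu
          rcases Finset.mem_insert.mp hu with rfl | hu
          · exact Rch.head hE' (Finset.mem_insert_self _ _) (Finset.mem_insert_of_mem hx')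
              (h1 x' hx')
          · exact h1 u hu
        · rw [Function.update_of_ne hj]; exact hC.conn j
      · intro j j' hjj
        rcases eq_or_ne j i0 with rfl | hj
        · rw [Function.update_self, Function.update_of_ne (Ne.symm hjj),
            Finset.disjoint_insert_left]
          exact ⟨hwG' j', by rw [← hK']; exact hC.disj j j' hjj⟩
        · rcases eq_or_ne j' i0 with rfl | hj'
          · rw [Function.update_self, Function.update_of_ne hj, Finset.disjoint_insert_right]
            exact ⟨hwG' j, by rw [← hK']; exact hC.disj j j' hjj⟩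
          · rw [Function.update_of_ne hj, Function.update_of_ne hj']
            exact hC.disj j j' hjj
      · intro j
        rcases eq_or_ne j i0 with rfl | hj
        · rw [Function.update_self]
          apply Finset.insert_subset (Finset.mem_insert_of_mem hwX)
          rw [← hK']
          exact hC.sub j
        · rw [Function.update_of_ne hj]; exact hC.sub j
      · rw [Function.update_self, Finset.card_insert_of_notMem]
        · rw [← hK, hn i0]
        · rw [← hK']; exact hwG' i0
      · intro j hj
        rw [Function.update_of_ne hj]; exact hS j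
    · -- pass to an older marked vertex
      have hgrow : ∀ q ∈ c, q.2 ∈ G' q.1 ∧ RR E z G q ⊆ RR E z G' q := by
        rintro ⟨j, p'⟩ hp'
        rcases eq_or_ne j i with rfl | hj
        · have h1 := hold (j, p') hp' rfl
          have h2 : Rset E (G j) (z j) p' ⊆ G' j := by
            rw [hG'i]
            intro u hu
            apply Finset.mem_insert_of_mem
            rw [← hRw]
            exact h1.2 hu
          refine ⟨?_, ?_⟩
          · rw [hG'i]
            apply Finset.mem_insert_of_mem
            rw [← hRw]
            exact h1.1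
          · exact Rset_sub h2
        · have h1 : G' j = G j := by rw [hG', Function.update_of_ne hj]
          have h2 := Casc.mem c hc.1 (j, p') hp'
          refine ⟨by rw [h1]; exact h2.2.1, ?_⟩
          show Rset E (G j) (z j) p' ⊆ Rset E (G' j) (z j) p'
          rw [h1]
      rcases dich c hc.1 hgrow hlen' with ⟨h1, h2⟩ | ⟨c', h1, h2⟩
      · obtain ⟨ca, cb, hcab⟩ := List.append_of_mem hp
        have h3 : Casc E z K i0 G' (p :: cb) := by
          rw [hcab] at h1
          exact Casc.suffix ca _ h1
        have h4 : Opt E z X K i0 n L G' (p :: cb) := by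
          intro G3 c3 g1 g2 g3 g4
          have g5 := hoptc G3 c3 g1 g2 g3 g4
          rw [← val_congr (G' := G') c h2] at g5
          refine g5.trans_le ?_
          rw [hcab]
          exact val_inv (E := E) (z := z) (G := G') (p :: cb) ca (by rw [← hcab]; exact hlen')
        have h5 : cb.length < m := by
          have : c.length = ca.length + (cb.length + 1) := by rw [hcab]; simp
          omega
        exact IH cb.length h5 G' hC hS hK' p cb le_rfl h3 h4 w hwX hwG' x'
          (by rw [h2 p hp]; exact hx') hE'
      · have h3 := hoptc G' c' hC hS hK' h1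
        omega

end H990.DGL
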