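import Pool.Agent.H990_Full.Halve

/-! Absorbing one-sided vertices and filling the classes. -/

namespace H990

open Finset

set_option linter.unusedSectionVars false

variable {V : Type*} [DecidableEq V] [Fintype V]
variable {K : Type*} [DecidableEq K] [Fintype K]

open Classical in
/-- The vertices of `R` mixed to `C`. -/
noncomputable def Mx (r : V → V → Prop) (C R : Finset V) : Finset V :=
  R.filter (fun v => (∃ c ∈ C, r c v) ∧ ∃ c ∈ C, r v c)

lemma mem_Mx {r : V → V → Prop} {C R : Finset V} {v : V} :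
    v ∈ Mx r C R ↔ v ∈ R ∧ (∃ c ∈ C, r c v) ∧ ∃ c ∈ C, r v c := by simp [Mx]

lemma Mx_rev {r : V → V → Prop} {C R : Finset V} : Mx (rev r) C R = Mx r C R := by
  ext v
  rw [mem_Mx, mem_Mx]
  constructor
  · rintro ⟨h1, h2, h3⟩; exact ⟨h1, h3, h2⟩
  · rintro ⟨h1, h2, h3⟩; exact ⟨h1, h3, h2⟩

/-- Free vertices. -/
def Fr (W : Finset V) (C : K → Finset V) : Finset V := univ \ (W ∪ univ.biUnion C)

lemma mem_Fr {W : Finset V} {C : K → Finset V} {v : V} :
    v ∈ Fr W C ↔ v ∉ W ∧ ∀ k, v ∉ C k := by
  simp only [Fr, Finset.mem_sdiff, Finset.mem_univ, true_and, Finset.mem_union,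
    Finset.mem_biUnion, not_or, not_exists]

/-- A family of disjoint strong cores avoiding `W`. -/
structure Fam (r : V → V → Prop) (W : Finset V) (C : K → Finset V) : Prop where
  strong : ∀ k, Strong r (C k)
  disj : ∀ i j, i ≠ j → Disjoint (C i) (C j)
  dW : ∀ k, Disjoint (C k) W
  ne : ∀ k, (C k).Nonempty

lemma Fam.rev {r : V → V → Prop} {W : Finset V} {C : K → Finset V} (h : Fam r W C) :
    Fam (H990.rev r) W C :=
  ⟨fun k => (h.strong k).rev, h.disj, h.dW, h.ne⟩

/-- Enlarging one member. -/
def upd (C : K → Finset V) (k : K) (E : Finset V) : K → Finset V :=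
  Function.update C k (C k ∪ E)

lemma upd_self {C : K → Finset V} {k : K} {E : Finset V} : upd C k E k = C k ∪ E := by
  simp [upd]

lemma upd_ne {C : K → Finset V} {k j : K} {E : Finset V} (h : j ≠ k) : upd C k E j = C j := by
  simp [upd, h]

lemma le_upd {C : K → Finset V} {k : K} {E : Finset V} (j : K) : C j ⊆ upd C k E j := by
  rcases eq_or_ne j k with rfl | h
  · rw [upd_self]; exact Finset.subset_union_left
  · rw [upd_ne h]

lemma Fr_upd {W : Finset V} {C : K → Finset V} {k : K} {E : Finset V} :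
    Fr W (upd C k E) = Fr W C \ E := by
  ext v
  rw [mem_Fr, Finset.mem_sdiff, mem_Fr]
  constructor
  · rintro ⟨h1, h2⟩
    refine ⟨⟨h1, fun j hj => h2 j (le_upd j hj)⟩, fun hE => ?_⟩
    have := h2 k
    rw [upd_self, Finset.mem_union, not_or] at this
    exact this.2 hE
  · rintro ⟨⟨h1, h2⟩, h3⟩
    refine ⟨h1, fun j => ?_⟩
    rcases eq_or_ne j k with rfl | h
    · rw [upd_self, Finset.mem_union, not_or]; exact ⟨h2 j, h3⟩
    · rw [upd_ne h]; exact h2 j

lemma Fam.upd {r : V → V → Prop} {W : Finset V} {C : K → Finset V} (h : Fam r W C) {k : K}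
    {E : Finset V} (hE : E ⊆ Fr W C) (hS : Strong r (C k ∪ E)) : Fam r W (H990.upd C k E) := by
  have hEC : ∀ j, Disjoint E (C j) := by
    intro j
    rw [Finset.disjoint_left]
    intro v hv
    exact (mem_Fr.mp (hE hv)).2 j
  refine ⟨?_, ?_, ?_, ?_⟩
  · intro j
    rcases eq_or_ne j k with rfl | hj
    · rw [upd_self]; exact hS
    · rw [upd_ne hj]; exact h.strong j
  · intro i j hij
    rcases eq_or_ne i k with rfl | hi
    · rw [upd_self, upd_ne (Ne.symm hij), Finset.disjoint_union_left]
      exact ⟨h.disj i j hij, hEC j⟩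
    · rcases eq_or_ne j k with rfl | hj
      · rw [upd_self, upd_ne hi, Finset.disjoint_union_right]
        exact ⟨h.disj i j hij, (hEC i).symm⟩
      · rw [upd_ne hi, upd_ne hj]; exact h.disj i j hij
  · intro j
    rcases eq_or_ne j k with rfl | hj
    · rw [upd_self, Finset.disjoint_union_left]
      refine ⟨h.dW j, ?_⟩
      rw [Finset.disjoint_left]
      intro v hv
      exact (mem_Fr.mp (hE hv)).1
    · rw [upd_ne hj]; exact h.dW j
  · intro j
    exact (h.ne j).mono (le_upd j)

/-- One absorption step. -/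
lemma absorb_step {r : V → V → Prop} (hT : IsTournament r) {W : Finset V}
    (hW : Strong r (univ \ W)) (g : K) {C : K → Finset V} (hC : Fam r W C)
    (hmix : ∀ i, i ≠ g → (Yp r (C g) (Fr W C)).card < (Mx r (C i) (Fr W C)).card)
    (hne : (Yp r (C g) (Fr W C)).Nonempty) :
    ∃ (k : K) (E : Finset V) (u : V), Fam r W (upd C k E) ∧ E ⊆ Fr W C ∧ E.card ≤ 2 ∧
      u ∈ E ∧ u ∈ Yp r (C g) (Fr W C) := by
  classical
  set P := Yp r (C g) (Fr W C) with hP
  obtain ⟨c0, hc0⟩ := hC.ne g
  have hPW : P ⊆ univ \ W := by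
    intro v hv
    exact Finset.mem_sdiff.mpr ⟨Finset.mem_univ _, (mem_Fr.mp (mem_Yp.mp hv).1).1⟩
  have hPne : P ≠ univ \ W := by
    intro h
    have h1 : c0 ∈ univ \ W := Finset.mem_sdiff.mpr ⟨Finset.mem_univ _,
      Finset.disjoint_left.mp (hC.dW g) hc0⟩
    rw [← h] at h1
    exact (mem_Fr.mp (mem_Yp.mp h1).1).2 g hc0
  obtain ⟨u, hu, w, hw, huw⟩ := hW P hPW hne hPne
  rw [Finset.mem_sdiff, Finset.mem_sdiff] at hw
  have huF := (mem_Yp.mp hu).1
  have huC := (mem_Yp.mp hu).2
  -- a free partner
  have free : ∀ w', w' ∈ Fr W C → w' ∉ P → r u w' →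
      ∃ (k : K) (E : Finset V) (u : V), Fam r W (upd C k E) ∧ E ⊆ Fr W C ∧ E.card ≤ 2 ∧
      u ∈ E ∧ u ∈ P := by
    intro w' hw' hwP hr
    have hsub : ({u, w'} : Finset V) ⊆ Fr W C :=
      Finset.insert_subset huF (Finset.singleton_subset_iff.mpr hw')
    have h1 : ¬ ∀ c ∈ C g, r c w' := fun h2 => hwP (mem_Yp.mpr ⟨hw', h2⟩)
    push Not at h1
    obtain ⟨c, hc, hcw⟩ := h1
    have hcw' : r w' c := by
      apply hT.of_not _ hcw
      rintro rfl
      exact (mem_Fr.mp hw').2 g hc
    refine ⟨g, {u, w'}, u, hC.upd hsub ?_, hsub, Finset.card_le_two, by simp, hu⟩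
    have heq : C g ∪ {u, w'} = insert u (insert w' (C g)) := by
      ext v; simp only [Finset.mem_union, Finset.mem_insert, Finset.mem_singleton]; tauto
    rw [heq]
    exact strong_insert_pair (hC.strong g) ⟨c0, hc0, huC c0 hc0⟩ hr ⟨c, hc, hcw'⟩
  by_cases hwF : w ∈ Fr W C
  · exact free w hwF hw.2 huw
  · have hex : ∃ i, w ∈ C i := by
      by_contra hcon
      push Not at hcon
      exact hwF (mem_Fr.mpr ⟨hw.1.2, hcon⟩)
    obtain ⟨i, hi⟩ := hex
    have hig : i ≠ g := by
      rintro rfl
      exact hT.2.2 _ _ huw (huC w hi)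
    by_cases hcu : ∃ c ∈ C i, r c u
    · have hsub : ({u} : Finset V) ⊆ Fr W C := Finset.singleton_subset_iff.mpr huF
      refine ⟨i, {u}, u, hC.upd hsub ?_, hsub, by simp, by simp, hu⟩
      rw [Finset.union_comm, ← Finset.insert_eq]
      exact strong_insert (hC.strong i) hcu ⟨w, hi, huw⟩
    · obtain ⟨d, hd, hdP⟩ : ∃ d ∈ Mx r (C i) (Fr W C), d ∉ P := by
        by_contra hcon
        push Not at hcon
        have h1 : Mx r (C i) (Fr W C) ⊆ P := fun d hd => hcon d hd
        have h2 := Finset.card_le_card h1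
        have h3 := hmix i hig
        omega
      rw [mem_Mx] at hd
      by_cases hud : r u d
      · exact free d hd.1 hdP hud
      · have hdu : r d u := by
          apply hT.of_not _ hud
          rintro rfl
          exact hdP hu
        have hsub : ({d, u} : Finset V) ⊆ Fr W C :=
          Finset.insert_subset hd.1 (Finset.singleton_subset_iff.mpr huF)
        refine ⟨i, {d, u}, u, hC.upd hsub ?_, hsub, Finset.card_le_two, by simp, hu⟩
        have heq : C i ∪ {d, u} = insert d (insert u (C i)) := by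
          ext v; simp only [Finset.mem_union, Finset.mem_insert, Finset.mem_singleton]; tauto
        rw [heq]
        exact strong_insert_pair (hC.strong i) hd.2.1 hdu ⟨w, hi, huw⟩

/-- Absorption of all one-sided vertices. -/
lemma absorb {r : V → V → Prop} (hT : IsTournament r) {W : Finset V}
    (hW : Strong r (univ \ W)) (g : K) (m : ℕ) : ∀ C : K → Finset V, Fam r W C →
      (Yp r (C g) (Fr W C)).card + (Yp (rev r) (C g) (Fr W C)).card ≤ m →
      (∀ i, i ≠ g → 3 * m + 1 ≤ (Mx r (C i) (Fr W C)).card) →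
      ∃ C' : K → Finset V, Fam r W C' ∧ (∀ k, C k ⊆ C' k) ∧
        (Fr W C \ Fr W C').card ≤ 2 * m ∧ ∀ v ∈ Fr W C', v ∈ Mx r (C' g) (Fr W C') := by
  classical
  induction m with
  | zero =>
    intro C hC hm _
    refine ⟨C, hC, fun k => Finset.Subset.refl _, by simp, ?_⟩
    intro v hv
    have h1 : Yp r (C g) (Fr W C) = ∅ := Finset.card_eq_zero.mp (by omega)
    have h2 : Yp (rev r) (C g) (Fr W C) = ∅ := Finset.card_eq_zero.mp (by omega)
    have h3 : v ∉ Yp r (C g) (Fr W C) := by rw [h1]; simp
    have h4 : v ∉ Yp (rev r) (C g) (Fr W C) := by rw [h2]; simp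
    rw [mem_Yp] at h3 h4
    push Not at h3 h4
    obtain ⟨c, hc, hcv⟩ := h3 hv
    obtain ⟨c', hc', hcv'⟩ := h4 hv
    have hne : ∀ c ∈ C g, c ≠ v := by
      rintro c hc rfl
      exact (mem_Fr.mp hv).2 g hc
    rw [mem_Mx]
    exact ⟨hv, ⟨c', hc', hT.of_not (Ne.symm (hne c' hc')) hcv'⟩,
      ⟨c, hc, hT.of_not (hne c hc) hcv⟩⟩
  | succ m ih =>
    intro C hC hm hmix
    -- continue after one step
    have cont : ∀ (k : K) (E : Finset V) (u : V), Fam r W (upd C k E) → E ⊆ Fr W C →
        E.card ≤ 2 → u ∈ E →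
        (u ∈ Yp r (C g) (Fr W C) ∨ u ∈ Yp (rev r) (C g) (Fr W C)) →
        ∃ C' : K → Finset V, Fam r W C' ∧ (∀ k, C k ⊆ C' k) ∧
        (Fr W C \ Fr W C').card ≤ 2 * (m + 1) ∧ ∀ v ∈ Fr W C', v ∈ Mx r (C' g) (Fr W C') := by
      intro k E u hF hE hEc huE hu
      have hFr : Fr W (upd C k E) = Fr W C \ E := Fr_upd
      have hs1 : Yp r (upd C k E g) (Fr W (upd C k E)) ⊆ (Yp r (C g) (Fr W C)).erase u := by
        intro v hv
        rw [Finset.mem_erase]
        refine ⟨?_, Yp_mono (le_upd g) (by rw [hFr]; exact Finset.sdiff_subset) hv⟩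
        rintro rfl
        have := (mem_Yp.mp hv).1
        rw [hFr] at this
        exact (Finset.mem_sdiff.mp this).2 huE
      have hs2 : Yp (rev r) (upd C k E g) (Fr W (upd C k E)) ⊆
          (Yp (rev r) (C g) (Fr W C)).erase u := by
        intro v hv
        rw [Finset.mem_erase]
        refine ⟨?_, Yp_mono (le_upd g) (by rw [hFr]; exact Finset.sdiff_subset) hv⟩
        rintro rfl
        have := (mem_Yp.mp hv).1
        rw [hFr] at this
        exact (Finset.mem_sdiff.mp this).2 huE
      have hc1 := Finset.card_le_card hs1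
      have hc2 := Finset.card_le_card hs2
      have he1 : ((Yp r (C g) (Fr W C)).erase u).card +
          ((Yp (rev r) (C g) (Fr W C)).erase u).card + 1 ≤
          (Yp r (C g) (Fr W C)).card + (Yp (rev r) (C g) (Fr W C)).card := by
        rcases hu with hu | hu
        · have h1 := Finset.card_erase_add_one hu
          have h2 : ((Yp (rev r) (C g) (Fr W C)).erase u).card ≤ _ :=
            Finset.card_le_card (Finset.erase_subset _ _)
          omega
        · have h1 := Finset.card_erase_add_one hu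
          have h2 : ((Yp r (C g) (Fr W C)).erase u).card ≤ _ :=
            Finset.card_le_card (Finset.erase_subset _ _)
          omega
      obtain ⟨C', h1, h2, h3, h4⟩ := ih (upd C k E) hF (by omega) (by
        intro i hi
        have h5 := hmix i hi
        have h6 : Mx r (C i) (Fr W C) ⊆ Mx r (upd C k E i) (Fr W (upd C k E)) ∪ E := by
          intro v hv
          rw [mem_Mx] at hv
          rw [Finset.mem_union]
          by_cases hvE : v ∈ E
          · exact Or.inr hvE
          · left
            rw [mem_Mx, hFr, Finset.mem_sdiff]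
            obtain ⟨hv1, ⟨c, hc, hcv⟩, c', hc', hcv'⟩ := hv
            exact ⟨⟨hv1, hvE⟩, ⟨c, le_upd i hc, hcv⟩, c', le_upd i hc', hcv'⟩
        have h7 := (Finset.card_le_card h6).trans (Finset.card_union_le _ _)
        omega)
      refine ⟨C', h1, fun j => (le_upd j).trans (h2 j), ?_, h4⟩
      have h5 : Fr W C \ Fr W C' ⊆ E ∪ (Fr W (upd C k E) \ Fr W C') := by
        intro v hv
        rw [Finset.mem_sdiff] at hv
        rw [Finset.mem_union, Finset.mem_sdiff, hFr, Finset.mem_sdiff]
        by_cases hvE : v ∈ E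
        · exact Or.inl hvE
        · exact Or.inr ⟨⟨hv.1, hvE⟩, hv.2⟩
      have h6 := (Finset.card_le_card h5).trans (Finset.card_union_le _ _)
      omega
    by_cases hne1 : (Yp r (C g) (Fr W C)).Nonempty
    · obtain ⟨k, E, u, h1, h2, h3, h4, h5⟩ := absorb_step hT hW g hC (by
        intro i hi
        have := hmix i hi
        omega) hne1
      exact cont k E u h1 h2 h3 h4 (Or.inl h5)
    · by_cases hne2 : (Yp (rev r) (C g) (Fr W C)).Nonempty
      · obtain ⟨k, E, u, h1, h2, h3, h4, h5⟩ := absorb_step hT.rev hW.rev g hC.rev (by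
          intro i hi
          have := hmix i hi
          rw [Mx_rev]
          omega) hne2
        exact cont k E u h1.rev h2 h3 h4 (Or.inr h5)
      · rw [Finset.not_nonempty_iff_eq_empty] at hne1 hne2
        refine ⟨C, hC, fun k => Finset.Subset.refl _, by simp, ?_⟩
        intro v hv
        have h3 : v ∉ Yp r (C g) (Fr W C) := by rw [hne1]; simp
        have h4 : v ∉ Yp (rev r) (C g) (Fr W C) := by rw [hne2]; simp
        rw [mem_Yp] at h3 h4
        push Not at h3 h4
        obtain ⟨c, hc, hcv⟩ := h3 hv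
        obtain ⟨c', hc', hcv'⟩ := h4 hv
        have hne : ∀ c ∈ C g, c ≠ v := by
          rintro c hc rfl
          exact (mem_Fr.mp hv).2 g hc
        rw [mem_Mx]
        exact ⟨hv, ⟨c', hc', hT.of_not (Ne.symm (hne c' hc')) hcv'⟩,
          ⟨c, hc, hT.of_not (hne c hc) hcv⟩⟩

/-- Greedy choice of disjoint subsets. -/
lemma fill_greedy (s : Finset K) : ∀ (S : K → Finset V) (m : K → ℕ) (Z : Finset V),
    (∀ k ∈ s, ∑ j ∈ s, m j ≤ (S k \ Z).card) →
    ∃ E : K → Finset V, (∀ k ∈ s, E k ⊆ S k \ Z) ∧ (∀ k ∈ s, (E k).card = m k) ∧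
      ∀ k ∈ s, ∀ j ∈ s, k ≠ j → Disjoint (E k) (E j) := by
  classical
  induction s using Finset.induction_on with
  | empty => intro S m Z _; exact ⟨fun _ => ∅, by simp, by simp, by simp⟩
  | insert a s ha ih =>
    intro S m Z h
    rw [Finset.sum_insert ha] at h
    obtain ⟨Ea, hEa1, hEa2⟩ := Finset.exists_subset_card_eq (s := S a \ Z) (n := m a) (by
      have := h a (Finset.mem_insert_self _ _); omega)
    obtain ⟨E, h1, h2, h3⟩ := ih S m (Z ∪ Ea) (by
      intro k hk
      have h4 := h k (Finset.mem_insert_of_mem hk)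
      have h5 : S k \ Z ⊆ (S k \ (Z ∪ Ea)) ∪ Ea := by
        intro v hv
        simp only [Finset.mem_union, Finset.mem_sdiff, not_or] at hv ⊢
        by_cases hvE : v ∈ Ea
        · exact Or.inr hvE
        · exact Or.inl ⟨hv.1, hv.2, hvE⟩
      have h6 := (Finset.card_le_card h5).trans (Finset.card_union_le _ _)
      omega)
    have hdis : ∀ k ∈ s, Disjoint Ea (E k) := by
      intro k hk
      rw [Finset.disjoint_left]
      intro v hv hv'
      have := (Finset.mem_sdiff.mp (h1 k hk hv')).2
      exact this (Finset.mem_union_right _ hv)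
    refine ⟨Function.update E a Ea, ?_, ?_, ?_⟩
    · intro k hk
      rcases eq_or_ne k a with rfl | hka
      · rw [Function.update_self]; exact hEa1
      · rw [Function.update_of_ne hka]
        intro v hv
        have := h1 k ((Finset.mem_insert.mp hk).resolve_left hka) hv
        rw [Finset.mem_sdiff, Finset.mem_union, not_or] at this
        exact Finset.mem_sdiff.mpr ⟨this.1, this.2.1⟩
    · intro k hk
      rcases eq_or_ne k a with rfl | hka
      · rw [Function.update_self]; exact hEa2
      · rw [Function.update_of_ne hka]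
        exact h2 k ((Finset.mem_insert.mp hk).resolve_left hka)
    · intro k hk j hj hkj
      rcases eq_or_ne k a with rfl | hka
      · rw [Function.update_self, Function.update_of_ne (Ne.symm hkj)]
        exact hdis j ((Finset.mem_insert.mp hj).resolve_left (Ne.symm hkj))
      · rcases eq_or_ne j a with rfl | hja
        · rw [Function.update_self, Function.update_of_ne hka]
          exact (hdis k ((Finset.mem_insert.mp hk).resolve_left hka)).symm
        · rw [Function.update_of_ne hka, Function.update_of_ne hja]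
          exact h3 k ((Finset.mem_insert.mp hk).resolve_left hka) j
            ((Finset.mem_insert.mp hj).resolve_left hja) hkj

/-- The number of free vertices. -/
lemma card_Fr {r : V → V → Prop} {W : Finset V} {C : K → Finset V} (h : Fam r W C) :
    (Fr W C).card + W.card + ∑ k, (C k).card = Fintype.card V := by
  classical
  have h1 : (univ.biUnion C).card = ∑ k, (C k).card :=
    Finset.card_biUnion (fun i _ j _ hij => h.disj i j hij)
  have h2 : Disjoint W (univ.biUnion C) := by
    rw [Finset.disjoint_biUnion_right]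
    intro k _
    exact (h.dW k).symm
  have h3 := Finset.card_sdiff_add_card_eq_card (Finset.subset_univ (W ∪ univ.biUnion C))
  rw [Finset.card_union_of_disjoint h2, h1, Finset.card_univ] at h3
  unfold Fr
  omega

/-- The end of the construction. -/
theorem finish {r : V → V → Prop} (hT : IsTournament r) {W : Finset V}
    (hW : Strong r (univ \ W)) (g : K) (n : K → ℕ) {C : K → Finset V} (hC : Fam r W C)
    (hsum : ∑ k, n k + W.card = Fintype.card V) {m ρ : ℕ}
    (hU : (Yp r (C g) (Fr W C)).card + (Yp (rev r) (C g) (Fr W C)).card ≤ m)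
    (Ts : Finset K) (hgT : g ∉ Ts) (hsize : ∀ k, (C k).card + 2 * m ≤ n k)
    (hT1 : ∀ k ∈ Ts, n k ≤ (C k).card + ρ)
    (hT2 : ∀ k ∈ Ts, Fintype.card K * ρ + 3 * m + 1 ≤ (Mx r (C k) (Fr W C)).card)
    (hG : ∀ k, k ≠ g → k ∉ Ts →
      (Fr W C \ Mx r (C k) (Fr W C)).card + (C g).card + 3 * m + 1 ≤ n g) :
    ∃ F : K → Finset V, (∀ k, Strong r (F k)) ∧ (∀ k, (F k).card = n k) ∧
      (∀ i j, i ≠ j → Disjoint (F i) (F j)) ∧ ∀ k, Disjoint (F k) W := by
  classical
  have hFr := card_Fr hC
  have hge : n g + ∑ k, (C k).card ≤ (C g).card + ∑ k, n k := by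
    have h1 := Finset.sum_erase_add univ n (Finset.mem_univ g)
    have h2 := Finset.sum_erase_add univ (fun k => (C k).card) (Finset.mem_univ g)
    have h3 : ∑ k ∈ univ.erase g, (C k).card ≤ ∑ k ∈ univ.erase g, n k :=
      Finset.sum_le_sum (fun k _ => by have := hsize k; omega)
    omega
  obtain ⟨C', hC', hle, hdiff, hmixg⟩ := absorb hT hW g m C hC hU (by
    intro i hi
    by_cases hiT : i ∈ Ts
    · have := hT2 i hiT
      omega
    · have h1 := hG i hi hiT
      have h2 := Finset.card_sdiff_add_card_eq_card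
        (show Mx r (C i) (Fr W C) ⊆ Fr W C from fun v hv => (mem_Mx.mp hv).1)
      omega)
  -- sizes
  have hsub : ∀ k, C' k ⊆ C k ∪ (Fr W C \ Fr W C') := by
    intro k v hv
    rw [Finset.mem_union, Finset.mem_sdiff]
    by_cases hvC : v ∈ C k
    · exact Or.inl hvC
    · right
      refine ⟨mem_Fr.mpr ⟨Finset.disjoint_left.mp (hC'.dW k) hv, ?_⟩,
        fun h => (mem_Fr.mp h).2 k hv⟩
      intro j hj
      rcases eq_or_ne j k with rfl | hjk
      · exact hvC hj
      · exact Finset.disjoint_left.mp (hC'.disj k j (Ne.symm hjk)) hv (hle j hj)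
  have hsz : ∀ k, (C' k).card ≤ (C k).card + 2 * m := by
    intro k
    have := (Finset.card_le_card (hsub k)).trans (Finset.card_union_le _ _)
    omega
  have hszn : ∀ k, (C' k).card ≤ n k := by
    intro k
    have := hsz k
    have := hsize k
    omega
  set F := Fr W C' with hF
  set need : K → ℕ := fun k => n k - (C' k).card with hneed
  have hFsub : F ⊆ Fr W C := by
    intro v hv
    rw [hF, mem_Fr] at hv
    exact mem_Fr.mpr ⟨hv.1, fun k hk => hv.2 k (hle k hk)⟩
  have hFc : F.card = ∑ k, need k := by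
    have h1 : F.card + W.card + ∑ k, (C' k).card = Fintype.card V := card_Fr hC'
    have h2 : ∑ k, need k + ∑ k, (C' k).card = ∑ k, n k := by
      rw [← Finset.sum_add_distrib]
      apply Finset.sum_congr rfl
      intro k _
      have := hszn k
      simp only [hneed]
      omega
    omega
  set S : K → Finset V := fun k => Mx r (C' k) F with hS
  have hSF : ∀ k, S k ⊆ F := fun k v hv => (mem_Mx.mp hv).1
  have hMx : ∀ k, ∀ v ∈ Mx r (C k) (Fr W C), v ∈ F → v ∈ S k := by
    intro k v hv hvF
    rw [mem_Mx] at hv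
    obtain ⟨_, ⟨c, hc, hcv⟩, c', hc', hcv'⟩ := hv
    exact mem_Mx.mpr ⟨hvF, ⟨c, hle k hc, hcv⟩, c', hle k hc', hcv'⟩
  -- the first group
  obtain ⟨E1, hE1, hE1c, hE1d⟩ := fill_greedy Ts S need ∅ (by
    intro k hk
    rw [Finset.sdiff_empty]
    have h1 := hT2 k hk
    have h2 : Mx r (C k) (Fr W C) ⊆ S k ∪ (Fr W C \ F) := by
      intro v hv
      rw [Finset.mem_union, Finset.mem_sdiff]
      by_cases hvF : v ∈ F
      · exact Or.inl (hMx k v hv hvF)
      · exact Or.inr ⟨(mem_Mx.mp hv).1, hvF⟩
    have h3 := (Finset.card_le_card h2).trans (Finset.card_union_le _ _)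
    have h4 : ∑ j ∈ Ts, need j ≤ Ts.card * ρ := by
      rw [← smul_eq_mul]
      apply Finset.sum_le_card_nsmul
      intro j hj
      have := hT1 j hj
      have := Finset.card_le_card (hle j)
      simp only [hneed]
      omega
    have h5 : Ts.card * ρ ≤ Fintype.card K * ρ :=
      Nat.mul_le_mul_right _ (Finset.card_le_univ _)
    omega)
  set Z := Ts.biUnion E1 with hZ
  have hZc : Z.card = ∑ k ∈ Ts, need k := by
    rw [hZ, Finset.card_biUnion (fun i hi j hj hij => hE1d i hi j hj hij)]
    exact Finset.sum_congr rfl hE1c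
  have hZF : Z ⊆ F := by
    intro v hv
    obtain ⟨k, hk, hv'⟩ := Finset.mem_biUnion.mp hv
    exact hSF k (Finset.mem_sdiff.mp (hE1 k hk hv')).1
  set s2 : Finset K := (univ \ Ts).erase g with hs2
  have hsplit : ∑ k, need k = ∑ k ∈ Ts, need k + (∑ k ∈ s2, need k + need g) := by
    have h1 : ∑ k ∈ s2, need k + need g = ∑ k ∈ univ \ Ts, need k :=
      Finset.sum_erase_add _ _ (Finset.mem_sdiff.mpr ⟨Finset.mem_univ g, hgT⟩)
    rw [h1, add_comm, Finset.sum_sdiff (Finset.subset_univ Ts)]
  obtain ⟨E2, hE2, hE2c, hE2d⟩ := fill_greedy s2 S need Z (by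
    intro k hk
    rw [hs2, Finset.mem_erase, Finset.mem_sdiff] at hk
    have h1 := hG k hk.1 hk.2.2
    have h2 : F \ S k ⊆ Fr W C \ Mx r (C k) (Fr W C) := by
      intro v hv
      rw [Finset.mem_sdiff] at hv ⊢
      exact ⟨hFsub hv.1, fun h => hv.2 (hMx k v h hv.1)⟩
    have h3 := Finset.card_le_card h2
    have h4 : F ⊆ (S k \ Z) ∪ ((F \ S k) ∪ Z) := by
      intro v hv
      simp only [Finset.mem_union, Finset.mem_sdiff]
      tauto
    have h5 := (Finset.card_le_card h4).trans (Finset.card_union_le _ _)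
    have h6 := Finset.card_union_le (F \ S k) Z
    have h7 : need g = n g - (C' g).card := rfl
    have h8 := hsz g
    omega)
  -- all groups
  set E : K → Finset V := fun k => if k ∈ Ts then E1 k else E2 k with hE
  have hE' : ∀ k, k ≠ g → E k ⊆ S k ∧ (E k).card = need k := by
    intro k hk
    by_cases hkT : k ∈ Ts
    · simp only [hE, if_pos hkT]
      exact ⟨fun v hv => (Finset.mem_sdiff.mp (hE1 k hkT hv)).1, hE1c k hkT⟩
    · simp only [hE, if_neg hkT]
      have hk2 : k ∈ s2 := by
        rw [hs2, Finset.mem_erase, Finset.mem_sdiff]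
        exact ⟨hk, Finset.mem_univ _, hkT⟩
      exact ⟨fun v hv => (Finset.mem_sdiff.mp (hE2 k hk2 hv)).1, hE2c k hk2⟩
  have hEd : ∀ i j, i ≠ g → j ≠ g → i ≠ j → Disjoint (E i) (E j) := by
    intro i j hi hj hij
    have hs : ∀ k, k ≠ g → k ∉ Ts → k ∈ s2 := by
      intro k hk hkT
      rw [hs2, Finset.mem_erase, Finset.mem_sdiff]
      exact ⟨hk, Finset.mem_univ _, hkT⟩
    by_cases hiT : i ∈ Ts
    · by_cases hjT : j ∈ Ts
      · simp only [hE, if_pos hiT, if_pos hjT]
        exact hE1d i hiT j hjT hij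
      · simp only [hE, if_pos hiT, if_neg hjT]
        rw [Finset.disjoint_right]
        intro v hv hv'
        exact (Finset.mem_sdiff.mp (hE2 j (hs j hj hjT) hv)).2
          (Finset.mem_biUnion.mpr ⟨i, hiT, hv'⟩)
    · by_cases hjT : j ∈ Ts
      · simp only [hE, if_neg hiT, if_pos hjT]
        rw [Finset.disjoint_left]
        intro v hv hv'
        exact (Finset.mem_sdiff.mp (hE2 i (hs i hi hiT) hv)).2
          (Finset.mem_biUnion.mpr ⟨j, hjT, hv'⟩)
      · simp only [hE, if_neg hiT, if_neg hjT]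
        exact hE2d i (hs i hi hiT) j (hs j hj hjT) hij
  set Eg : Finset V := F \ (univ.erase g).biUnion E with hEg
  have hEgc : Eg.card = need g := by
    have h1 : (univ.erase g).biUnion E ⊆ F := by
      intro v hv
      obtain ⟨k, hk, hv'⟩ := Finset.mem_biUnion.mp hv
      exact hSF k ((hE' k (Finset.mem_erase.mp hk).1).1 hv')
    have h2 : ((univ.erase g).biUnion E).card = ∑ k ∈ univ.erase g, need k := by
      rw [Finset.card_biUnion (fun i hi j hj hij =>
        hEd i j (Finset.mem_erase.mp hi).1 (Finset.mem_erase.mp hj).1 hij)]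
      exact Finset.sum_congr rfl (fun k hk => (hE' k (Finset.mem_erase.mp hk).1).2)
    have h3 := Finset.sum_erase_add univ need (Finset.mem_univ g)
    rw [hEg, Finset.card_sdiff_of_subset h1, h2, hFc]
    omega
  set E' : K → Finset V := Function.update E g Eg with hEup
  have hE'F : ∀ k, E' k ⊆ F := by
    intro k
    rcases eq_or_ne k g with rfl | hk
    · rw [hEup, Function.update_self]; exact Finset.sdiff_subset
    · rw [hEup, Function.update_of_ne hk]; exact (hE' k hk).1.trans (hSF k)
  have hE'c : ∀ k, (E' k).card = need k := by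
    intro k
    rcases eq_or_ne k g with rfl | hk
    · rw [hEup, Function.update_self]; exact hEgc
    · rw [hEup, Function.update_of_ne hk]; exact (hE' k hk).2
  have hE'd : ∀ i j, i ≠ j → Disjoint (E' i) (E' j) := by
    intro i j hij
    rcases eq_or_ne i g with rfl | hi
    · rw [hEup, Function.update_self, Function.update_of_ne (Ne.symm hij)]
      rw [Finset.disjoint_left]
      intro v hv hv'
      exact (Finset.mem_sdiff.mp hv).2 (Finset.mem_biUnion.mpr
        ⟨j, Finset.mem_erase.mpr ⟨Ne.symm hij, Finset.mem_univ _⟩, hv'⟩)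
    · rcases eq_or_ne j g with rfl | hj
      · rw [hEup, Function.update_self, Function.update_of_ne hi]
        rw [Finset.disjoint_right]
        intro v hv hv'
        exact (Finset.mem_sdiff.mp hv).2 (Finset.mem_biUnion.mpr
          ⟨i, Finset.mem_erase.mpr ⟨hi, Finset.mem_univ _⟩, hv'⟩)
      · rw [hEup, Function.update_of_ne hi, Function.update_of_ne hj]
        exact hEd i j hi hj hij
  have hCF : ∀ k, Disjoint (C' k) F := by
    intro k
    rw [Finset.disjoint_right]
    intro v hv
    exact (mem_Fr.mp hv).2 k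
  refine ⟨fun k => C' k ∪ E' k, ?_, ?_, ?_, ?_⟩
  · intro k
    apply strong_union_mixed (hC'.strong k)
    intro v hv
    have hvS : v ∈ Mx r (C' k) F := by
      rcases eq_or_ne k g with rfl | hk
      · exact hmixg v (hE'F k hv)
      · rw [hEup, Function.update_of_ne hk] at hv
        exact (hE' k hk).1 hv
    exact (mem_Mx.mp hvS).2
  · intro k
    rw [Finset.card_union_of_disjoint (Finset.disjoint_of_subset_right (hE'F k) (hCF k)), hE'c k]
    have := hszn k
    simp only [hneed]
    omega
  · intro i j hij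
    rw [Finset.disjoint_union_left, Finset.disjoint_union_right, Finset.disjoint_union_right]
    exact ⟨⟨hC'.disj i j hij, Finset.disjoint_of_subset_right (hE'F j) (hCF i)⟩,
      (Finset.disjoint_of_subset_right (hE'F i) (hCF j)).symm, hE'd i j hij⟩
  · intro k
    rw [Finset.disjoint_union_left]
    refine ⟨hC'.dW k, ?_⟩
    rw [Finset.disjoint_left]
    intro v hv
    exact (mem_Fr.mp (hE'F k hv)).1

end H990
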