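import Pool.Agent.H990_Full.Giant
import Pool.Agent.H990_Full.Finish
import Pool.Agent.H990_Song.Cases

/-! Tools for building the cores of the large classes. -/

namespace H990

open Finset

set_option linter.unusedSectionVars false

variable {V : Type*} [DecidableEq V] [Fintype V]
variable {K : Type*} [DecidableEq K] [Fintype K]

/-- Sequential choice of bounded extensions. -/
lemma seq_extend (s : Finset K) (R0 : Finset V) (e : ℕ) (Good : K → Finset V → Finset V → Prop)
    (hanti : ∀ k E R R', R' ⊆ R → Good k E R → Good k E R')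
    (hstep : ∀ k ∈ s, ∀ Z : Finset V, Z ⊆ R0 → Z.card ≤ e * s.card →
      ∃ E : Finset V, E ⊆ R0 \ Z ∧ E.card ≤ e ∧ Good k E ((R0 \ Z) \ E)) :
    ∃ E : K → Finset V, (∀ k, E k ⊆ R0) ∧ (∀ k, (E k).card ≤ e) ∧ (∀ k, k ∉ s → E k = ∅) ∧
      (∀ i j, i ≠ j → Disjoint (E i) (E j)) ∧
      ∀ k ∈ s, Good k (E k) (R0 \ univ.biUnion E) := by
  classical
  have key : ∀ s' : Finset K, s' ⊆ s → ∃ E : K → Finset V, (∀ k, E k ⊆ R0) ∧
      (∀ k, (E k).card ≤ e) ∧ (∀ k, k ∉ s' → E k = ∅) ∧
      (∀ i j, i ≠ j → Disjoint (E i) (E j)) ∧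
      ∀ k ∈ s', Good k (E k) (R0 \ univ.biUnion E) := by
    intro s'
    induction s' using Finset.induction_on with
    | empty =>
      intro _
      exact ⟨fun _ => ∅, by simp, by simp, by simp, by simp, by simp⟩
    | insert a s' ha ih =>
      intro hsub
      obtain ⟨E, h1, h2, h3, h4, h5⟩ := ih ((Finset.subset_insert _ _).trans hsub)
      set Z := univ.biUnion E with hZ
      have hZ0 : Z ⊆ R0 := by
        intro v hv
        obtain ⟨k, _, hv'⟩ := Finset.mem_biUnion.mp hv
        exact h1 k hv'
      have hZs : Z ⊆ s'.biUnion E := by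
        intro v hv
        obtain ⟨k, _, hv'⟩ := Finset.mem_biUnion.mp hv
        refine Finset.mem_biUnion.mpr ⟨k, ?_, hv'⟩
        by_contra hk
        rw [h3 k hk] at hv'
        simp at hv'
      have hZc : Z.card ≤ e * s.card := by
        have g1 := Finset.card_le_card hZs
        have g2 := Finset.card_biUnion_le_card_mul s' E e (fun k _ => h2 k)
        have g3 : s'.card ≤ s.card :=
          Finset.card_le_card ((Finset.subset_insert _ _).trans hsub)
        calc Z.card ≤ s'.card * e := g1.trans g2
          _ ≤ s.card * e := Nat.mul_le_mul_right _ g3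
          _ = e * s.card := by ring
      obtain ⟨Ea, g1, g2, g3⟩ := hstep a (hsub (Finset.mem_insert_self _ _)) Z hZ0 hZc
      have hEaZ : Disjoint Ea Z := by
        rw [Finset.disjoint_left]
        intro v hv
        exact (Finset.mem_sdiff.mp (g1 hv)).2
      have hEaE : ∀ k, Disjoint Ea (E k) := by
        intro k
        exact Finset.disjoint_of_subset_right
          (Finset.subset_biUnion_of_mem E (Finset.mem_univ k)) hEaZ
      have hU : univ.biUnion (Function.update E a Ea) = Z ∪ Ea := by
        ext v
        simp only [Finset.mem_biUnion, Finset.mem_univ, true_and, Finset.mem_union]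
        constructor
        · rintro ⟨k, hk⟩
          rcases eq_or_ne k a with rfl | hka
          · rw [Function.update_self] at hk; exact Or.inr hk
          · rw [Function.update_of_ne hka] at hk
            exact Or.inl (Finset.mem_biUnion.mpr ⟨k, Finset.mem_univ _, hk⟩)
        · rintro (hv | hv)
          · obtain ⟨k, _, hv'⟩ := Finset.mem_biUnion.mp hv
            refine ⟨k, ?_⟩
            rcases eq_or_ne k a with rfl | hka
            · rw [h3 k ha] at hv'
              simp at hv'
            · rw [Function.update_of_ne hka]; exact hv'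
          · exact ⟨a, by rw [Function.update_self]; exact hv⟩
      refine ⟨Function.update E a Ea, ?_, ?_, ?_, ?_, ?_⟩
      · intro k
        rcases eq_or_ne k a with rfl | hka
        · rw [Function.update_self]; exact g1.trans Finset.sdiff_subset
        · rw [Function.update_of_ne hka]; exact h1 k
      · intro k
        rcases eq_or_ne k a with rfl | hka
        · rw [Function.update_self]; exact g2
        · rw [Function.update_of_ne hka]; exact h2 k
      · intro k hk
        rw [Finset.mem_insert, not_or] at hk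
        rw [Function.update_of_ne hk.1]
        exact h3 k hk.2
      · intro i j hij
        rcases eq_or_ne i a with rfl | hia
        · rw [Function.update_self, Function.update_of_ne (Ne.symm hij)]
          exact hEaE j
        · rcases eq_or_ne j a with rfl | hja
          · rw [Function.update_self, Function.update_of_ne hia]
            exact (hEaE i).symm
          · rw [Function.update_of_ne hia, Function.update_of_ne hja]
            exact h4 i j hij
      · intro k hk
        rw [hU]
        have e1 : R0 \ (Z ∪ Ea) = (R0 \ Z) \ Ea := sdiff_sdiff_left.symm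
        rcases eq_or_ne k a with rfl | hka
        · rw [Function.update_self, e1]; exact g3
        · rw [Function.update_of_ne hka]
          apply hanti k _ (R0 \ Z) _ _ (h5 k ((Finset.mem_insert.mp hk).resolve_left hka))
          rw [e1]
          exact Finset.sdiff_subset
  exact key s (Finset.Subset.refl _)

/-- Extending a family. -/
lemma ext_disj {W : Finset V} {C E : K → Finset V} (hC : ∀ i j, i ≠ j → Disjoint (C i) (C j))
    (hE : ∀ k, E k ⊆ Fr W C) (hEd : ∀ i j, i ≠ j → Disjoint (E i) (E j)) :
    ∀ i j, i ≠ j → Disjoint (C i ∪ E i) (C j ∪ E j) := by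
  intro i j hij
  have h1 : ∀ i j, Disjoint (E i) (C j) := by
    intro i j
    rw [Finset.disjoint_left]
    intro v hv
    exact (mem_Fr.mp (hE i hv)).2 j
  rw [Finset.disjoint_union_left, Finset.disjoint_union_right, Finset.disjoint_union_right]
  exact ⟨⟨hC i j hij, (h1 j i).symm⟩, h1 i j, hEd i j hij⟩

lemma ext_W {W : Finset V} {C E : K → Finset V} (hC : ∀ k, Disjoint (C k) W)
    (hE : ∀ k, E k ⊆ Fr W C) : ∀ k, Disjoint (C k ∪ E k) W := by
  intro k
  rw [Finset.disjoint_union_left]
  refine ⟨hC k, ?_⟩
  rw [Finset.disjoint_left]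
  intro v hv
  exact (mem_Fr.mp (hE k hv)).1

lemma Fr_ext {W : Finset V} {C E : K → Finset V} :
    Fr W (fun k => C k ∪ E k) = Fr W C \ univ.biUnion E := by
  ext v
  simp only [mem_Fr, Finset.mem_sdiff, Finset.mem_biUnion, Finset.mem_univ, true_and,
    not_exists, Finset.mem_union, not_or]
  constructor
  · rintro ⟨h1, h2⟩
    exact ⟨⟨h1, fun k => (h2 k).1⟩, fun k => (h2 k).2⟩
  · rintro ⟨⟨h1, h2⟩, h3⟩
    exact ⟨h1, fun k => ⟨h2 k, h3 k⟩⟩

/-! ### Segments of tracks -/

/-- An initial segment. -/
def seg (τ : V → V) (b : V) (c : ℕ) : Finset V := (Finset.range c).image (fun i => τ^[i] b)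

section

variable {r : V → V → Prop} {A B : Finset V} {τ : V → V} {N : ℕ} {X Y : V → ℕ}

lemma mem_seg {b v : V} {c : ℕ} : v ∈ seg τ b c ↔ ∃ i < c, τ^[i] b = v := by
  simp only [seg, Finset.mem_image, Finset.mem_range]

lemma seg_sub {b : V} {c : ℕ} (hc : c ≤ tend A τ b + 1) : seg τ b c ⊆ track A τ b := by
  intro v hv
  obtain ⟨i, hi, rfl⟩ := mem_seg.mp hv
  exact mem_track.mpr ⟨i, by omega, rfl⟩

lemma card_seg (hτ : IsStep r A B τ) {b : V} (hb : b ∈ B) {c : ℕ}
    (hc : c ≤ tend A τ b + 1) : (seg τ b c).card = c := by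
  unfold seg
  rw [Finset.card_image_of_injOn, Finset.card_range]
  intro i hi j hj hij
  rw [Finset.coe_range, Set.mem_Iio] at hi hj
  exact hτ.track_inj hb (by omega) (by omega) hij

lemma strong_seg (hT : IsTournament r) (hτ : IsStep r A B τ) (hP : Pot r A B τ N X Y) {b : V}
    (hb : b ∈ B) {c : ℕ} (h3 : 3 ≤ c) (hc : c ≤ tend A τ b + 1) : Strong r (seg τ b c) := by
  unfold seg
  apply strong_of_seq (fun i => τ^[i] b) c h3
  · intro i hi
    exact hτ.track_arc hb (by omega)
  · intro i hi
    exact hP.track_back hT hτ hb (by omega)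

lemma track_Um (hτ : IsStep r A B τ) {b : V} (hb : b ∈ B) {v : V}
    (hv : v ∈ track A τ b) : v ∉ Um A B τ := by
  intro hU
  rw [mem_Um] at hU
  obtain ⟨i, hi, rfl⟩ := mem_track.mp hv
  have h1 : i < tend A τ b := by
    rcases Nat.lt_or_ge i (tend A τ b) with h | h
    · exact h
    · have : i = tend A τ b := by omega
      subst this
      exact absurd (hτ.tend_spec hb).1 hU.1
  have h2 : τ^[i + 1] b = τ^[i] b := by
    rw [Function.iterate_succ_apply']; exact hU.2.2
  have := hτ.track_inj hb (by omega) (by omega) h2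
  omega

lemma tend_pos (hτ : IsStep r A B τ) (hAB : Disjoint A B) {b : V} (hb : b ∈ B) :
    1 ≤ tend A τ b := by
  by_contra h
  have h0 : tend A τ b = 0 := by omega
  have h1 := (hτ.tend_spec hb).1
  rw [h0] at h1
  exact Finset.disjoint_left.mp hAB h1 hb

lemma Lo_track (hτ : IsStep r A B τ) (hP : Pot r A B τ N X Y) {b : V} (hb : b ∈ B)
    {C : Finset V} (hC : C ⊆ track A τ b) : (Lo A B Y C).card ≤ 6 := by
  apply hP.track_low hτ hb
  intro v hv
  rw [mem_Lo] at hv
  exact ⟨hC hv.1, hv.2.1, hv.2.2.1, hv.2.2.2⟩

lemma Hi_track (hτ : IsStep r A B τ) (hP : Pot r A B τ N X Y) {b : V} (hb : b ∈ B)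
    {C : Finset V} (hC : C ⊆ track A τ b) : (Lo B A (fun v => N - X v) C).card ≤ 6 := by
  apply hP.track_high hτ hb
  intro v hv
  rw [mem_Lo] at hv
  exact ⟨hC hv.1, hv.2.2.1, hv.2.1, by have := hv.2.2.2; omega⟩

end

/-! ### Constants -/

/-- Number of halving steps of an ordinary class. -/
def kh (t : ℕ) : ℕ := 4 * (t * (t + 1))

/-- Bound for the number of extreme vertices outside. -/
def kf (t w : ℕ) : ℕ := w + t * (8 + 4 * kh t)

/-- Bound for one-sided vertices. -/
def kk (t w : ℕ) : ℕ := 3 * (4 * t + kf t w)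

/-- Bound for two-sided absorption. -/
def ku (t w : ℕ) : ℕ := 2 * kk t w

/-- Reserve of a class. -/
def kr (t w : ℕ) : ℕ := 2 * ku t w + 4 * kh t + 4

/-- Number of reserved vertices. -/
def kd (t w : ℕ) : ℕ := t * kr t w + 3 * ku t w + 3

/-- Minimal size of a large class. -/
def kL (t w : ℕ) : ℕ := kr t w + kd t w + w + 4 * t + 20

/-- Bound used when there are few levels. -/
def kq (t w : ℕ) : ℕ :=
  w + t * (2 * (3 * (3 * t + kf t w) + (w + 2 * t) + 2 * t + 4) + 2) + 2 * t

/-- Closing the short cores. -/
lemma stage_close {r : V → V → Prop} {A B : Finset V} {τ : V → V} {t w N : ℕ} {X Y : V → ℕ}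
    (h : Env r A B t N X Y) (hτ : IsStep r A B τ) (hP : Pot r A B τ N X Y)
    (hAB : Disjoint A B)
    (hF : ∀ l, t ≤ l → l + t + 1 ≤ N → ∃ v ∈ Um A B τ, Y v = l)
    (hK : Fintype.card K ≤ t) {W : Finset V} (hWc : W.card ≤ w)
    {β : K → V} (hβB : ∀ k, β k ∈ B)
    {C0 : K → Finset V} (hC0 : ∀ k, C0 k ⊆ track A τ (β k))
    (hs : ∀ k, tend A τ (β k) ≠ 1 → Strong r (C0 k))
    (hs1 : ∀ k, tend A τ (β k) = 1 → C0 k = {τ (β k), β k})
    (hn1 : 10 * kq t w + 28 * t < Fintype.card V) :
    ∃ E1 : K → Finset V, (∀ k, E1 k ⊆ Fr W C0) ∧ (∀ k, (E1 k).card ≤ 2) ∧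
      (∀ i j, i ≠ j → Disjoint (E1 i) (E1 j)) ∧ ∀ k, Strong r (C0 k ∪ E1 k) := by
  classical
  set s1 : Finset K := univ.filter (fun k => tend A τ (β k) = 1) with hs1def
  have hms : ∀ k, k ∈ s1 ↔ tend A τ (β k) = 1 := by intro k; simp [hs1def]
  have hs1c : s1.card ≤ t := (Finset.card_le_univ _).trans hK
  obtain ⟨E, h1, h2, h3, h4, h5⟩ := seq_extend s1 (Fr W C0) 2
    (fun k E _ => Strong r (C0 k ∪ E)) (fun k E R R' _ h => h) (by
      intro k hk Z hZ hZc
      rw [hms] at hk
      have hb := hβB k
      have hZc' : Z.card ≤ 2 * t := hZc.trans (Nat.mul_le_mul_left _ hs1c)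
      have hC0k := hs1 k hk
      have haA : τ (β k) ∈ A := by
        have := (hτ.tend_spec hb).1
        rw [hk] at this
        simpa using this
      have harc : r (β k) (τ (β k)) := by
        have := hτ.track_arc hb (i := 0) (by omega)
        simpa using this
      have hYX : Y (τ (β k)) = X (β k) := by
        have := hP.track_step hτ hb (j := 0) (by omega)
        simpa using this
      have hout : univ \ (Fr W C0 \ Z) ⊆ W ∪ (univ.biUnion C0 ∪ Z) := by
        intro v hv
        simp only [Finset.mem_sdiff, Finset.mem_univ, true_and, mem_Fr, not_and, not_not,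
          Finset.mem_union, Finset.mem_biUnion] at hv ⊢
        by_cases hvW : v ∈ W
        · exact Or.inl hvW
        · right
          by_cases hvC : ∃ k, v ∈ C0 k
          · exact Or.inl hvC
          · push Not at hvC
            exact Or.inr (hv ⟨hvW, hvC⟩)
      have hlo : (Lo A B Y (univ \ (Fr W C0 \ Z))).card ≤ kf t w := by
        have g1 := Finset.card_le_card (Lo_mono (A := A) (B := B) (Y := Y) hout)
        have g2 := card_Lo_union (A := A) (B := B) (Y := Y) (Q := W) (Q' := univ.biUnion C0 ∪ Z)
        have g3 := card_Lo_union (A := A) (B := B) (Y := Y) (Q := univ.biUnion C0) (Q' := Z)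
        have g4 := card_Lo_le (A := A) (B := B) (Y := Y) (Q := W)
        have g5 := card_Lo_le (A := A) (B := B) (Y := Y) (Q := Z)
        have g6 := card_Lo_biUnion (A := A) (B := B) (Y := Y) (univ : Finset K) C0 6
          (fun k _ => Lo_track hτ hP (hβB k) (hC0 k))
        rw [Finset.card_univ] at g6
        have g7 : Fintype.card K * 6 ≤ t * 6 := Nat.mul_le_mul_right _ hK
        have g8 : t * 8 ≤ t * (8 + 4 * kh t) := Nat.mul_le_mul_left _ (by omega)
        unfold kf
        omega
      have hhi : (Lo B A (fun v => N - X v) (univ \ (Fr W C0 \ Z))).card ≤ kf t w := by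
        have g1 := Finset.card_le_card
          (Lo_mono (A := B) (B := A) (Y := fun v => N - X v) hout)
        have g2 := card_Lo_union (A := B) (B := A) (Y := fun v => N - X v) (Q := W)
          (Q' := univ.biUnion C0 ∪ Z)
        have g3 := card_Lo_union (A := B) (B := A) (Y := fun v => N - X v)
          (Q := univ.biUnion C0) (Q' := Z)
        have g4 := card_Lo_le (A := B) (B := A) (Y := fun v => N - X v) (Q := W)
        have g5 := card_Lo_le (A := B) (B := A) (Y := fun v => N - X v) (Q := Z)
        have g6 := card_Lo_biUnion (A := B) (B := A) (Y := fun v => N - X v)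
          (univ : Finset K) C0 6 (fun k _ => Hi_track hτ hP (hβB k) (hC0 k))
        rw [Finset.card_univ] at g6
        have g7 : Fintype.card K * 6 ≤ t * 6 := Nat.mul_le_mul_right _ hK
        have g8 : t * 8 ≤ t * (8 + 4 * kh t) := Nat.mul_le_mul_left _ (by omega)
        unfold kf
        omega
      have hab : ({τ (β k), β k} : Finset V) ⊆ C0 k := by rw [hC0k]
      have haR : τ (β k) ∉ Fr W C0 \ Z := by
        intro hh
        exact (mem_Fr.mp (Finset.mem_sdiff.mp hh).1).2 k (hab (by simp))
      have hbR : β k ∉ Fr W C0 \ Z := by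
        intro hh
        exact (mem_Fr.mp (Finset.mem_sdiff.mp hh).1).2 k (hab (by simp))
      obtain ⟨E, e1, e2, e3⟩ := h.closing hAB (R := Fr W C0 \ Z) (U := Um A B τ)
        (f := kf t w) (g0 := w + 2 * t) (q0 := kq t w) haA hb harc haR hbR hYX (by
          intro l hl1 hl2
          obtain ⟨v, hv, hv2⟩ := hF l hl1 hl2
          have hv' := mem_Um.mp hv
          exact ⟨v, hv, hv'.1, hv'.2.1, hv2, by rw [hP.fix v hv'.1 hv'.2.2, hv2]⟩) (by
          have g1 : Um A B τ \ (Fr W C0 \ Z) ⊆ W ∪ Z := by
            intro v hv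
            rw [Finset.mem_sdiff] at hv
            have g2 := hout (Finset.mem_sdiff.mpr ⟨Finset.mem_univ v, hv.2⟩)
            simp only [Finset.mem_union, Finset.mem_biUnion, Finset.mem_univ, true_and] at g2 ⊢
            rcases g2 with g2 | ⟨k', g2⟩ | g2
            · exact Or.inl g2
            · exact absurd hv.1 (track_Um hτ (hβB k') (hC0 k' g2))
            · exact Or.inr g2
          have g2 := (Finset.card_le_card g1).trans (Finset.card_union_le _ _)
          omega) hlo hhi (by
          intro hN
          have g1 := (Finset.card_le_card hout).trans (Finset.card_union_le _ _)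
          have g2 := Finset.card_union_le (univ.biUnion C0) Z
          have g3 : (univ.biUnion C0).card ≤ t * (N + 2) := by
            have g4 := Finset.card_biUnion_le_card_mul (univ : Finset K) C0 (N + 2) (by
              intro k _
              have g5 := Finset.card_le_card (hC0 k)
              have g6 := card_track_le (A := A) (τ := τ) (b := β k)
              have g7 := hP.tend_le hτ (hβB k)
              omega)
            rw [Finset.card_univ] at g4
            exact g4.trans (Nat.mul_le_mul_right _ hK)
          have g4 : t * (N + 2) ≤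
              t * (2 * (3 * (3 * t + kf t w) + (w + 2 * t) + 2 * t + 4) + 2) :=
            Nat.mul_le_mul_left _ (by omega)
          unfold kq
          omega) hn1
      exact ⟨E, e1, e2, by rw [hC0k]; exact e3⟩)
  refine ⟨E, h1, h2, h4, ?_⟩
  intro k
  by_cases hk : k ∈ s1
  · exact h5 k hk
  · rw [h3 k hk, Finset.union_empty]
    exact hs k (fun e => hk ((hms k).mpr e))

end H990
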