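import Pool.Agent.H990_Full.Cascade

/-! A directed version of the Gyori-Lovasz theorem. -/

namespace H990.DGL

open Finset

set_option linter.unusedSectionVars false

variable {V : Type*} [DecidableEq V] [Fintype V] {k : ℕ}
variable {E : V → V → Prop} {z : Fin k → V} {X : Finset V}

lemma exists_max_nat {P : ℕ → Prop} (B : ℕ) (hB : ∀ m, P m → m ≤ B) (hex : ∃ m, P m) :
    ∃ m, P m ∧ ∀ m', P m' → m' ≤ m := by
  classical
  obtain ⟨m0, hm0⟩ := hex
  refine ⟨Nat.findGreatest P B, Nat.findGreatest_spec (hB m0 hm0) hm0, ?_⟩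
  intro m' hm'
  exact Nat.le_findGreatest (hB m' hm') hm'

open Classical in
/-- One more vertex can be given to any class. -/
lemma dgl_step (hzX : ∀ i, z i ∉ X)
    (hexp : ∀ X' ⊆ X, X'.Nonempty →
      k ≤ (((X ∪ Finset.univ.image z) \ X').filter (fun v => ∃ u ∈ X', E u v)).card)
    {n : Fin k → ℕ} {G : Fin k → Finset V} (hG : Cfg E z X G) (hn : ∀ i, (G i).card = n i)
    (i0 : Fin k) {h : V} (hh : h ∈ X) (hhG : ∀ i, h ∉ G i) :
    ∃ G' : Fin k → Finset V, Cfg E z X G' ∧ (G' i0).card = n i0 + 1 ∧
      ∀ i, i ≠ i0 → (G' i).card = n i := by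
  by_contra hno
  set K := G i0 with hKdef
  set L := Fintype.card V with hL
  have hbound : ∀ m, (∃ G' c', Cfg E z X G' ∧ (∀ i, (G' i).card = n i) ∧ G' i0 = K ∧
      Casc E z K i0 G' c' ∧ val E z G' (Fintype.card V + 2) L c' = m) →
      m ≤ (Fintype.card V + 2) ^ L := by
    rintro m ⟨G', c', h1, h2, h3, h4, rfl⟩
    have h5 := Casc.length_le c' h4
    have h6 := val_inv (E := E) (z := z) (G := G') (L := L) [] c' (by simpa using h5)
    simp only [List.append_nil, val, zero_add, List.length_nil, Nat.sub_zero] at h6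
    omega
  obtain ⟨m, ⟨G1, c, hC, hS, hK, hc, hval⟩, hmax⟩ := exists_max_nat _ hbound
    ⟨_, G, [], hG, hn, rfl, trivial, rfl⟩
  -- leftover vertices: by cardinality there is one
  have hsum : ∀ G' : Fin k → Finset V, Cfg E z X G' →
      (Finset.univ.biUnion G').card = ∑ i, (G' i).card := by
    intro G' hG'
    exact Finset.card_biUnion (fun i _ j _ hij => hG'.disj i j hij)
  obtain ⟨g, hgX, hg⟩ : ∃ g ∈ X, ∀ i, g ∉ G1 i := by
    by_contra hcon
    push Not at hcon
    have h1 : X ∪ Finset.univ.image z ⊆ Finset.univ.biUnion G1 := by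
      intro v hv
      rcases Finset.mem_union.mp hv with hv | hv
      · obtain ⟨i, hi⟩ := hcon v hv
        exact Finset.mem_biUnion.mpr ⟨i, Finset.mem_univ i, hi⟩
      · obtain ⟨i, _, rfl⟩ := Finset.mem_image.mp hv
        exact Finset.mem_biUnion.mpr ⟨i, Finset.mem_univ i, hC.root i⟩
    have h2 : Finset.univ.biUnion G ⊆ (X ∪ Finset.univ.image z).erase h := by
      intro v hv
      obtain ⟨i, _, hi⟩ := Finset.mem_biUnion.mp hv
      refine Finset.mem_erase.mpr ⟨fun e => hhG i (e ▸ hi), ?_⟩
      rcases Finset.mem_insert.mp (hG.sub i hi) with rfl | h3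
      · exact Finset.mem_union_right _ (Finset.mem_image_of_mem z (Finset.mem_univ i))
      · exact Finset.mem_union_left _ h3
    have h3 := Finset.card_le_card h1
    have h4 := Finset.card_le_card h2
    rw [hsum G1 hC] at h3
    rw [hsum G hG] at h4
    have h5 : ∑ i, (G1 i).card = ∑ i, (G i).card := by
      apply Finset.sum_congr rfl
      intro i _
      rw [hS i, hn i]
    have h6 : h ∈ X ∪ Finset.univ.image z := Finset.mem_union_left _ hh
    have h7 := Finset.card_erase_lt_of_mem h6
    omega
  have hnoK : ∀ u ∈ X, (∀ i, u ∉ G1 i) → ∀ x ∈ K, ¬ E u x := by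
    intro u huX hu x hx hE
    apply hno
    refine ⟨Function.update G1 i0 (insert u K), ⟨?_, ?_, ?_, ?_⟩, ?_, ?_⟩
    · intro j
      rcases eq_or_ne j i0 with rfl | hj
      · rw [Function.update_self]
        exact Finset.mem_insert_of_mem (hG.root j)
      · rw [Function.update_of_ne hj]; exact hC.root j
    · intro j
      rcases eq_or_ne j i0 with rfl | hj
      · rw [Function.update_self]
        have h1 : ∀ v ∈ K, Rch E (insert u K) v (z j) := by
          intro v hv
          exact (hG.conn j v hv).mono (Finset.subset_insert _ _)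
        intro v hv
        rcases Finset.mem_insert.mp hv with rfl | hv
        · exact Rch.head hE (Finset.mem_insert_self _ _) (Finset.mem_insert_of_mem hx)
            (h1 x hx)
        · exact h1 v hv
      · rw [Function.update_of_ne hj]; exact hC.conn j
    · intro j j' hjj
      rcases eq_or_ne j i0 with rfl | hj
      · rw [Function.update_self, Function.update_of_ne (Ne.symm hjj),
          Finset.disjoint_insert_left]
        exact ⟨hu j', by rw [← hK]; exact hC.disj j j' hjj⟩
      · rcases eq_or_ne j' i0 with rfl | hj'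
        · rw [Function.update_self, Function.update_of_ne hj, Finset.disjoint_insert_right]
          exact ⟨hu j, by rw [← hK]; exact hC.disj j j' hjj⟩
        · rw [Function.update_of_ne hj, Function.update_of_ne hj']
          exact hC.disj j j' hjj
    · intro j
      rcases eq_or_ne j i0 with rfl | hj
      · rw [Function.update_self]
        exact Finset.insert_subset (Finset.mem_insert_of_mem huX) (hG.sub j)
      · rw [Function.update_of_ne hj]; exact hC.sub j
    · rw [Function.update_self, Finset.card_insert_of_notMem]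
      · rw [hn i0]
      · rw [← hK]; exact hu i0
    · intro j hj
      rw [Function.update_of_ne hj]; exact hS j
  have hnoR : ∀ u ∈ X, (∀ i, u ∉ G1 i) → ∀ p ∈ c, ∀ x ∈ RR E z G1 p, ¬ E u x := by
    intro u huX hu p hp x hx
    obtain ⟨ca, cb, hcab⟩ := List.append_of_mem hp
    have hlen : (ca ++ p :: cb).length ≤ L := by rw [← hcab]; exact Casc.length_le c hc
    have h3 : Casc E z K i0 G1 (p :: cb) := by
      rw [hcab] at hc
      exact Casc.suffix ca _ hc
    have h4 : Opt E z X K i0 n L G1 (p :: cb) := by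
      intro G3 c3 g1 g2 g3 g4
      have g5 := hmax _ ⟨G3, c3, g1, g2, g3, g4, rfl⟩
      rw [← hval, hcab] at g5
      have g6 := val_inv (E := E) (z := z) (G := G1) (L := L) (p :: cb) ca hlen
      have g7 : 0 < (Fintype.card V + 2) ^ (L - (ca ++ p :: cb).length) :=
        Nat.pow_pos (by omega)
      omega
    exact claimA le_rfl hzX hno cb.length G1 hC hS hK p cb le_rfl h3 h4 u huX hu x hx
  set X' : Finset V := X.filter (fun u => u ∉ K ∧ (∀ p ∈ c, u ∉ RR E z G1 p) ∧
    ∀ p ∈ c, u ≠ p.2) with hX'
  have hX'sub : X' ⊆ X := Finset.filter_subset _ _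
  have hgX' : g ∈ X' := by
    rw [hX', Finset.mem_filter]
    refine ⟨hgX, by rw [← hK]; exact hg i0, ?_, ?_⟩
    · intro p _ h1
      exact hg p.1 (Rset_subset h1)
    · intro p hp h1
      exact hg p.1 (h1 ▸ (Casc.mem c hc p hp).2.1)
  set σ : Fin k → V := fun i =>
    if hq : ∃ p, (i, p) ∈ c ∧ p ∉ K ∧ ∀ q ∈ c, p ∉ RR E z G1 q then hq.choose else z i with hσ
  have hkey : ((X ∪ Finset.univ.image z) \ X').filter (fun v => ∃ u ∈ X', E u v) ⊆
      (Finset.univ.erase i0).image σ := by
    intro v hv
    rw [Finset.mem_filter, Finset.mem_sdiff, Finset.mem_union] at hv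
    obtain ⟨⟨hv1, hv2⟩, u, hu, hE⟩ := hv
    rw [hX', Finset.mem_filter] at hu
    obtain ⟨huX, huK, huR, hum⟩ := hu
    by_cases hA : v ∈ K ∨ ∃ p ∈ c, v ∈ RR E z G1 p
    · exfalso
      by_cases hul : ∀ i, u ∉ G1 i
      · rcases hA with hA | ⟨p, hp, hA⟩
        · exact hnoK u huX hul v hA hE
        · exact hnoR u huX hul p hp v hA hE
      · push Not at hul
        obtain ⟨i, hi⟩ := hul
        have hii0 : i ≠ i0 := by
          rintro rfl
          exact huK (hK ▸ hi)
        have huz : u ≠ z i := fun e => hzX i (e ▸ huX)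
        have hc' : Casc E z K i0 G1 ((i, u) :: c) :=
          ⟨hc, hii0, hi, huz, fun p hp => ⟨huR p hp, hum p hp⟩, v, hE, hA⟩
        have h1 := hmax _ ⟨G1, (i, u) :: c, hC, hS, hK, hc', rfl⟩
        have h2 : val E z G1 (Fintype.card V + 2) L ((i, u) :: c) =
          val E z G1 (Fintype.card V + 2) L c +
          ((RR E z G1 (i, u)).card + 1) * (Fintype.card V + 2) ^ (L - 1 - c.length) := rfl
        have h3 : 0 < ((RR E z G1 (i, u)).card + 1) *
            (Fintype.card V + 2) ^ (L - 1 - c.length) :=
          Nat.mul_pos (by omega) (Nat.pow_pos (by omega))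
        omega
    · push Not at hA
      obtain ⟨hvK, hvR⟩ := hA
      have hroot : ∀ j, v = z j → v ∈ (Finset.univ.erase i0).image σ := by
        intro j hj
        have hj0 : j ≠ i0 := by
          rintro rfl
          exact hvK (hj ▸ hG.root j)
        refine Finset.mem_image.mpr ⟨j, Finset.mem_erase.mpr ⟨hj0, Finset.mem_univ j⟩, ?_⟩
        have hnq : ¬ ∃ p, (j, p) ∈ c ∧ p ∉ K ∧ ∀ q ∈ c, p ∉ RR E z G1 q := by
          rintro ⟨p, hp, _⟩
          have h1 := Casc.mem c hc (j, p) hp
          exact hvR (j, p) hp (hj ▸ root_mem_Rset (hC.root j) h1.2.2)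
        rw [hσ]
        simp only [dif_neg hnq]
        exact hj.symm
      rcases hv1 with hv1 | hv1
      · -- marked vertex
        have hmk : ∃ p ∈ c, v = p.2 := by
          by_contra hcon
          push Not at hcon
          exact hv2 (by rw [hX', Finset.mem_filter]; exact ⟨hv1, hvK, hvR, hcon⟩)
        obtain ⟨⟨i, p⟩, hp, rfl⟩ := hmk
        have h1 := Casc.mem c hc (i, v) hp
        refine Finset.mem_image.mpr ⟨i, Finset.mem_erase.mpr ⟨h1.1, Finset.mem_univ i⟩, ?_⟩
        have hq : ∃ p, (i, p) ∈ c ∧ p ∉ K ∧ ∀ q ∈ c, p ∉ RR E z G1 q :=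
          ⟨v, hp, hvK, hvR⟩
        rw [hσ]
        simp only [dif_pos hq]
        obtain ⟨g1, g2, g3⟩ := hq.choose_spec
        by_contra hne
        have h2 := Casc.mem c hc (i, hq.choose) g1
        apply g3 (i, v) hp
        have h4 := hvR (i, hq.choose) g1
        exact dominate (hC.conn i) h2.2.1 h2.2.2 h1.2.2 (Ne.symm hne) h4
      · obtain ⟨j, _, hj⟩ := Finset.mem_image.mp hv1
        exact hroot j hj.symm
  have h1 := hexp X' hX'sub ⟨g, hgX'⟩
  have h2 := Finset.card_le_card hkey
  have h3 := Finset.card_image_le (s := Finset.univ.erase i0) (f := σ)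
  rw [Finset.card_erase_of_mem (Finset.mem_univ i0), Finset.card_univ, Fintype.card_fin] at h3
  have h4 : 0 < k := Fin.pos i0
  omega

open Classical in
/-- Directed Gyori-Lovasz. -/
theorem dgl (hzX : ∀ i, z i ∉ X) (hzinj : Function.Injective z)
    (hexp : ∀ X' ⊆ X, X'.Nonempty →
      k ≤ (((X ∪ Finset.univ.image z) \ X').filter (fun v => ∃ u ∈ X', E u v)).card)
    (l : Fin k → ℕ) (hl : ∑ i, l i = X.card) :
    ∃ S : Fin k → Finset V, (∀ i, (S i).card = l i) ∧ (∀ i, S i ⊆ X) ∧
      (∀ i j, i ≠ j → Disjoint (S i) (S j)) ∧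
      ∀ i, ∀ u ∈ S i, Rch E (insert (z i) (S i)) u (z i) := by
  have hmain : ∀ m : ℕ, ∀ l : Fin k → ℕ, ∑ i, l i = m → m ≤ X.card →
      ∃ G : Fin k → Finset V, Cfg E z X G ∧ ∀ i, (G i).card = l i + 1 := by
    intro m
    induction m with
    | zero =>
      intro l hl _
      have hl0 : ∀ i, l i = 0 := by
        intro i
        exact (Finset.sum_eq_zero_iff.mp hl) i (Finset.mem_univ i)
      refine ⟨fun i => {z i}, ⟨?_, ?_, ?_, ?_⟩, ?_⟩
      · intro i; exact Finset.mem_singleton_self _
      · intro i u hu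
        rw [Finset.mem_singleton] at hu
        subst hu
        exact Rch.refl _
      · intro i j hij
        rw [Finset.disjoint_singleton]
        exact fun e => hij (hzinj e)
      · intro i
        rw [Finset.singleton_subset_iff]
        exact Finset.mem_insert_self _ _
      · intro i
        rw [hl0 i, Finset.card_singleton]
    | succ m ih =>
      intro l hl hm
      obtain ⟨i0, hi0⟩ : ∃ i0, 0 < l i0 := by
        by_contra hcon
        push Not at hcon
        have : ∑ i, l i = 0 := Finset.sum_eq_zero (fun i _ => Nat.le_zero.mp (hcon i))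
        omega
      set l' : Fin k → ℕ := Function.update l i0 (l i0 - 1) with hl'
      have hl's : ∑ i, l' i = m := by
        have h1 : ∑ i, l' i = ∑ i ∈ Finset.univ.erase i0, l' i + l' i0 :=
          (Finset.sum_erase_add _ _ (Finset.mem_univ i0)).symm
        have h2 : ∑ i, l i = ∑ i ∈ Finset.univ.erase i0, l i + l i0 :=
          (Finset.sum_erase_add _ _ (Finset.mem_univ i0)).symm
        have h3 : ∑ i ∈ Finset.univ.erase i0, l' i = ∑ i ∈ Finset.univ.erase i0, l i := by
          apply Finset.sum_congr rfl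
          intro i hi
          rw [hl', Function.update_of_ne (Finset.mem_erase.mp hi).1]
        have h4 : l' i0 = l i0 - 1 := by rw [hl', Function.update_self]
        omega
      obtain ⟨G, hG, hGc⟩ := ih l' hl's (by omega)
      obtain ⟨h, hh, hhG⟩ : ∃ h ∈ X, ∀ i, h ∉ G i := by
        by_contra hcon
        push Not at hcon
        have h1 : X ⊆ Finset.univ.biUnion (fun i => (G i).erase (z i)) := by
          intro v hv
          obtain ⟨i, hi⟩ := hcon v hv
          exact Finset.mem_biUnion.mpr ⟨i, Finset.mem_univ i,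
            Finset.mem_erase.mpr ⟨fun e => hzX i (e ▸ hv), hi⟩⟩
        have h2 := Finset.card_le_card h1
        have h3 := Finset.card_biUnion_le (s := (Finset.univ : Finset (Fin k)))
          (t := fun i => (G i).erase (z i))
        have h4 : ∑ i, ((G i).erase (z i)).card = ∑ i, l' i := by
          apply Finset.sum_congr rfl
          intro i _
          rw [Finset.card_erase_of_mem (hG.root i), hGc i]
          omega
        omega
      obtain ⟨G', h1, h2, h3⟩ := dgl_step hzX hexp hG hGc i0 hh hhG
      refine ⟨G', h1, ?_⟩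
      intro i
      rcases eq_or_ne i i0 with rfl | hi
      · rw [h2, hl', Function.update_self]; omega
      · rw [h3 i hi, hl', Function.update_of_ne hi]
  obtain ⟨G, hG, hGc⟩ := hmain X.card l hl le_rfl
  refine ⟨fun i => (G i).erase (z i), ?_, ?_, ?_, ?_⟩
  · intro i
    rw [Finset.card_erase_of_mem (hG.root i), hGc i]
    omega
  · intro i v hv
    rw [Finset.mem_erase] at hv
    rcases Finset.mem_insert.mp (hG.sub i hv.2) with h1 | h1
    · exact absurd h1 hv.1
    · exact h1
  · intro i j hij
    exact Finset.disjoint_of_subset_left (Finset.erase_subset _ _)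
      (Finset.disjoint_of_subset_right (Finset.erase_subset _ _) (hG.disj i j hij))
  · intro i u hu
    rw [Finset.mem_erase] at hu
    have h1 := hG.conn i u hu.2
    rwa [Finset.insert_erase (hG.root i)]

end H990.DGL
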