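import Pool.Agent.H990_Full.Assemble
import Pool.Agent.H990_Song.Lower

/-! The upper bound for all prescribed lengths. -/

namespace H990

open Finset

set_option linter.unusedSectionVars false

/-- The next scale. -/
def nextM (t M : ℕ) : ℕ := kL t (t * M) + M

/-- The scales. -/
def scale (t : ℕ) (j : ℕ) : ℕ := (nextM t)^[j] 3

lemma scale_succ (t j : ℕ) : scale t (j + 1) = nextM t (scale t j) := by
  unfold scale
  rw [Function.iterate_succ_apply']

lemma scale_mono (t : ℕ) {i j : ℕ} (h : i ≤ j) : scale t i ≤ scale t j := by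
  induction j, h using Nat.le_induction with
  | base => exact le_rfl
  | succ j _ ih =>
    rw [scale_succ]
    unfold nextM
    omega

lemma three_le_scale (t j : ℕ) : 3 ≤ scale t j := by
  have h := scale_mono t (Nat.zero_le j)
  have h0 : scale t 0 = 3 := rfl
  omega

/-- One of the `t + 1` gaps contains no length. -/
lemma exists_gap (t : ℕ) (l : Fin t → ℕ) :
    ∃ j ≤ t, ∀ i, l i ≤ scale t j ∨ scale t (j + 1) < l i := by
  by_contra hcon
  push Not at hcon
  have h1 : ∀ j : Fin (t + 1), ∃ i, scale t j.val < l i ∧ l i ≤ scale t (j.val + 1) :=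
    fun j => hcon j.val (by omega)
  choose f hf1 hf2 using h1
  have hinj : Function.Injective f := by
    intro j j' hjj
    by_contra hne
    rcases Nat.lt_or_gt_of_ne (fun e => hne (Fin.ext e)) with h | h
    · have h2 := scale_mono t (show j.val + 1 ≤ j'.val from h)
      have h3 := hf2 j
      have h4 := hf1 j'
      rw [hjj] at h3
      omega
    · have h2 := scale_mono t (show j'.val + 1 ≤ j.val from h)
      have h3 := hf2 j'
      have h4 := hf1 j
      rw [hjj] at h4
      omega
  have h2 := Fintype.card_le_of_injective f hinj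
  simp only [Fintype.card_fin] at h2
  omega

/-- The threshold order. -/
def kN (t : ℕ) : ℕ := ∑ j ∈ Finset.range (t + 1), kn t (scale t j)

variable {V : Type*} [DecidableEq V] [Fintype V]

/-- Partition into strong sets of prescribed sizes. -/
theorem full_strong {r : V → V → Prop} (hT : IsTournament r) {t : ℕ} (ht : 1 ≤ t)
    (hk : Kc r t) (l : Fin t → ℕ) (hl3 : ∀ i, 3 ≤ l i) (hsum : ∑ i, l i = Fintype.card V)
    (hn : kN t ≤ Fintype.card V) :
    ∃ F : Fin t → Finset V, (∀ i, Strong r (F i)) ∧ (∀ i, (F i).card = l i) ∧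
      ∀ i j, i ≠ j → Disjoint (F i) (F j) := by
  obtain ⟨j, hj, hgap⟩ := exists_gap t l
  have h1 : kn t (scale t j) ≤ kN t := by
    unfold kN
    exact Finset.single_le_sum (f := fun j => kn t (scale t j)) (fun i _ => Nat.zero_le _)
      (Finset.mem_range.mpr (by omega))
  apply assemble hT ht (three_le_scale t j) hk l hl3 hsum _ (h1.trans hn)
  intro i
  rcases hgap i with h | h
  · exact Or.inl h
  · right
    rw [scale_succ] at h
    unfold nextM at h
    omega

/-- The upper bound. -/
theorem full_upper {r : V → V → Prop} (hT : IsTournament r) {t : ℕ} (ht : 1 ≤ t)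
    (hk : KConnected r t) (l : Fin t → ℕ) (hl3 : ∀ i, 3 ≤ l i)
    (hsum : ∑ i, l i = Fintype.card V) (hn : kN t ≤ Fintype.card V) :
    HasDisjointCycles r l := by
  classical
  obtain ⟨F, h1, h2, h3⟩ := full_strong hT ht hk.kc l hl3 hsum hn
  have h4 : ∀ i, ∃ c : ZMod (l i) → V, Function.Injective c ∧ (∀ s, r (c s) (c (s + 1))) ∧
      ∀ s, c s ∈ F i := by
    intro i
    obtain ⟨L, hL1, hL2, hL3, hL4⟩ := exists_cyc hT (h1 i) (hl3 i) (h2 i).ge
    obtain ⟨c, hc1, hc2, hc3⟩ := cyc_to_fun hL1 hL2 (hl3 i) hL3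
    exact ⟨c, hc1, hc2, fun s => hL4 _ (hc3 s)⟩
  choose c hc1 hc2 hc3 using h4
  refine ⟨c, hc2, ?_⟩
  rintro ⟨i, s⟩ ⟨i', s'⟩ h
  simp only at h
  by_cases hii : i = i'
  · subst hii
    have := hc1 i h
    rw [this]
  · exfalso
    exact Finset.disjoint_left.mp (h3 i i' hii) (hc3 i s) (h ▸ hc3 i' s')

end H990
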