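import Pool.Agent.H990_Full.Halve

/-! The giant core with a reserved set, and closing two-vertex tracks. -/

namespace H990

open Finset

set_option linter.unusedSectionVars false

variable {V : Type*} [DecidableEq V] [Fintype V]
variable {r : V → V → Prop} {A B : Finset V} {t N : ℕ} {X Y : V → ℕ}

/-- One side of the giant core, when no reserved vertex is one-sided. -/
lemma Env.giant_side0 (h : Env r A B t N X Y) {C R Q D : Finset V} {f J : ℕ} {b : V} (hb : b ∈ B)
    (hbC : b ∈ C) (hCR : Disjoint C R) (hcov : ∀ v, v ∈ C ∨ v ∈ R ∨ v ∈ Q)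
    (hf : (Lo A B Y Q).card ≤ f) (hC : Strong r C) (hD : ∀ d ∈ D, 6 ≤ Y d)
    (hJ : R.card < 2 ^ J) (hDY : ∀ d ∈ D, d ∉ Yp r C R) :
    ∃ E : Finset V, E ⊆ R \ D ∧ E.card ≤ 2 * J ∧ Strong r (C ∪ E) ∧
      (Yp r (C ∪ E) (R \ E)).card ≤ 3 * (4 * t + f) := by
  classical
  obtain ⟨E, h1, h2, h3, h4⟩ := h.halve (C := C) (R := R \ D) (Q := Q ∪ D) (f := f) hb hbC
    (Finset.disjoint_of_subset_right Finset.sdiff_subset hCR) (by
      intro v
      rcases hcov v with k | k | k
      · exact Or.inl k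
      · by_cases hv : v ∈ D
        · exact Or.inr (Or.inr (Finset.mem_union_right _ hv))
        · exact Or.inr (Or.inl (Finset.mem_sdiff.mpr ⟨k, hv⟩))
      · exact Or.inr (Or.inr (Finset.mem_union_left _ k))) (by
      have h5 := card_Lo_union (A := A) (B := B) (Y := Y) (Q := Q) (Q' := D)
      have h6 := Lo_high (A := A) (B := B) (Y := Y) (Q := D) hD
      omega) hC J
  refine ⟨E, h1, h2, h3, ?_⟩
  have heq : Yp r (C ∪ E) (R \ E) ⊆ Yp r (C ∪ E) ((R \ D) \ E) := by
    intro v hv
    have hv' := hv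
    rw [mem_Yp, Finset.mem_sdiff] at hv
    rw [mem_Yp, Finset.mem_sdiff, Finset.mem_sdiff]
    refine ⟨⟨⟨hv.1.1, ?_⟩, hv.1.2⟩, hv.2⟩
    intro hvD
    apply hDY v hvD
    rw [mem_Yp]
    exact ⟨hv.1.1, fun c hc => hv.2 c (Finset.mem_union_left _ hc)⟩
  have hc := Finset.card_le_card heq
  rcases h4 with h4 | h4
  · omega
  · have h5 : (R \ D).card ≤ R.card := Finset.card_le_card Finset.sdiff_subset
    have h6 : 2 ^ J * (Yp r (C ∪ E) ((R \ D) \ E)).card < 2 ^ J * (6 * t + 1) := by
      have : 2 ^ J * (6 * t + 1) = 2 ^ J * (6 * t) + 2 ^ J := by ring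
      omega
    have h7 := Nat.lt_of_mul_lt_mul_left h6
    omega

/-- One side of the giant core. -/
lemma Env.giant_side (h : Env r A B t N X Y) {C R Q D : Finset V} {f J : ℕ} {b : V} (hb : b ∈ B)
    (hbC : b ∈ C) (hCR : Disjoint C R) (hcov : ∀ v, v ∈ C ∨ v ∈ R ∨ v ∈ Q)
    (hf : (Lo A B Y Q).card ≤ f) (hC : Strong r C)
    (hD : ∀ d ∈ D, d ∉ A ∧ d ∉ B ∧ 6 ≤ Y d) (hJ : R.card < 2 ^ J) :
    ∃ E : Finset V, E ⊆ R ∧ E.card ≤ 2 * J + 2 ∧ (E ∩ D).card ≤ 1 ∧ Strong r (C ∪ E) ∧
      (Yp r (C ∪ E) (R \ E)).card ≤ 3 * (4 * t + f) := by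
  classical
  by_cases hDY : ∀ d ∈ D, d ∉ Yp r C R
  · obtain ⟨E, h1, h2, h3, h4⟩ := h.giant_side0 hb hbC hCR hcov hf hC
      (fun d hd => (hD d hd).2.2) hJ hDY
    refine ⟨E, h1.trans Finset.sdiff_subset, by omega, ?_, h3, h4⟩
    have : E ∩ D = ∅ := by
      apply Finset.eq_empty_of_forall_notMem
      intro v hv
      rw [Finset.mem_inter] at hv
      exact (Finset.mem_sdiff.mp (h1 hv.1)).2 hv.2
    rw [this]; simp
  · push Not at hDY
    obtain ⟨d, hdD, hdY⟩ := hDY
    obtain ⟨hdA, hdB, hd6⟩ := hD d hdD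
    have hdR := (mem_Yp.mp hdY).1
    have hdC := (mem_Yp.mp hdY).2
    by_cases hlow : ∃ w ∈ R, w ∉ A ∧ w ∉ B ∧ X w ≤ 3 ∧ r w b
    · obtain ⟨w, hwR, hwA, hwB, hwX, hwb⟩ := hlow
      have hwY : Y w + 1 ≤ X w := h.lev.dia w hwA hwB
      have hdom : ∀ d' ∈ D, r d' w := by
        intro d' hd'
        obtain ⟨k1, k2, k3⟩ := hD d' hd'
        have hne : w ≠ d' := by
          rintro rfl
          omega
        apply h.tour.of_not hne
        intro hr
        have := h.lev.arc w d' hwA k2 hr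
        omega
      have hdw := hdom d hdD
      have hCs : Strong r (insert d (insert w C)) :=
        strong_insert_pair hC ⟨b, hbC, hdC b hbC⟩ hdw ⟨b, hbC, hwb⟩
      have hsub : insert d {w} ⊆ R :=
        Finset.insert_subset hdR (Finset.singleton_subset_iff.mpr hwR)
      set P : Finset V := insert d {w} with hP
      have heq : C ∪ P = insert d (insert w C) := by
        rw [hP, Finset.union_insert, Finset.union_comm C {w}]
        rfl
      obtain ⟨E, h1, h2, h3, h4⟩ := h.giant_side0 (C := C ∪ P) (R := R \ P) (Q := Q)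
        (D := D.erase d) (J := J) hb (Finset.mem_union_left _ hbC) (by
          rw [Finset.disjoint_union_left]
          exact ⟨Finset.disjoint_of_subset_right Finset.sdiff_subset hCR,
            Finset.disjoint_sdiff⟩)
        (by
          intro v
          rcases hcov v with k1 | k1 | k1
          · exact Or.inl (Finset.mem_union_left _ k1)
          · by_cases k2 : v ∈ P
            · exact Or.inl (Finset.mem_union_right _ k2)
            · exact Or.inr (Or.inl (Finset.mem_sdiff.mpr ⟨k1, k2⟩))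
          · exact Or.inr (Or.inr k1)) hf (by rw [heq]; exact hCs)
        (fun d' hd' => (hD d' (Finset.mem_of_mem_erase hd')).2.2)
        (lt_of_le_of_lt (Finset.card_le_card Finset.sdiff_subset) hJ)
        (by
          intro d' hd' hY
          have k1 := (mem_Yp.mp hY).2 w (by
            rw [heq]; exact Finset.mem_insert_of_mem (Finset.mem_insert_self _ _))
          exact h.tour.2.2 _ _ k1 (hdom d' (Finset.mem_of_mem_erase hd')))
      have e1 : C ∪ P ∪ E = C ∪ (P ∪ E) := Finset.union_assoc _ _ _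
      have e2 : (R \ P) \ E = R \ (P ∪ E) := sdiff_sdiff_left
      rw [e1, e2] at h4
      rw [e1] at h3
      refine ⟨P ∪ E, ?_, ?_, ?_, h3, h4⟩
      · exact Finset.union_subset hsub (h1.trans (Finset.sdiff_subset.trans Finset.sdiff_subset))
      · have k1 := Finset.card_union_le P E
        have k2 : P.card ≤ 2 := Finset.card_le_two
        omega
      · have k1 : (P ∪ E) ∩ D ⊆ {d} := by
          intro v hv
          rw [Finset.mem_inter, Finset.mem_union] at hv
          rw [Finset.mem_singleton]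
          by_contra hne
          rcases hv.1 with k | k
          · rw [hP, Finset.mem_insert, Finset.mem_singleton] at k
            rcases k with k | k
            · exact hne k
            · subst k
              have := (hD v hv.2).2.2
              omega
          · exact (Finset.mem_sdiff.mp (h1 k)).2 (Finset.mem_erase.mpr ⟨hne, hv.2⟩)
        exact (Finset.card_le_card k1).trans (by simp)
    · push Not at hlow
      have hG := h.lemmaG (R := R) (f := f + t) hb (by
        intro Z hZ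
        have h1 : Z ⊆ Lo A B Y Q ∪ Jump A B X Y 4 := by
          intro q hq
          obtain ⟨h2, h3, h4, h5⟩ := hZ q hq
          rcases hcov q with h6 | h6 | h6
          · apply Finset.mem_union_right
            rw [mem_Jump]
            have h7 := h.lev.arc q d h3 hdB (hdC q h6)
            exact ⟨h3, h4, by omega, by omega⟩
          · exact absurd h6 h2
          · apply Finset.mem_union_left
            rw [mem_Lo]
            exact ⟨h6, h3, h4, by omega⟩
        have h2 := (Finset.card_le_card h1).trans (Finset.card_union_le _ _)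
        have h3 := h.lev.jump 4
        omega) (by
        intro w hwR hwA hwB hwX
        have h1 : w ≠ b := by
          rintro rfl
          exact hwB hb
        exact h.tour.of_not h1 (hlow w hwR hwA hwB hwX))
      refine ⟨∅, by simp, by simp, by simp, by simpa using hC, ?_⟩
      have h1 : Yp r (C ∪ ∅) (R \ ∅) ⊆ Nout r b := by
        intro v hv
        rw [mem_Yp] at hv
        exact mem_Nout.mpr (hv.2 b (Finset.mem_union_left _ hbC))
      have h2 := Finset.card_le_card h1
      omega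

/-- Both sides of the giant core. -/
lemma Env.giant (h : Env r A B t N X Y) {C R Q D : Finset V} {f J : ℕ} {a b : V} (ha : a ∈ A)
    (haC : a ∈ C) (hb : b ∈ B)
    (hbC : b ∈ C) (hCR : Disjoint C R) (hcov : ∀ v, v ∈ C ∨ v ∈ R ∨ v ∈ Q)
    (hf : (Lo A B Y Q).card ≤ f) (hf' : (Lo B A (fun v => N - X v) Q).card ≤ f)
    (hC : Strong r C)
    (hD : ∀ d ∈ D, d ∉ A ∧ d ∉ B ∧ 6 ≤ Y d ∧ X d + 6 ≤ N) (hJ : R.card < 2 ^ J) :
    ∃ E : Finset V, E ⊆ R ∧ E.card ≤ 4 * J + 4 ∧ (E ∩ D).card ≤ 2 ∧ Strong r (C ∪ E) ∧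
      (Yp r (C ∪ E) (R \ E)).card ≤ 3 * (4 * t + f) ∧
      (Yp (H990.rev r) (C ∪ E) (R \ E)).card ≤ 3 * (4 * t + f) := by
  classical
  obtain ⟨E1, h1, h2, h2', h3, h4⟩ := h.giant_side hb hbC hCR hcov hf hC
    (fun d hd => ⟨(hD d hd).1, (hD d hd).2.1, (hD d hd).2.2.1⟩) hJ
  obtain ⟨E2, g1, g2, g2', g3, g4⟩ := h.rev.giant_side (C := C ∪ E1) (R := R \ E1) (Q := Q)
    (f := f) (D := D) (J := J) ha
    (Finset.mem_union_left _ haC) (by
      rw [Finset.disjoint_union_left]
      exact ⟨Finset.disjoint_of_subset_right Finset.sdiff_subset hCR, Finset.disjoint_sdiff⟩)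
    (by
      intro v
      rcases hcov v with k1 | k1 | k1
      · exact Or.inl (Finset.mem_union_left _ k1)
      · by_cases k2 : v ∈ E1
        · exact Or.inl (Finset.mem_union_right _ k2)
        · exact Or.inr (Or.inl (Finset.mem_sdiff.mpr ⟨k1, k2⟩))
      · exact Or.inr (Or.inr k1)) hf' h3.rev
    (fun d hd => ⟨(hD d hd).2.1, (hD d hd).1, by have := (hD d hd).2.2.2; omega⟩)
    (lt_of_le_of_lt (Finset.card_le_card Finset.sdiff_subset) hJ)
  have e1 : C ∪ E1 ∪ E2 = C ∪ (E1 ∪ E2) := Finset.union_assoc _ _ _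
  have e2 : (R \ E1) \ E2 = R \ (E1 ∪ E2) := sdiff_sdiff_left
  rw [e1, e2] at g4
  rw [e1] at g3
  have hmono : Yp r (C ∪ (E1 ∪ E2)) (R \ (E1 ∪ E2)) ⊆ Yp r (C ∪ E1) (R \ E1) := by
    apply Yp_mono
    · rw [← e1]; exact Finset.subset_union_left
    · rw [← e2]; exact Finset.sdiff_subset
  have hmc := Finset.card_le_card hmono
  refine ⟨E1 ∪ E2, ?_, ?_, ?_, ?_, ?_, g4⟩
  · exact Finset.union_subset h1 (g1.trans Finset.sdiff_subset)
  · have := Finset.card_union_le E1 E2
    omega
  · have k1 : (E1 ∪ E2) ∩ D ⊆ (E1 ∩ D) ∪ (E2 ∩ D) := by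
      rw [Finset.union_inter_distrib_right]
    have k2 := (Finset.card_le_card k1).trans (Finset.card_union_le _ _)
    omega
  · have := g3.rev
    rwa [rev_rev] at this
  · omega

/-! ### Closing a track with two vertices -/

/-- One side: a triangle through a two-vertex track starting at a high level. -/
lemma Env.closing_side (h : Env r A B t N X Y) (hAB : Disjoint A B) {R U : Finset V} {f g0 : ℕ}
    {a b : V}
    (ha : a ∈ A) (hb : b ∈ B) (haR : a ∉ R) (hbR : b ∉ R) (hYX : Y a = X b)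
    (hU : ∀ l, t ≤ l → l + t + 1 ≤ N → ∃ v ∈ U, v ∉ A ∧ v ∉ B ∧ Y v = l ∧ X v = l + 1)
    (hg0 : (U \ R).card ≤ g0) (hf : (Lo A B Y (univ \ R)).card ≤ f)
    (hl0 : 3 * (3 * t + f) + g0 + t + 4 ≤ X b)
    (hN : 3 * (3 * t + f) + g0 + 2 * t + 4 ≤ N) :
    ∃ d ∈ R, r a d ∧ r d b := by
  classical
  by_contra hcon
  push Not at hcon
  have haB : a ∉ B := Finset.disjoint_left.mp hAB ha
  have hkey : ∀ w ∈ R, w ∉ A → w ∉ B → X w < X b → r b w := by
    intro w hwR hwA hwB hwX
    have h1 : w ≠ a := fun e => haR (e ▸ hwR)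
    have h2 : w ≠ b := fun e => hbR (e ▸ hwR)
    have h3 : r a w := by
      apply h.tour.of_not h1
      intro hr
      have := h.lev.arc w a hwA haB hr
      omega
    exact h.tour.of_not h2 (hcon w hwR h3)
  have hG := h.lemmaG (R := R) (f := f) hb (by
    intro Z hZ
    refine le_trans (Finset.card_le_card ?_) hf
    intro q hq
    obtain ⟨k1, k2, k3, k4⟩ := hZ q hq
    rw [mem_Lo, Finset.mem_sdiff]
    exact ⟨⟨Finset.mem_univ _, k1⟩, k2, k3, by omega⟩) (by
    intro w hwR hwA hwB hwX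
    exact hkey w hwR hwA hwB (by omega))
  have : Nonempty V := ⟨a⟩
  have hU' : ∀ i, i < 3 * (3 * t + f) + g0 + 1 →
      ∃ v ∈ U, v ∉ A ∧ v ∉ B ∧ Y v = t + i ∧ X v = t + i + 1 := fun i hi =>
    hU (t + i) (by omega) (by omega)
  choose! w hw1 hw2 hw3 hw4 hw5 using hU'
  set I : Finset V := (Finset.range (3 * (3 * t + f) + g0 + 1)).image w with hI
  have hIc : I.card = 3 * (3 * t + f) + g0 + 1 := by
    rw [hI, Finset.card_image_of_injOn, Finset.card_range]
    intro i hi j hj hij
    rw [Finset.mem_coe, Finset.mem_range] at hi hj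
    have h4 := hw4 i hi
    have h5 := hw4 j hj
    rw [hij] at h4
    omega
  have hIR : I ⊆ Nout r b ∪ (U \ R) := by
    intro v hv
    obtain ⟨i, hi, rfl⟩ := Finset.mem_image.mp hv
    rw [Finset.mem_range] at hi
    by_cases hvR : w i ∈ R
    · apply Finset.mem_union_left
      rw [mem_Nout]
      exact hkey _ hvR (hw2 i hi) (hw3 i hi) (by rw [hw5 i hi]; omega)
    · exact Finset.mem_union_right _ (Finset.mem_sdiff.mpr ⟨hw1 i hi, hvR⟩)
  have h1 := (Finset.card_le_card hIR).trans (Finset.card_union_le _ _)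
  omega

/-- The case of few vertices outside `R`. -/
lemma Env.closing_small (h : Env r A B t N X Y) {R : Finset V} {q0 : ℕ} {a b : V}
    (ha : a ∈ A) (hb : b ∈ B) (haR : a ∉ R) (hbR : b ∉ R)
    (hq : (univ \ R).card ≤ q0) (hn : 10 * q0 + 28 * t < Fintype.card V) :
    (∃ d ∈ R, r a d ∧ r d b) ∨ ∃ x ∈ R, ∃ w ∈ R, r a x ∧ r x w ∧ r w b := by
  classical
  by_contra hcon
  rw [not_or] at hcon
  obtain ⟨hc1, hc2⟩ := hcon
  push Not at hc1 hc2
  set Xs := R ∩ Nout r a with hXs
  set Ws := R ∩ Nout (H990.rev r) b with hWs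
  have hmX : ∀ v, v ∈ Xs ↔ v ∈ R ∧ r a v := by
    intro v; rw [hXs, Finset.mem_inter, mem_Nout]
  have hmW : ∀ v, v ∈ Ws ↔ v ∈ R ∧ r v b := by
    intro v; rw [hWs, Finset.mem_inter, mem_Nout]; rfl
  -- degree bounds
  have hdeg : ∀ (r' : V → V → Prop) (hT : IsTournament r') (c : V),
      (∀ v, v ∉ A → v ∉ B → (Nout r' c).card ≤ (Nout r' v).card) →
      2 * (Nout r' c).card ≤ Fintype.card V + 4 * t := by
    intro r' hT c hc
    have hABc : (A ∪ B).card ≤ 2 * t := by
      have := Finset.card_union_le A B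
      have := h.cA
      have := h.cB
      omega
    have hne : (univ \ (A ∪ B)).Nonempty := by
      rw [← Finset.card_pos, Finset.card_sdiff_of_subset (Finset.subset_univ _),
        Finset.card_univ]
      omega
    obtain ⟨v, hv, hsm⟩ := exists_small_out hT hne
    simp only [Finset.mem_sdiff, Finset.mem_univ, true_and, Finset.mem_union, not_or] at hv
    have h1 := hc v hv.1 hv.2
    have h2 : (Nout r' v).card ≤ (Nout r' v ∩ (univ \ (A ∪ B))).card + (A ∪ B).card := by
      refine (Finset.card_le_card ?_).trans (Finset.card_union_le _ _)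
      intro z hz
      by_cases hz2 : z ∈ A ∪ B
      · exact Finset.mem_union_right _ hz2
      · exact Finset.mem_union_left _ (Finset.mem_inter.mpr ⟨hz,
          Finset.mem_sdiff.mpr ⟨Finset.mem_univ _, hz2⟩⟩)
    have h3 : (univ \ (A ∪ B)).card ≤ Fintype.card V := Finset.card_le_univ _
    omega
  have hdb := hdeg r h.tour b (h.dB b hb)
  have hda := hdeg (H990.rev r) h.tour.rev a (h.dA a ha)
  have hRc : R.card + q0 ≥ Fintype.card V := by
    have := Finset.card_sdiff_add_card_eq_card (Finset.subset_univ R)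
    rw [Finset.card_univ] at this
    omega
  have hWc : R.card ≤ Ws.card + (Nout r b).card := by
    refine (Finset.card_le_card ?_).trans (Finset.card_union_le _ _)
    intro v hv
    by_cases h1 : r b v
    · exact Finset.mem_union_right _ (mem_Nout.mpr h1)
    · refine Finset.mem_union_left _ ((hmW v).mpr ⟨hv, h.tour.of_not ?_ h1⟩)
      rintro rfl
      exact hbR hv
  have hXc : R.card ≤ Xs.card + (Nout (H990.rev r) a).card := by
    refine (Finset.card_le_card ?_).trans (Finset.card_union_le _ _)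
    intro v hv
    by_cases h1 : r v a
    · exact Finset.mem_union_right _ (mem_Nout.mpr h1)
    · refine Finset.mem_union_left _ ((hmX v).mpr ⟨hv, h.tour.of_not ?_ h1⟩)
      rintro rfl
      exact haR hv
  have hXW : Disjoint Xs Ws := by
    rw [Finset.disjoint_left]
    intro v hv hv'
    exact hc1 v ((hmX v).mp hv).1 ((hmX v).mp hv).2 ((hmW v).mp hv').2
  have hout : (univ \ (Xs ∪ Ws)).card + (Xs.card + Ws.card) = Fintype.card V := by
    rw [← Finset.card_union_of_disjoint hXW, Finset.card_sdiff_add_card_eq_card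
      (Finset.subset_univ _), Finset.card_univ]
  have hABc : (A ∪ B).card ≤ 2 * t := by
    have := Finset.card_union_le A B
    have := h.cA
    have := h.cB
    omega
  have hSne : (Xs \ (A ∪ B)).Nonempty := by
    rw [← Finset.card_pos]
    have h1 : Xs.card ≤ (Xs \ (A ∪ B)).card + (A ∪ B).card := by
      refine (Finset.card_le_card ?_).trans (Finset.card_union_le _ _)
      intro z hz
      by_cases hz2 : z ∈ A ∪ B
      · exact Finset.mem_union_right _ hz2
      · exact Finset.mem_union_left _ (Finset.mem_sdiff.mpr ⟨hz, hz2⟩)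
    omega
  obtain ⟨x, hx, hsm⟩ := exists_small_out h.tour hSne
  rw [Finset.mem_sdiff, Finset.mem_union, not_or] at hx
  have hdx := h.dB b hb x hx.2.1 hx.2.2
  have hXb : Xs ⊆ Nout r b := by
    intro v hv
    rw [mem_Nout]
    have h1 := (hmX v).mp hv
    apply h.tour.of_not
    · rintro rfl
      exact hbR h1.1
    · exact hc1 v h1.1 h1.2
  have hXbc := Finset.card_le_card hXb
  have hNx : Nout r x ⊆ (Nout r x ∩ (Xs \ (A ∪ B))) ∪ ((A ∪ B) ∪ (univ \ (Xs ∪ Ws))) := by
    intro z hz
    have hr := mem_Nout.mp hz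
    by_cases hz2 : z ∈ A ∪ B
    · exact Finset.mem_union_right _ (Finset.mem_union_left _ hz2)
    by_cases hz3 : z ∈ Xs
    · exact Finset.mem_union_left _ (Finset.mem_inter.mpr ⟨hz,
        Finset.mem_sdiff.mpr ⟨hz3, hz2⟩⟩)
    by_cases hz4 : z ∈ Ws
    · exfalso
      have h1 := (hmX x).mp hx.1
      have h2 := (hmW z).mp hz4
      exact hc2 x h1.1 z h2.1 h1.2 hr h2.2
    · apply Finset.mem_union_right
      apply Finset.mem_union_right
      rw [Finset.mem_sdiff, Finset.mem_union, not_or]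
      exact ⟨Finset.mem_univ _, hz3, hz4⟩
  have h1 := (Finset.card_le_card hNx).trans (Finset.card_union_le _ _)
  have h2 := Finset.card_union_le (A ∪ B) (univ \ (Xs ∪ Ws))
  have h3 : (Xs \ (A ∪ B)).card ≤ Xs.card := Finset.card_le_card Finset.sdiff_subset
  omega

/-- A triangle is strong. -/
lemma strong_three {r : V → V → Prop} {a b d : V} (h1 : r b a) (h2 : r a d) (h3 : r d b) :
    Strong r ({a, b} ∪ {d}) := by
  have h4 : Strong r ([b, a, d] : List V).toFinset := by
    apply cyc_strong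
    refine ⟨by simp [h1, h2], fun _ => ?_⟩
    simpa using h3
  have h5 : ([b, a, d] : List V).toFinset = ({a, b} ∪ {d} : Finset V) := by
    ext v
    simp
    tauto
  rwa [h5] at h4

/-- A four-cycle is strong. -/
lemma strong_four {r : V → V → Prop} {a b x w : V} (h1 : r b a) (h2 : r a x) (h3 : r x w)
    (h4 : r w b) : Strong r ({a, b} ∪ {x, w}) := by
  have h5 : Strong r ([b, a, x, w] : List V).toFinset := by
    apply cyc_strong
    refine ⟨by simp [h1, h2, h3], fun _ => ?_⟩
    simpa using h4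
  have h6 : ([b, a, x, w] : List V).toFinset = ({a, b} ∪ {x, w} : Finset V) := by
    ext v
    simp
    tauto
  rwa [h6] at h5

/-- The closing lemma. -/
lemma Env.closing (h : Env r A B t N X Y) (hAB : Disjoint A B) {R U : Finset V} {f g0 q0 : ℕ}
    {a b : V}
    (ha : a ∈ A) (hb : b ∈ B) (hba : r b a) (haR : a ∉ R) (hbR : b ∉ R) (hYX : Y a = X b)
    (hU : ∀ l, t ≤ l → l + t + 1 ≤ N → ∃ v ∈ U, v ∉ A ∧ v ∉ B ∧ Y v = l ∧ X v = l + 1)
    (hg0 : (U \ R).card ≤ g0) (hf : (Lo A B Y (univ \ R)).card ≤ f)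
    (hf' : (Lo B A (fun v => N - X v) (univ \ R)).card ≤ f)
    (hq : N < 2 * (3 * (3 * t + f) + g0 + 2 * t + 4) → (univ \ R).card ≤ q0)
    (hn : 10 * q0 + 28 * t < Fintype.card V) :
    ∃ E : Finset V, E ⊆ R ∧ E.card ≤ 2 ∧ Strong r ({a, b} ∪ E) := by
  classical
  have tri : (∃ d ∈ R, r a d ∧ r d b) →
      ∃ E : Finset V, E ⊆ R ∧ E.card ≤ 2 ∧ Strong r ({a, b} ∪ E) := by
    rintro ⟨d, hd, h1, h2⟩
    exact ⟨{d}, Finset.singleton_subset_iff.mpr hd, by simp, strong_three hba h1 h2⟩
  by_cases hN : N < 2 * (3 * (3 * t + f) + g0 + 2 * t + 4)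
  · rcases h.closing_small ha hb haR hbR (hq hN) hn with h1 | ⟨x, hx, w, hw, h1, h2, h3⟩
    · exact tri h1
    · refine ⟨{x, w}, ?_, Finset.card_le_two, strong_four hba h1 h2 h3⟩
      exact Finset.insert_subset hx (Finset.singleton_subset_iff.mpr hw)
  · apply tri
    by_cases hX : 3 * (3 * t + f) + g0 + t + 4 ≤ X b
    · exact h.closing_side hAB ha hb haR hbR hYX hU hg0 hf hX (by omega)
    · have hYN := h.lev.yN a
      obtain ⟨d, hd, h1, h2⟩ := h.rev.closing_side hAB.symm (R := R) (U := U) (f := f)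
        (g0 := g0) (a := b) (b := a) hb ha hbR haR (by
          show N - X b = N - Y a
          rw [hYX]) (by
          intro l hl1 hl2
          obtain ⟨v, k1, k2, k3, k4, k5⟩ := hU (N - 1 - l) (by omega) (by omega)
          exact ⟨v, k1, k3, k2, by omega, by omega⟩) hg0 hf' (by
          show 3 * (3 * t + f) + g0 + t + 4 ≤ N - Y a
          omega) (by omega)
      exact ⟨d, hd, h2, h1⟩

end H990
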