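import Pool.Agent.H990_Full.Lev

/-! Growing a strong core until few vertices are one-sided to it. -/

namespace H990

open Finset

set_option linter.unusedSectionVars false

variable {V : Type*} [DecidableEq V] [Fintype V]

/-! ### Adding vertices to strong sets -/

lemma strong_insert {r : V → V → Prop} {C : Finset V} (hC : Strong r C) {u : V}
    (h1 : ∃ c ∈ C, r c u) (h2 : ∃ c ∈ C, r u c) : Strong r (insert u C) := by
  apply strong_of_closed
  intro Z hZ hne hcl
  have h3 : ∀ z ∈ Z ∩ C, ∀ y ∈ C, r z y → y ∈ Z ∩ C := by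
    intro z hz y hy hr
    rw [Finset.mem_inter] at hz ⊢
    exact ⟨hcl z hz.1 y (Finset.mem_insert_of_mem hy) hr, hy⟩
  have hne' : (Z ∩ C).Nonempty := by
    obtain ⟨z, hz⟩ := hne
    rcases Finset.mem_insert.mp (hZ hz) with rfl | h
    · obtain ⟨c, hc, hr⟩ := h2
      exact ⟨c, Finset.mem_inter.mpr ⟨hcl _ hz c (Finset.mem_insert_of_mem hc) hr, hc⟩⟩
    · exact ⟨z, Finset.mem_inter.mpr ⟨hz, h⟩⟩
  have h4 := hC.closed Finset.inter_subset_right hne' h3
  have h5 : C ⊆ Z := by
    intro c hc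
    rw [← h4] at hc
    exact (Finset.mem_inter.mp hc).1
  obtain ⟨c, hc, hr⟩ := h1
  apply Finset.Subset.antisymm hZ
  exact Finset.insert_subset (hcl c (h5 hc) u (Finset.mem_insert_self _ _) hr) h5

lemma strong_insert_pair {r : V → V → Prop} {C : Finset V} (hC : Strong r C) {u w : V}
    (h1 : ∃ c ∈ C, r c u) (huw : r u w) (h2 : ∃ c ∈ C, r w c) :
    Strong r (insert u (insert w C)) := by
  apply strong_of_closed
  intro Z hZ hne hcl
  have hu : u ∈ insert u (insert w C) := Finset.mem_insert_self _ _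
  have hw : w ∈ insert u (insert w C) := Finset.mem_insert_of_mem (Finset.mem_insert_self _ _)
  have hCs : ∀ c ∈ C, c ∈ insert u (insert w C) := fun c hc =>
    Finset.mem_insert_of_mem (Finset.mem_insert_of_mem hc)
  have h3 : ∀ z ∈ Z ∩ C, ∀ y ∈ C, r z y → y ∈ Z ∩ C := by
    intro z hz y hy hr
    rw [Finset.mem_inter] at hz ⊢
    exact ⟨hcl z hz.1 y (hCs y hy) hr, hy⟩
  have hne' : (Z ∩ C).Nonempty := by
    obtain ⟨c, hc, hr⟩ := h2
    have h4 : w ∈ Z → (Z ∩ C).Nonempty := fun h =>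
      ⟨c, Finset.mem_inter.mpr ⟨hcl w h c (hCs c hc) hr, hc⟩⟩
    obtain ⟨z, hz⟩ := hne
    rcases Finset.mem_insert.mp (hZ hz) with rfl | h
    · exact h4 (hcl _ hz w hw huw)
    · rcases Finset.mem_insert.mp h with rfl | h
      · exact h4 hz
      · exact ⟨z, Finset.mem_inter.mpr ⟨hz, h⟩⟩
  have h4 := hC.closed Finset.inter_subset_right hne' h3
  have h5 : C ⊆ Z := by
    intro c hc
    rw [← h4] at hc
    exact (Finset.mem_inter.mp hc).1
  obtain ⟨c, hc, hr⟩ := h1
  have h6 : u ∈ Z := hcl c (h5 hc) u hu hr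
  have h7 : w ∈ Z := hcl u h6 w hw huw
  apply Finset.Subset.antisymm hZ
  exact Finset.insert_subset h6 (Finset.insert_subset h7 h5)

/-- Mixed vertices may be added freely. -/
lemma strong_union_mixed {r : V → V → Prop} {C : Finset V} (hC : Strong r C) (E : Finset V)
    (h : ∀ u ∈ E, (∃ c ∈ C, r c u) ∧ ∃ c ∈ C, r u c) : Strong r (C ∪ E) := by
  induction E using Finset.induction_on with
  | empty => simpa using hC
  | insert u E _ ih =>
    have h1 := ih (fun v hv => h v (Finset.mem_insert_of_mem hv))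
    obtain ⟨⟨c, hc, hr⟩, c', hc', hr'⟩ := h u (Finset.mem_insert_self _ _)
    rw [Finset.union_insert]
    exact strong_insert h1 ⟨c, Finset.mem_union_left _ hc, hr⟩
      ⟨c', Finset.mem_union_left _ hc', hr'⟩

/-! ### One-sided vertices -/

open Classical in
/-- The vertices of `R` dominated by `C`. -/
noncomputable def Yp (r : V → V → Prop) (C R : Finset V) : Finset V :=
  R.filter (fun v => ∀ c ∈ C, r c v)

lemma mem_Yp {r : V → V → Prop} {C R : Finset V} {v : V} :
    v ∈ Yp r C R ↔ v ∈ R ∧ ∀ c ∈ C, r c v := by simp [Yp]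

lemma Yp_mono {r : V → V → Prop} {C C' R R' : Finset V} (hC : C ⊆ C') (hR : R' ⊆ R) :
    Yp r C' R' ⊆ Yp r C R := by
  intro v hv
  rw [mem_Yp] at hv ⊢
  exact ⟨hR hv.1, fun c hc => hv.2 c (hC hc)⟩

open Classical in
/-- Vertices of low level in `Q`. -/
noncomputable def Lo (A B : Finset V) (Y : V → ℕ) (Q : Finset V) : Finset V :=
  Q.filter (fun q => q ∉ A ∧ q ∉ B ∧ Y q ≤ 5)

lemma mem_Lo {A B : Finset V} {Y : V → ℕ} {Q : Finset V} {q : V} :
    q ∈ Lo A B Y Q ↔ q ∈ Q ∧ q ∉ A ∧ q ∉ B ∧ Y q ≤ 5 := by simp [Lo]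

lemma Lo_mono {A B : Finset V} {Y : V → ℕ} {Q Q' : Finset V} (h : Q ⊆ Q') :
    Lo A B Y Q ⊆ Lo A B Y Q' := by
  intro q hq
  rw [mem_Lo] at hq ⊢
  exact ⟨h hq.1, hq.2⟩

lemma card_Lo_union {A B : Finset V} {Y : V → ℕ} {Q Q' : Finset V} :
    (Lo A B Y (Q ∪ Q')).card ≤ (Lo A B Y Q).card + (Lo A B Y Q').card := by
  refine (Finset.card_le_card ?_).trans (Finset.card_union_le _ _)
  intro q hq
  rw [mem_Lo] at hq
  rw [Finset.mem_union, mem_Lo, mem_Lo]
  rcases Finset.mem_union.mp hq.1 with h | h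
  · exact Or.inl ⟨h, hq.2⟩
  · exact Or.inr ⟨h, hq.2⟩

lemma card_Lo_le {A B : Finset V} {Y : V → ℕ} {Q : Finset V} : (Lo A B Y Q).card ≤ Q.card := by
  apply Finset.card_le_card
  intro q hq
  exact (mem_Lo.mp hq).1

lemma Lo_high {A B : Finset V} {Y : V → ℕ} {Q : Finset V} (h : ∀ q ∈ Q, 6 ≤ Y q) :
    (Lo A B Y Q).card = 0 := by
  rw [Finset.card_eq_zero]
  apply Finset.eq_empty_of_forall_notMem
  intro q hq
  rw [mem_Lo] at hq
  have := h q hq.1
  omega

lemma card_Lo_biUnion {A B : Finset V} {Y : V → ℕ} {κ : Type*} [DecidableEq κ] (s : Finset κ)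
    (C : κ → Finset V) (f : ℕ) (h : ∀ k ∈ s, (Lo A B Y (C k)).card ≤ f) :
    (Lo A B Y (s.biUnion C)).card ≤ s.card * f := by
  have h1 : Lo A B Y (s.biUnion C) ⊆ s.biUnion (fun k => Lo A B Y (C k)) := by
    intro q hq
    rw [mem_Lo, Finset.mem_biUnion] at hq
    obtain ⟨⟨k, hk, hq1⟩, hq2⟩ := hq
    exact Finset.mem_biUnion.mpr ⟨k, hk, mem_Lo.mpr ⟨hq1, hq2⟩⟩
  exact (Finset.card_le_card h1).trans (Finset.card_biUnion_le_card_mul _ _ _ h)

/-- The standing assumptions on levels and degrees. -/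
structure Env (r : V → V → Prop) (A B : Finset V) (t N : ℕ) (X Y : V → ℕ) : Prop where
  tour : IsTournament r
  lev : Lev r A B t N X Y
  cA : A.card = t
  cB : B.card = t
  N1 : 1 ≤ N
  dB : ∀ b ∈ B, ∀ v, v ∉ A → v ∉ B → (Nout r b).card ≤ (Nout r v).card
  dA : ∀ a ∈ A, ∀ v, v ∉ A → v ∉ B → (Nout (rev r) a).card ≤ (Nout (rev r) v).card

lemma Env.rev {r : V → V → Prop} {A B : Finset V} {t N : ℕ} {X Y : V → ℕ}
    (h : Env r A B t N X Y) :
    Env (H990.rev r) B A t N (fun v => N - Y v) (fun v => N - X v) :=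
  ⟨h.tour.rev, h.lev.rev, h.cB, h.cA, h.N1, fun b hb v h1 h2 => h.dA b hb v h2 h1,
    fun a ha v h1 h2 => h.dB a ha v h2 h1⟩

section main

variable {r : V → V → Prop} {A B : Finset V} {t N : ℕ} {X Y : V → ℕ}

/-- Lemma G. -/
lemma Env.lemmaG (h : Env r A B t N X Y) {R : Finset V} {f : ℕ} {b : V} (hb : b ∈ B)
    (hf : ∀ Z : Finset V, (∀ q ∈ Z, q ∉ R ∧ q ∉ A ∧ q ∉ B ∧ Y q ≤ 3) → Z.card ≤ f)
    (hlow : ∀ w ∈ R, w ∉ A → w ∉ B → X w ≤ 3 → r b w) :
    (Nout r b).card ≤ 3 * (3 * t + f) := by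
  classical
  set Zf : Finset V := univ.filter (fun q => q ∉ R ∧ q ∉ A ∧ q ∉ B ∧ Y q ≤ 3) with hZf
  have hZfc : Zf.card ≤ f := hf Zf (fun q hq => (Finset.mem_filter.mp hq).2)
  set G : ℕ → Finset V := fun l => R.filter (fun w => w ∉ A ∧ w ∉ B ∧ X w ≤ l) with hG
  have hmG : ∀ l w, w ∈ G l ↔ w ∈ R ∧ w ∉ A ∧ w ∉ B ∧ X w ≤ l := by
    intro l w; rw [hG, Finset.mem_filter]
  -- out-neighbourhoods of low vertices
  have hout : ∀ l ≤ 2, ∀ v, v ∉ A → X v ≤ l →
      Nout r v ⊆ ((A ∪ B) ∪ (Zf ∪ Jump A B X Y (l + 1))) ∪ (Nout r v ∩ G (l + 1)) := by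
    intro l hl v hvA hvX z hz
    have hr := mem_Nout.mp hz
    by_cases hzA : z ∈ A
    · exact Finset.mem_union_left _ (Finset.mem_union_left _ (Finset.mem_union_left _ hzA))
    by_cases hzB : z ∈ B
    · exact Finset.mem_union_left _ (Finset.mem_union_left _ (Finset.mem_union_right _ hzB))
    have h1 := h.lev.arc v z hvA hzB hr
    by_cases hzR : z ∈ R
    · by_cases hX : X z ≤ l + 1
      · exact Finset.mem_union_right _ (Finset.mem_inter.mpr ⟨hz, (hmG _ _).mpr
          ⟨hzR, hzA, hzB, hX⟩⟩)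
      · apply Finset.mem_union_left
        apply Finset.mem_union_right
        apply Finset.mem_union_right
        rw [mem_Jump]
        exact ⟨hzA, hzB, by omega, by omega⟩
    · apply Finset.mem_union_left
      apply Finset.mem_union_right
      apply Finset.mem_union_left
      rw [hZf, Finset.mem_filter]
      exact ⟨Finset.mem_univ _, hzR, hzA, hzB, by omega⟩
  have hcard : ∀ l ≤ 2, ∀ v, v ∉ A → X v ≤ l →
      (Nout r v).card ≤ 3 * t + f + (Nout r v ∩ G (l + 1)).card := by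
    intro l hl v hvA hvX
    have h1 := (Finset.card_le_card (hout l hl v hvA hvX)).trans (Finset.card_union_le _ _)
    have h2 := Finset.card_union_le (A ∪ B) (Zf ∪ Jump A B X Y (l + 1))
    have h3 := Finset.card_union_le A B
    have h4 := Finset.card_union_le Zf (Jump A B X Y (l + 1))
    have h5 := h.lev.jump (l + 1)
    have h6 := h.cA
    have h7 := h.cB
    omega
  have hG3 : G 3 ⊆ Nout r b := by
    intro w hw
    obtain ⟨h1, h2, h3, h4⟩ := (hmG _ _).mp hw
    exact mem_Nout.mpr (hlow w h1 h2 h3 h4)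
  have hG23 : G 2 ⊆ G 3 := by
    intro w hw
    obtain ⟨h1, h2, h3, h4⟩ := (hmG _ _).mp hw
    exact (hmG _ _).mpr ⟨h1, h2, h3, by omega⟩
  have hG2 : (G 2).card ≤ 2 * (3 * t + f) := by
    rcases (G 2).eq_empty_or_nonempty with he | hne
    · rw [he]; simp
    · obtain ⟨w, hw, hsm⟩ := exists_small_out h.tour hne
      obtain ⟨hwR, hwA, hwB, hwX⟩ := (hmG _ _).mp hw
      have h1 := hcard 2 le_rfl w hwA hwX
      have h2 := h.dB b hb w hwA hwB
      have h3 := Finset.card_le_card hG3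
      have h4 : (Nout r w ∩ G 3).card ≤ (Nout r w ∩ G 2).card + (G 3 \ G 2).card := by
        refine (Finset.card_le_card ?_).trans (Finset.card_union_le _ _)
        intro z hz
        rw [Finset.mem_inter] at hz
        by_cases hz2 : z ∈ G 2
        · exact Finset.mem_union_left _ (Finset.mem_inter.mpr ⟨hz.1, hz2⟩)
        · exact Finset.mem_union_right _ (Finset.mem_sdiff.mpr ⟨hz.2, hz2⟩)
      have h5 : (G 3 \ G 2).card + (G 2).card = (G 3).card :=
        Finset.card_sdiff_add_card_eq_card hG23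
      have h6 : 2 + 1 = 3 := rfl
      rw [h6] at h1
      omega
  obtain ⟨v0, hv1, hv2, hv3, hv4⟩ := h.lev.occ 0 (by have := h.N1; omega)
  have h1 := hcard 1 (by norm_num) v0 hv1 (by omega)
  have h2 := h.dB b hb v0 hv1 hv2
  have h3 : (Nout r v0 ∩ G (1 + 1)).card ≤ (G 2).card :=
    Finset.card_le_card Finset.inter_subset_right
  omega

/-- Lemma H. -/
lemma Env.lemmaH (h : Env r A B t N X Y) {C R Q : Finset V} {f : ℕ} {b : V} (hb : b ∈ B)
    (hbC : b ∈ C) (hcov : ∀ v, v ∈ C ∨ v ∈ R ∨ v ∈ Q) (hf : (Lo A B Y Q).card ≤ f)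
    (hbig : 3 * (4 * t + f) < (Yp r C R).card) :
    ∃ u ∈ Yp r C R, ∃ w ∈ R, w ∉ Yp r C R ∧ r u w ∧
      2 * (Nout r u ∩ Yp r C R).card ≤ (Yp r C R).card + 6 * t := by
  classical
  set P := Yp r C R with hP
  set S := P \ (A ∪ B ∪ Jump A B X Y 5) with hS
  have hABJ : (A ∪ B ∪ Jump A B X Y 5).card ≤ 3 * t := by
    have h1 := Finset.card_union_le (A ∪ B) (Jump A B X Y 5)
    have h2 := Finset.card_union_le A B
    have h3 := h.lev.jump 5
    have h4 := h.cA
    have h5 := h.cB
    omega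
  have hSP : P.card ≤ S.card + 3 * t := by
    have h1 : P ⊆ S ∪ (A ∪ B ∪ Jump A B X Y 5) := by
      intro v hv
      by_cases h2 : v ∈ A ∪ B ∪ Jump A B X Y 5
      · exact Finset.mem_union_right _ h2
      · exact Finset.mem_union_left _ (Finset.mem_sdiff.mpr ⟨hv, h2⟩)
    have h2 := (Finset.card_le_card h1).trans (Finset.card_union_le _ _)
    omega
  have hSne : S.Nonempty := by
    rw [← Finset.card_pos]; omega
  obtain ⟨u, hu, hsm⟩ := exists_small_out h.tour hSne
  rw [hS, Finset.mem_sdiff] at hu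
  obtain ⟨huP, huN⟩ := hu
  simp only [Finset.mem_union, not_or] at huN
  obtain ⟨⟨huA, huB⟩, huJ⟩ := huN
  have hSc : S.card ≤ P.card := Finset.card_le_card Finset.sdiff_subset
  have hNu : (Nout r u ∩ P).card ≤ (Nout r u ∩ S).card + 3 * t := by
    have h1 : Nout r u ∩ P ⊆ (Nout r u ∩ S) ∪ (A ∪ B ∪ Jump A B X Y 5) := by
      intro v hv
      rw [Finset.mem_inter] at hv
      by_cases h2 : v ∈ A ∪ B ∪ Jump A B X Y 5
      · exact Finset.mem_union_right _ h2
      · exact Finset.mem_union_left _ (Finset.mem_inter.mpr ⟨hv.1,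
          Finset.mem_sdiff.mpr ⟨hv.2, h2⟩⟩)
    have h2 := (Finset.card_le_card h1).trans (Finset.card_union_le _ _)
    omega
  have hhalf : 2 * (Nout r u ∩ P).card ≤ P.card + 6 * t := by omega
  have huC : ∀ c ∈ C, r c u := (mem_Yp.mp huP).2
  have hPb : P ⊆ Nout r b := by
    intro v hv
    exact mem_Nout.mpr ((mem_Yp.mp hv).2 b hbC)
  have hPbc := Finset.card_le_card hPb
  by_contra hcon
  push Not at hcon
  have hw : ∀ w ∈ R, r u w → w ∈ P := by
    intro w hwR hr
    by_contra hwP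
    have := hcon u huP w hwR hwP hr
    omega
  have hub := h.dB b hb u huA huB
  have hNout : Nout r u ⊆ (Nout r u ∩ P) ∪ (Nout r u ∩ Q) := by
    intro z hz
    have hr := mem_Nout.mp hz
    rcases hcov z with h1 | h1 | h1
    · exact absurd hr (h.tour.2.2 _ _ (huC z h1))
    · exact Finset.mem_union_left _ (Finset.mem_inter.mpr ⟨hz, hw z h1 hr⟩)
    · exact Finset.mem_union_right _ (Finset.mem_inter.mpr ⟨hz, h1⟩)
  have hNc := (Finset.card_le_card hNout).trans (Finset.card_union_le _ _)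
  by_cases hX : X u ≤ 5
  · have h1 : Nout r u ∩ Q ⊆ (A ∪ B) ∪ Lo A B Y Q := by
      intro z hz
      rw [Finset.mem_inter] at hz
      by_cases hzA : z ∈ A
      · exact Finset.mem_union_left _ (Finset.mem_union_left _ hzA)
      by_cases hzB : z ∈ B
      · exact Finset.mem_union_left _ (Finset.mem_union_right _ hzB)
      apply Finset.mem_union_right
      rw [mem_Lo]
      have := h.lev.arc u z huA hzB (mem_Nout.mp hz.1)
      exact ⟨hz.2, hzA, hzB, by omega⟩
    have h2 := (Finset.card_le_card h1).trans (Finset.card_union_le _ _)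
    have h3 := Finset.card_union_le A B
    have h4 := h.cA
    have h5 := h.cB
    omega
  · have hYu : 5 ≤ Y u := by
      by_contra hlt
      apply huJ
      rw [mem_Jump]
      exact ⟨huA, huB, by omega, by omega⟩
    have hG := h.lemmaG (R := R) (f := f + t) hb (by
      intro Z hZ
      have h1 : Z ⊆ Lo A B Y Q ∪ Jump A B X Y 4 := by
        intro q hq
        obtain ⟨h2, h3, h4, h5⟩ := hZ q hq
        rcases hcov q with h6 | h6 | h6
        · apply Finset.mem_union_right
          rw [mem_Jump]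
          have h7 := h.lev.arc q u h3 huB (huC q h6)
          exact ⟨h3, h4, by omega, by omega⟩
        · exact absurd h6 h2
        · apply Finset.mem_union_left
          rw [mem_Lo]
          exact ⟨h6, h3, h4, by omega⟩
      have h2 := (Finset.card_le_card h1).trans (Finset.card_union_le _ _)
      have h3 := h.lev.jump 4
      omega) (by
      intro w hwR hwA hwB hwX
      have h1 : w ≠ u := by
        rintro rfl
        omega
      have h2 : r u w := by
        apply h.tour.of_not h1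
        intro h3
        have := h.lev.arc w u hwA huB h3
        omega
      exact (mem_Yp.mp (hw w hwR h2)).2 b hbC)
    omega

/-- Iterated halving. -/
lemma Env.halve (h : Env r A B t N X Y) {C R Q : Finset V} {f : ℕ} {b : V} (hb : b ∈ B)
    (hbC : b ∈ C) (hCR : Disjoint C R) (hcov : ∀ v, v ∈ C ∨ v ∈ R ∨ v ∈ Q)
    (hf : (Lo A B Y Q).card ≤ f) (hC : Strong r C) (j : ℕ) :
    ∃ E : Finset V, E ⊆ R ∧ E.card ≤ 2 * j ∧ Strong r (C ∪ E) ∧
      ((Yp r (C ∪ E) (R \ E)).card ≤ 3 * (4 * t + f) ∨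
        2 ^ j * (Yp r (C ∪ E) (R \ E)).card ≤ R.card + 2 ^ j * (6 * t)) := by
  classical
  induction j with
  | zero =>
    refine ⟨∅, by simp, by simp, by simpa using hC, Or.inr ?_⟩
    have h1 : (Yp r (C ∪ ∅) (R \ ∅)).card ≤ R.card := by
      apply Finset.card_le_card
      intro v hv
      have := (mem_Yp.mp hv).1
      simpa using this
    simp only [pow_zero, one_mul]
    omega
  | succ j ih =>
    obtain ⟨E, hER, hEc, hES, hE⟩ := ih
    by_cases hbig : (Yp r (C ∪ E) (R \ E)).card ≤ 3 * (4 * t + f)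
    · exact ⟨E, hER, by omega, hES, Or.inl hbig⟩
    · have hE2 := hE.resolve_left hbig
      push Not at hbig
      obtain ⟨u, hu, w, hwR, hwn, huw, hhalf⟩ := h.lemmaH (C := C ∪ E) (R := R \ E) (Q := Q) hb
        (Finset.mem_union_left _ hbC) (by
          intro v
          rcases hcov v with h1 | h1 | h1
          · exact Or.inl (Finset.mem_union_left _ h1)
          · by_cases h2 : v ∈ E
            · exact Or.inl (Finset.mem_union_right _ h2)
            · exact Or.inr (Or.inl (Finset.mem_sdiff.mpr ⟨h1, h2⟩))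
          · exact Or.inr (Or.inr h1)) hf hbig
      have huR := (Finset.mem_sdiff.mp (mem_Yp.mp hu).1)
      have hwR' := Finset.mem_sdiff.mp hwR
      have heq : C ∪ insert u (insert w E) = insert u (insert w (C ∪ E)) := by
        rw [Finset.union_insert, Finset.union_insert]
      refine ⟨insert u (insert w E), ?_, ?_, ?_, Or.inr ?_⟩
      · exact Finset.insert_subset huR.1 (Finset.insert_subset hwR'.1 hER)
      · have h1 := Finset.card_insert_le u (insert w E)
        have h2 := Finset.card_insert_le w E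
        omega
      · rw [heq]
        apply strong_insert_pair hES
        · exact ⟨b, Finset.mem_union_left _ hbC, (mem_Yp.mp hu).2 b
            (Finset.mem_union_left _ hbC)⟩
        · exact huw
        · have h1 : ¬ ∀ c ∈ C ∪ E, r c w := fun h2 => hwn (mem_Yp.mpr ⟨hwR, h2⟩)
          push Not at h1
          obtain ⟨c, hc, hcw⟩ := h1
          refine ⟨c, hc, h.tour.of_not ?_ hcw⟩
          rintro rfl
          rcases Finset.mem_union.mp hc with h2 | h2
          · exact Finset.disjoint_left.mp hCR h2 hwR'.1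
          · exact hwR'.2 h2
      · have h1 : Yp r (C ∪ insert u (insert w E)) (R \ insert u (insert w E)) ⊆
            Nout r u ∩ Yp r (C ∪ E) (R \ E) := by
          intro v hv
          rw [mem_Yp] at hv
          rw [Finset.mem_inter, mem_Nout, mem_Yp]
          refine ⟨hv.2 u ?_, ?_, ?_⟩
          · rw [heq]; exact Finset.mem_insert_self _ _
          · rw [Finset.mem_sdiff] at hv ⊢
            refine ⟨hv.1.1, fun h2 => hv.1.2 ?_⟩
            exact Finset.mem_insert_of_mem (Finset.mem_insert_of_mem h2)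
          · intro c hc
            apply hv.2
            rw [heq]
            exact Finset.mem_insert_of_mem (Finset.mem_insert_of_mem hc)
        have h2 := Finset.card_le_card h1
        have h3 : 2 * (Yp r (C ∪ insert u (insert w E)) (R \ insert u (insert w E))).card ≤
            (Yp r (C ∪ E) (R \ E)).card + 6 * t := by omega
        have h4 := Nat.mul_le_mul_left (2 ^ j) h3
        rw [pow_succ]
        nlinarith [h4, hE2]

/-- Two-sided halving. -/
lemma Env.halve2 (h : Env r A B t N X Y) {C R Q : Finset V} {f : ℕ} {a b : V} (ha : a ∈ A)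
    (haC : a ∈ C) (hb : b ∈ B)
    (hbC : b ∈ C) (hCR : Disjoint C R) (hcov : ∀ v, v ∈ C ∨ v ∈ R ∨ v ∈ Q)
    (hf : (Lo A B Y Q).card ≤ f) (hf' : (Lo B A (fun v => N - X v) Q).card ≤ f)
    (hC : Strong r C) (j : ℕ) :
    ∃ E : Finset V, E ⊆ R ∧ E.card ≤ 4 * j ∧ Strong r (C ∪ E) ∧
      ((Yp r (C ∪ E) (R \ E)).card ≤ 3 * (4 * t + f) ∨
        2 ^ j * (Yp r (C ∪ E) (R \ E)).card ≤ R.card + 2 ^ j * (6 * t)) ∧
      ((Yp (H990.rev r) (C ∪ E) (R \ E)).card ≤ 3 * (4 * t + f) ∨
        2 ^ j * (Yp (H990.rev r) (C ∪ E) (R \ E)).card ≤ R.card + 2 ^ j * (6 * t)) := by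
  classical
  obtain ⟨E1, h1, h2, h3, h4⟩ := h.halve hb hbC hCR hcov hf hC j
  obtain ⟨E2, g1, g2, g3, g4⟩ := h.rev.halve (C := C ∪ E1) (R := R \ E1) (Q := Q) (f := f) ha
    (Finset.mem_union_left _ haC) (by
      rw [Finset.disjoint_union_left]
      exact ⟨Finset.disjoint_of_subset_right Finset.sdiff_subset hCR, Finset.disjoint_sdiff⟩)
    (by
      intro v
      rcases hcov v with k1 | k1 | k1
      · exact Or.inl (Finset.mem_union_left _ k1)
      · by_cases k2 : v ∈ E1
        · exact Or.inl (Finset.mem_union_right _ k2)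
        · exact Or.inr (Or.inl (Finset.mem_sdiff.mpr ⟨k1, k2⟩))
      · exact Or.inr (Or.inr k1)) hf' h3.rev j
  have e1 : C ∪ E1 ∪ E2 = C ∪ (E1 ∪ E2) := Finset.union_assoc _ _ _
  have e2 : (R \ E1) \ E2 = R \ (E1 ∪ E2) := sdiff_sdiff_left
  rw [e1, e2] at g4
  rw [e1] at g3
  have hmono : Yp r (C ∪ (E1 ∪ E2)) (R \ (E1 ∪ E2)) ⊆ Yp r (C ∪ E1) (R \ E1) := by
    apply Yp_mono
    · rw [← e1]; exact Finset.subset_union_left
    · rw [← e2]; exact Finset.sdiff_subset
  have hmc := Finset.card_le_card hmono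
  refine ⟨E1 ∪ E2, ?_, ?_, ?_, ?_, ?_⟩
  · exact Finset.union_subset h1 (g1.trans Finset.sdiff_subset)
  · have := Finset.card_union_le E1 E2
    omega
  · have := g3.rev
    rwa [rev_rev] at this
  · rcases h4 with h4 | h4
    · exact Or.inl (by omega)
    · exact Or.inr (le_trans (Nat.mul_le_mul_left _ hmc) h4)
  · rcases g4 with g4 | g4
    · exact Or.inl g4
    · refine Or.inr (g4.trans ?_)
      have := Finset.card_le_card (Finset.sdiff_subset : R \ E1 ⊆ R)
      omega

end main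

end H990
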