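import Pool.Agent.H990_Full.Cores

/-! The large classes. -/

namespace H990

open Finset

set_option linter.unusedSectionVars false

variable {V : Type*} [DecidableEq V] [Fintype V]
variable {K : Type*} [DecidableEq K] [Fintype K]

/-- Reserved vertices for a truncated class. -/
lemma exists_reserved {r : V → V → Prop} {A B : Finset V} {τ : V → V} {t N : ℕ} {X Y : V → ℕ}
    (h : Env r A B t N X Y) (hτ : IsStep r A B τ) (hP : Pot r A B τ N X Y)
    (hF : ∀ l, t ≤ l → l + t + 1 ≤ N → ∃ v ∈ Um A B τ, Y v = l) {b : V} (hb : b ∈ B)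
    {c p q : ℕ} (hc : p + q + 2 * t + 20 ≤ c) (hct : c ≤ tend A τ b) (hbA : b ∉ A)
    {R : Finset V} (hR : (Um A B τ \ R).card ≤ q) :
    ∃ D : Finset V, D ⊆ Um A B τ ∧ D ⊆ R ∧ D.card = p ∧ ∀ d ∈ D, 6 ≤ Y d ∧ X d + 6 ≤ N ∧
      (∃ x ∈ seg τ b c, r x d) ∧ ∃ x ∈ seg τ b c, r d x := by
  classical
  have hX1 : Y (τ^[1] b) = X b := by
    have := hP.track_step hτ hb (j := 0) (by omega)
    simpa using this
  have hYc := hP.track_mono hτ hb (i := 1) le_rfl (c - 2) (by omega)
  have hc1 : 1 + (c - 2) = c - 1 := by omega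
  rw [hc1, hX1] at hYc
  have hYN := h.lev.yN (τ^[c - 1] b)
  have : Nonempty V := ⟨b⟩
  have hF' : ∀ j, j < p + q → ∃ v ∈ Um A B τ, Y v = X b + 1 + (t + 6 + j) := fun j hj =>
    hF _ (by omega) (by omega)
  choose! w hw1 hw2 using hF'
  set I : Finset V := (Finset.range (p + q)).image w with hI
  have hIc : I.card = p + q := by
    rw [hI, Finset.card_image_of_injOn, Finset.card_range]
    intro i hi j hj hij
    rw [Finset.mem_coe, Finset.mem_range] at hi hj
    have h4 := hw2 i hi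
    have h5 := hw2 j hj
    rw [hij] at h4
    omega
  have hIU : I ⊆ Um A B τ := by
    intro v hv
    obtain ⟨i, hi, rfl⟩ := Finset.mem_image.mp hv
    exact hw1 i (Finset.mem_range.mp hi)
  have hIR : p ≤ (I ∩ R).card := by
    have h1 : I ⊆ (I ∩ R) ∪ (Um A B τ \ R) := by
      intro v hv
      by_cases hvR : v ∈ R
      · exact Finset.mem_union_left _ (Finset.mem_inter.mpr ⟨hv, hvR⟩)
      · exact Finset.mem_union_right _ (Finset.mem_sdiff.mpr ⟨hIU hv, hvR⟩)
    have h2 := (Finset.card_le_card h1).trans (Finset.card_union_le _ _)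
    omega
  obtain ⟨D, hD1, hD2⟩ := Finset.exists_subset_card_eq hIR
  refine ⟨D, fun v hv => hIU (Finset.mem_inter.mp (hD1 hv)).1,
    fun v hv => (Finset.mem_inter.mp (hD1 hv)).2, hD2, ?_⟩
  intro d hd
  obtain ⟨j, hj, rfl⟩ := Finset.mem_image.mp (Finset.mem_inter.mp (hD1 hd)).1
  rw [Finset.mem_range] at hj
  have hY := hw2 j hj
  obtain ⟨hdA, hdB, hdτ⟩ := mem_Um.mp (hw1 j hj)
  have hXd := hP.fix _ hdA hdτ
  refine ⟨by omega, by omega, ⟨τ^[c - 1] b, mem_seg.mpr ⟨c - 1, by omega, rfl⟩, ?_⟩,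
    ⟨b, mem_seg.mpr ⟨0, by omega, rfl⟩, ?_⟩⟩
  · have hpB : τ^[c - 1] b ∉ B := hτ.track_nB hb (by omega) (by omega)
    apply h.tour.of_not
    · intro he
      rw [he] at hY hXd
      omega
    · intro hr
      have := h.lev.arc _ _ hdA hpB hr
      omega
  · apply h.tour.of_not
    · intro he
      exact hdB (he ▸ hb)
    · intro hr
      have := h.lev.arc _ _ hbA hdB hr
      omega

/-- The large classes. -/
theorem large_classes {r : V → V → Prop} {A B : Finset V} {τ : V → V} {t w N : ℕ}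
    {X Y : V → ℕ}
    (h : Env r A B t N X Y) (hτ : IsStep r A B τ) (hP : Pot r A B τ N X Y) (hAB : Disjoint A B)
    (hF : ∀ l, t ≤ l → l + t + 1 ≤ N → ∃ v ∈ Um A B τ, Y v = l)
    (hK : Fintype.card K ≤ t) {W : Finset V} (hWc : W.card ≤ w) (hW : Strong r (univ \ W))
    {β : K → V} (hβ : Function.Injective β) (hβB : ∀ k, β k ∈ B)
    (hβW : ∀ k, Disjoint (track A τ (β k)) W) (g : K) {n : K → ℕ}
    (hsum : ∑ k, n k + W.card = Fintype.card V) (hlarge : ∀ k, kL t w ≤ n k) {J : ℕ}
    (hJ : Fintype.card V < 2 ^ J) (hn1 : 10 * kq t w + 28 * t < Fintype.card V)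
    (hroom : ∀ y1 y2, 2 ^ kh t * y1 ≤ Fintype.card V + 2 ^ kh t * kk t w →
      2 ^ kh t * y2 ≤ Fintype.card V + 2 ^ kh t * kk t w →
      y1 + y2 + t * kd t w + 7 + 4 * J + 3 * ku t w + (tend A τ (β g) + 1) ≤ n g) :
    ∃ F : K → Finset V, (∀ k, Strong r (F k)) ∧ (∀ k, (F k).card = n k) ∧
      (∀ i j, i ≠ j → Disjoint (F i) (F j)) ∧ ∀ k, Disjoint (F k) W := by
  classical
  have hkL : kL t w = kr t w + kd t w + w + 4 * t + 20 := rfl
  have hkr : kr t w = 2 * ku t w + 4 * kh t + 4 := rfl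
  have hkd : kd t w = t * kr t w + 3 * ku t w + 3 := rfl
  have hku : ku t w = 2 * kk t w := rfl
  have hkf : kf t w = w + t * (8 + 4 * kh t) := rfl
  -- types and initial cores
  set Ts : Finset K := univ.filter (fun k => k ≠ g ∧ n k < tend A τ (β k) + 1 + kr t w)
    with hTs
  have hmT : ∀ k, k ∈ Ts ↔ k ≠ g ∧ n k < tend A τ (β k) + 1 + kr t w := by
    intro k; simp [hTs]
  have hgT : g ∉ Ts := fun hg => ((hmT g).mp hg).1 rfl
  set cc : K → ℕ := fun k => if k ∈ Ts then n k - kr t w else tend A τ (β k) + 1 with hcc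
  have hccT : ∀ k, k ∈ Ts → cc k = n k - kr t w := fun k hk => by simp only [hcc, if_pos hk]
  have hccG : ∀ k, k ∉ Ts → cc k = tend A τ (β k) + 1 := fun k hk => by
    simp only [hcc, if_neg hk]
  have hccle : ∀ k, cc k ≤ tend A τ (β k) + 1 := by
    intro k
    by_cases hk : k ∈ Ts
    · rw [hccT k hk]
      have := ((hmT k).mp hk).2
      omega
    · rw [hccG k hk]
  have htp : ∀ k, 1 ≤ tend A τ (β k) := fun k => tend_pos hτ hAB (hβB k)
  have hcc2 : ∀ k, 2 ≤ cc k := by
    intro k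
    by_cases hk : k ∈ Ts
    · rw [hccT k hk]
      have := hlarge k
      omega
    · rw [hccG k hk]
      have := htp k
      omega
  set C0 : K → Finset V := fun k => seg τ (β k) (cc k) with hC0def
  have hC0 : ∀ k, C0 k ⊆ track A τ (β k) := fun k => seg_sub (hccle k)
  have hC0c : ∀ k, (C0 k).card = cc k := fun k => card_seg hτ (hβB k) (hccle k)
  have hC0d : ∀ i j, i ≠ j → Disjoint (C0 i) (C0 j) := by
    intro i j hij
    exact Finset.disjoint_of_subset_left (hC0 i) (Finset.disjoint_of_subset_right (hC0 j)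
      (hτ.track_disjoint (hβB i) (hβB j) (fun e => hij (hβ e))))
  have hC0W : ∀ k, Disjoint (C0 k) W := fun k =>
    Finset.disjoint_of_subset_left (hC0 k) (hβW k)
  have hbC0 : ∀ k, β k ∈ C0 k := fun k => mem_seg.mpr ⟨0, by have := hcc2 k; omega, rfl⟩
  have haC0 : ∀ k, k ∉ Ts → τ^[tend A τ (β k)] (β k) ∈ C0 k := fun k hk =>
    mem_seg.mpr ⟨_, by rw [hccG k hk]; omega, rfl⟩
  -- closing
  obtain ⟨E1, hE1, hE1c, hE1d, hE1s⟩ := stage_close h hτ hP hAB hF hK hWc hβB hC0 (by
    intro k hk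
    apply strong_seg h.tour hτ hP (hβB k) _ (hccle k)
    by_cases hkT : k ∈ Ts
    · rw [hccT k hkT]
      have := hlarge k
      omega
    · rw [hccG k hkT]
      have := htp k
      omega) (by
    intro k hk
    have hkT : k ∉ Ts := by
      intro hkT
      have h1 := ((hmT k).mp hkT).2
      have h2 := hlarge k
      omega
    have h2 : cc k = 2 := by rw [hccG k hkT, hk]
    simp only [hC0def, h2, seg]
    ext v
    simp only [Finset.mem_image, Finset.mem_range, Finset.mem_insert, Finset.mem_singleton]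
    constructor
    · rintro ⟨i, hi, rfl⟩
      interval_cases i
      · right; rfl
      · left; rfl
    · rintro (rfl | rfl)
      · exact ⟨1, by norm_num, rfl⟩
      · exact ⟨0, by norm_num, rfl⟩) hn1
  set C1 : K → Finset V := fun k => C0 k ∪ E1 k with hC1def
  have hC01 : ∀ k, C0 k ⊆ C1 k := fun k => Finset.subset_union_left
  have hC1d : ∀ i j, i ≠ j → Disjoint (C1 i) (C1 j) := ext_disj hC0d hE1 hE1d
  have hC1W : ∀ k, Disjoint (C1 k) W := ext_W hC0W hE1
  -- reserved vertices
  have hUout : (Um A B τ \ Fr W C1).card ≤ w + 2 * t := by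
    have h1 : Um A B τ \ Fr W C1 ⊆ W ∪ univ.biUnion E1 := by
      intro v hv
      rw [Finset.mem_sdiff, mem_Fr, not_and] at hv
      rw [Finset.mem_union]
      by_cases hvW : v ∈ W
      · exact Or.inl hvW
      · right
        have h2 := hv.2 hvW
        push Not at h2
        obtain ⟨k, hk⟩ := h2
        rcases Finset.mem_union.mp hk with h3 | h3
        · exact absurd hv.1 (track_Um hτ (hβB k) (hC0 k h3))
        · exact Finset.mem_biUnion.mpr ⟨k, Finset.mem_univ _, h3⟩
    have h2 := (Finset.card_le_card h1).trans (Finset.card_union_le _ _)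
    have h3 := Finset.card_biUnion_le_card_mul (univ : Finset K) E1 2 (fun k _ => hE1c k)
    rw [Finset.card_univ] at h3
    omega
  have hDex : ∀ k ∈ Ts, ∃ D : Finset V, D ⊆ Um A B τ ∧ D ⊆ Fr W C1 ∧ D.card = kd t w ∧
      ∀ d ∈ D, 6 ≤ Y d ∧ X d + 6 ≤ N ∧ (∃ x ∈ C0 k, r x d) ∧ ∃ x ∈ C0 k, r d x := by
    intro k hk
    apply exists_reserved h hτ hP hF (hβB k) (p := kd t w) (q := w + 2 * t) (c := cc k)
    · rw [hccT k hk]
      have := hlarge k
      omega
    · rw [hccT k hk]
      have := ((hmT k).mp hk).2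
      omega
    · exact fun hA => Finset.disjoint_left.mp hAB hA (hβB k)
    · exact hUout
  choose! Dk hDk1 hDk2 hDk3 hDk4 using hDex
  set D : Finset V := Ts.biUnion Dk with hDdef
  have hTc : Ts.card ≤ t := (Finset.card_le_univ _).trans hK
  have hDc : D.card ≤ t * kd t w := by
    have h1 := Finset.card_biUnion_le_card_mul Ts Dk (kd t w) (fun k hk => (hDk3 k hk).le)
    exact h1.trans (Nat.mul_le_mul_right _ hTc)
  have hDmem : ∀ d ∈ D, d ∉ A ∧ d ∉ B ∧ 6 ≤ Y d ∧ X d + 6 ≤ N := by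
    intro d hd
    obtain ⟨k, hk, hd'⟩ := Finset.mem_biUnion.mp hd
    have h1 := mem_Um.mp (hDk1 k hk hd')
    have h2 := hDk4 k hk d hd'
    exact ⟨h1.1, h1.2.1, h2.1, h2.2.1⟩
  -- low counts of the cores
  have hLo1 : ∀ k, (Lo A B Y (C1 k)).card ≤ 8 := by
    intro k
    have h1 := card_Lo_union (A := A) (B := B) (Y := Y) (Q := C0 k) (Q' := E1 k)
    have h2 := Lo_track hτ hP (hβB k) (hC0 k)
    have h3 := card_Lo_le (A := A) (B := B) (Y := Y) (Q := E1 k)
    have h4 := hE1c k
    show (Lo A B Y (C0 k ∪ E1 k)).card ≤ 8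
    omega
  have hHi1 : ∀ k, (Lo B A (fun v => N - X v) (C1 k)).card ≤ 8 := by
    intro k
    have h1 := card_Lo_union (A := B) (B := A) (Y := fun v => N - X v) (Q := C0 k) (Q' := E1 k)
    have h2 := Hi_track hτ hP (hβB k) (hC0 k)
    have h3 := card_Lo_le (A := B) (B := A) (Y := fun v => N - X v) (Q := E1 k)
    have h4 := hE1c k
    show (Lo B A (fun v => N - X v) (C0 k ∪ E1 k)).card ≤ 8
    omega
  have hLoD : (Lo A B Y D).card = 0 := Lo_high (fun d hd => (hDmem d hd).2.2.1)
  have hHiD : (Lo B A (fun v => N - X v) D).card = 0 := Lo_high (fun d hd => by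
    have := (hDmem d hd).2.2.2
    omega)
  -- halving for the ordinary classes
  set Gs : Finset K := univ.filter (fun k => k ≠ g ∧ k ∉ Ts) with hGs
  have hmG : ∀ k, k ∈ Gs ↔ k ≠ g ∧ k ∉ Ts := by intro k; simp [hGs]
  have hGc : Gs.card ≤ t := (Finset.card_le_univ _).trans hK
  have hkk6 : 6 * t ≤ kk t w := by unfold kk; omega
  have hconv : ∀ (R S : Finset V), (S.card ≤ 3 * (4 * t + kf t w) ∨
      2 ^ kh t * S.card ≤ R.card + 2 ^ kh t * (6 * t)) →
      2 ^ kh t * S.card ≤ Fintype.card V + 2 ^ kh t * kk t w := by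
    intro R S hS
    rcases hS with hS | hS
    · have h1 : 2 ^ kh t * S.card ≤ 2 ^ kh t * kk t w := Nat.mul_le_mul_left _ hS
      omega
    · have h1 : 2 ^ kh t * (6 * t) ≤ 2 ^ kh t * kk t w := Nat.mul_le_mul_left _ hkk6
      have h2 : R.card ≤ Fintype.card V := Finset.card_le_univ _
      omega
  obtain ⟨E2, hE2, hE2c, hE2n, hE2d, hE2g⟩ := seq_extend Gs (Fr W C1 \ D) (4 * kh t)
    (fun k E R => Strong r (C1 k ∪ E) ∧
      2 ^ kh t * (Yp r (C1 k ∪ E) R).card ≤ Fintype.card V + 2 ^ kh t * kk t w ∧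
      2 ^ kh t * (Yp (rev r) (C1 k ∪ E) R).card ≤ Fintype.card V + 2 ^ kh t * kk t w)
    (by
      rintro k E R R' hR ⟨h1, h2, h3⟩
      refine ⟨h1, le_trans (Nat.mul_le_mul_left _ (Finset.card_le_card ?_)) h2,
        le_trans (Nat.mul_le_mul_left _ (Finset.card_le_card ?_)) h3⟩
      · exact Yp_mono (Finset.Subset.refl _) hR
      · exact Yp_mono (Finset.Subset.refl _) hR) (by
      intro k hk Z hZ hZc
      rw [hmG] at hk
      have hZc' : Z.card ≤ t * (4 * kh t) := by
        refine hZc.trans ?_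
        rw [mul_comm t]
        exact Nat.mul_le_mul_left _ hGc
      set Q : Finset V := W ∪ ((univ.erase k).biUnion C1 ∪ (D ∪ Z)) with hQ
      have hcov : ∀ v, v ∈ C1 k ∨ v ∈ (Fr W C1 \ D) \ Z ∨ v ∈ Q := by
        intro v
        by_cases h1 : v ∈ C1 k
        · exact Or.inl h1
        by_cases h2 : v ∈ Q
        · exact Or.inr (Or.inr h2)
        right; left
        simp only [hQ, Finset.mem_union, Finset.mem_biUnion, Finset.mem_erase, not_or,
          not_exists, not_and] at h2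
        obtain ⟨h3, h4, h5, h6⟩ := h2
        rw [Finset.mem_sdiff, Finset.mem_sdiff, mem_Fr]
        refine ⟨⟨⟨h3, ?_⟩, h5⟩, h6⟩
        intro j
        rcases eq_or_ne j k with rfl | hj
        · exact h1
        · exact h4 j ⟨hj, Finset.mem_univ _⟩
      have hcd : Disjoint (C1 k) ((Fr W C1 \ D) \ Z) := by
        rw [Finset.disjoint_right]
        intro v hv
        exact (mem_Fr.mp (Finset.mem_sdiff.mp (Finset.mem_sdiff.mp hv).1).1).2 k
      have hek : (univ.erase k).card ≤ t := (Finset.card_le_univ _).trans hK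
      have hlo : (Lo A B Y Q).card ≤ kf t w := by
        have g1 := card_Lo_union (A := A) (B := B) (Y := Y) (Q := W)
          (Q' := (univ.erase k).biUnion C1 ∪ (D ∪ Z))
        have g2 := card_Lo_union (A := A) (B := B) (Y := Y)
          (Q := (univ.erase k).biUnion C1) (Q' := D ∪ Z)
        have g3 := card_Lo_union (A := A) (B := B) (Y := Y) (Q := D) (Q' := Z)
        have g4 := card_Lo_le (A := A) (B := B) (Y := Y) (Q := W)
        have g5 := card_Lo_le (A := A) (B := B) (Y := Y) (Q := Z)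
        have g6 := card_Lo_biUnion (A := A) (B := B) (Y := Y) (univ.erase k) C1 8
          (fun j _ => hLo1 j)
        have g7 : (univ.erase k).card * 8 ≤ t * 8 := Nat.mul_le_mul_right _ hek
        have g8 : t * (8 + 4 * kh t) = t * 8 + t * (4 * kh t) := by ring
        rw [hkf, g8, hQ]
        omega
      have hhi : (Lo B A (fun v => N - X v) Q).card ≤ kf t w := by
        have g1 := card_Lo_union (A := B) (B := A) (Y := fun v => N - X v) (Q := W)
          (Q' := (univ.erase k).biUnion C1 ∪ (D ∪ Z))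
        have g2 := card_Lo_union (A := B) (B := A) (Y := fun v => N - X v)
          (Q := (univ.erase k).biUnion C1) (Q' := D ∪ Z)
        have g3 := card_Lo_union (A := B) (B := A) (Y := fun v => N - X v) (Q := D) (Q' := Z)
        have g4 := card_Lo_le (A := B) (B := A) (Y := fun v => N - X v) (Q := W)
        have g5 := card_Lo_le (A := B) (B := A) (Y := fun v => N - X v) (Q := Z)
        have g6 := card_Lo_biUnion (A := B) (B := A) (Y := fun v => N - X v) (univ.erase k) C1 8
          (fun j _ => hHi1 j)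
        have g7 : (univ.erase k).card * 8 ≤ t * 8 := Nat.mul_le_mul_right _ hek
        have g8 : t * (8 + 4 * kh t) = t * 8 + t * (4 * kh t) := by ring
        rw [hkf, g8, hQ]
        omega
      obtain ⟨E, e1, e2, e3, e4, e5⟩ := h.halve2 (hτ.tend_spec (hβB k)).1
        (hC01 k (haC0 k hk.2)) (hβB k) (hC01 k (hbC0 k)) hcd hcov hlo hhi (hE1s k) (kh t)
      exact ⟨E, e1, e2, e3, hconv _ _ e4, hconv _ _ e5⟩)
  set C2 : K → Finset V := fun k => C1 k ∪ E2 k with hC2def
  have hE2F : ∀ k, E2 k ⊆ Fr W C1 := fun k => (hE2 k).trans Finset.sdiff_subset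
  have hC12 : ∀ k, C1 k ⊆ C2 k := fun k => Finset.subset_union_left
  have hC2s : ∀ k, Strong r (C2 k) := by
    intro k
    by_cases hk : k ∈ Gs
    · exact (hE2g k hk).1
    · show Strong r (C1 k ∪ E2 k)
      rw [hE2n k hk, Finset.union_empty]
      exact hE1s k
  have hFam2 : Fam r W C2 := ⟨hC2s, ext_disj hC1d hE2F hE2d, ext_W hC1W hE2F,
    fun k => ⟨β k, hC12 k (hC01 k (hbC0 k))⟩⟩
  have hFr2 : Fr W C2 = Fr W C1 \ univ.biUnion E2 := Fr_ext
  have hgG : g ∉ Gs := fun hg => ((hmG g).mp hg).1 rfl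
  have hC2c : ∀ k, (C2 k).card ≤ cc k + 2 + 4 * kh t := by
    intro k
    have h1 := Finset.card_union_le (C1 k) (E2 k)
    have h2 := Finset.card_union_le (C0 k) (E1 k)
    have h3 := hE1c k
    have h4 := hE2c k
    have h5 := hC0c k
    have h6 : (C2 k).card = (C1 k ∪ E2 k).card := rfl
    have h7 : (C1 k).card = (C0 k ∪ E1 k).card := rfl
    omega
  have hC2g : (C2 g).card ≤ tend A τ (β g) + 3 := by
    have h2 := Finset.card_union_le (C0 g) (E1 g)
    have h3 := hE1c g
    have h5 := hC0c g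
    have h6 : C2 g = C1 g ∪ E2 g := rfl
    have h7 : (C1 g).card = (C0 g ∪ E1 g).card := rfl
    have h8 := hccG g hgT
    rw [h6, hE2n g hgG, Finset.union_empty]
    omega
  -- the giant
  have hLo2 : ∀ k, (Lo A B Y (C2 k)).card ≤ 8 + 4 * kh t := by
    intro k
    have h1 := card_Lo_union (A := A) (B := B) (Y := Y) (Q := C1 k) (Q' := E2 k)
    have h2 := hLo1 k
    have h3 := card_Lo_le (A := A) (B := B) (Y := Y) (Q := E2 k)
    have h4 := hE2c k
    show (Lo A B Y (C1 k ∪ E2 k)).card ≤ 8 + 4 * kh t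
    omega
  have hHi2 : ∀ k, (Lo B A (fun v => N - X v) (C2 k)).card ≤ 8 + 4 * kh t := by
    intro k
    have h1 := card_Lo_union (A := B) (B := A) (Y := fun v => N - X v) (Q := C1 k) (Q' := E2 k)
    have h2 := hHi1 k
    have h3 := card_Lo_le (A := B) (B := A) (Y := fun v => N - X v) (Q := E2 k)
    have h4 := hE2c k
    show (Lo B A (fun v => N - X v) (C1 k ∪ E2 k)).card ≤ 8 + 4 * kh t
    omega
  have heg : (univ.erase g).card ≤ t := (Finset.card_le_univ _).trans hK
  obtain ⟨E3, hE3, hE3c, hE3D, hE3s, hE3p, hE3m⟩ := h.giant (C := C2 g) (R := Fr W C2)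
    (Q := W ∪ (univ.erase g).biUnion C2) (D := D) (f := kf t w) (J := J)
    (hτ.tend_spec (hβB g)).1 (hC12 g (hC01 g (haC0 g hgT))) (hβB g) (hC12 g (hC01 g (hbC0 g)))
    (by
      rw [Finset.disjoint_right]
      intro v hv
      exact (mem_Fr.mp hv).2 g)
    (by
      intro v
      by_cases h1 : v ∈ C2 g
      · exact Or.inl h1
      by_cases h2 : v ∈ W ∪ (univ.erase g).biUnion C2
      · exact Or.inr (Or.inr h2)
      right; left
      simp only [Finset.mem_union, Finset.mem_biUnion, Finset.mem_erase, not_or,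
        not_exists, not_and] at h2
      rw [mem_Fr]
      refine ⟨h2.1, ?_⟩
      intro j
      rcases eq_or_ne j g with rfl | hj
      · exact h1
      · exact h2.2 j ⟨hj, Finset.mem_univ _⟩)
    (by
      have g1 := card_Lo_union (A := A) (B := B) (Y := Y) (Q := W)
        (Q' := (univ.erase g).biUnion C2)
      have g4 := card_Lo_le (A := A) (B := B) (Y := Y) (Q := W)
      have g6 := card_Lo_biUnion (A := A) (B := B) (Y := Y) (univ.erase g) C2 (8 + 4 * kh t)
        (fun j _ => hLo2 j)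
      have g7 : (univ.erase g).card * (8 + 4 * kh t) ≤ t * (8 + 4 * kh t) :=
        Nat.mul_le_mul_right _ heg
      rw [hkf]
      omega)
    (by
      have g1 := card_Lo_union (A := B) (B := A) (Y := fun v => N - X v) (Q := W)
        (Q' := (univ.erase g).biUnion C2)
      have g4 := card_Lo_le (A := B) (B := A) (Y := fun v => N - X v) (Q := W)
      have g6 := card_Lo_biUnion (A := B) (B := A) (Y := fun v => N - X v) (univ.erase g) C2
        (8 + 4 * kh t) (fun j _ => hHi2 j)
      have g7 : (univ.erase g).card * (8 + 4 * kh t) ≤ t * (8 + 4 * kh t) :=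
        Nat.mul_le_mul_right _ heg
      rw [hkf]
      omega)
    (hC2s g) hDmem (lt_of_le_of_lt (Finset.card_le_univ _) hJ)
  set C3 : K → Finset V := upd C2 g E3 with hC3def
  have hFam3 : Fam r W C3 := hFam2.upd hE3 hE3s
  have hFr3 : Fr W C3 = Fr W C2 \ E3 := Fr_upd
  have hC23 : ∀ k, C2 k ⊆ C3 k := fun k => le_upd k
  have hC3n : ∀ k, k ≠ g → C3 k = C2 k := fun k hk => upd_ne hk
  have hC3g : C3 g = C2 g ∪ E3 := upd_self
  have hC3gc : (C3 g).card ≤ tend A τ (β g) + 4 * J + 7 := by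
    rw [hC3g]
    have := Finset.card_union_le (C2 g) E3
    omega
  have hroom0 := hroom 0 0 (by rw [mul_zero]; exact Nat.zero_le _)
    (by rw [mul_zero]; exact Nat.zero_le _)
  apply finish h.tour hW g n hFam3 hsum (m := ku t w) (ρ := kr t w) _ Ts hgT
  · -- sizes
    intro k
    rcases eq_or_ne k g with rfl | hk
    · omega
    · rw [hC3n k hk]
      have h1 := hC2c k
      have h2 := hlarge k
      by_cases hkT : k ∈ Ts
      · rw [hccT k hkT] at h1
        omega
      · rw [hccG k hkT] at h1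
        have h3 : ¬ (k ≠ g ∧ n k < tend A τ (β k) + 1 + kr t w) := fun h4 => hkT ((hmT k).mpr h4)
        push Not at h3
        have h4 := h3 hk
        omega
  · -- truncated classes: size
    intro k hk
    have h1 := Finset.card_le_card ((hC01 k).trans ((hC12 k).trans (hC23 k)))
    rw [hC0c k, hccT k hk] at h1
    omega
  · -- truncated classes: supply
    intro k hk
    have h1 : Dk k ⊆ Fr W C2 := by
      intro v hv
      rw [hFr2, Finset.mem_sdiff]
      refine ⟨hDk2 k hk hv, ?_⟩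
      intro hv'
      obtain ⟨j, _, hj⟩ := Finset.mem_biUnion.mp hv'
      exact (Finset.mem_sdiff.mp (hE2 j hj)).2 (Finset.mem_biUnion.mpr ⟨k, hk, hv⟩)
    have h2 : Dk k \ (E3 ∩ D) ⊆ Mx r (C3 k) (Fr W C3) := by
      intro v hv
      rw [Finset.mem_sdiff, Finset.mem_inter, not_and] at hv
      have hvD : v ∈ D := Finset.mem_biUnion.mpr ⟨k, hk, hv.1⟩
      obtain ⟨_, _, ⟨x, hx, hxr⟩, y, hy, hyr⟩ := hDk4 k hk v hv.1
      rw [mem_Mx, hFr3, Finset.mem_sdiff]
      have hsub : C0 k ⊆ C3 k := (hC01 k).trans ((hC12 k).trans (hC23 k))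
      exact ⟨⟨h1 hv.1, fun hE => hv.2 hE hvD⟩, ⟨x, hsub hx, hxr⟩, y, hsub hy, hyr⟩
    have h3 := Finset.card_le_card h2
    have h4 : (Dk k).card ≤ (Dk k \ (E3 ∩ D)).card + (E3 ∩ D).card := by
      refine (Finset.card_le_card ?_).trans (Finset.card_union_le _ _)
      intro v hv
      rw [Finset.mem_union, Finset.mem_sdiff]
      by_cases h5 : v ∈ E3 ∩ D
      · exact Or.inr h5
      · exact Or.inl ⟨hv, h5⟩
    have h5 := hDk3 k hk
    have h6 : Fintype.card K * kr t w ≤ t * kr t w := Nat.mul_le_mul_right _ hK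
    omega
  · -- ordinary classes
    intro k hkg hkT
    have hkG : k ∈ Gs := (hmG k).mpr ⟨hkg, hkT⟩
    obtain ⟨_, hy1, hy2⟩ := hE2g k hkG
    have h1 := hroom _ _ hy1 hy2
    have h2 : Fr W C3 \ Mx r (C3 k) (Fr W C3) ⊆
        (Yp r (C1 k ∪ E2 k) ((Fr W C1 \ D) \ univ.biUnion E2) ∪
          Yp (rev r) (C1 k ∪ E2 k) ((Fr W C1 \ D) \ univ.biUnion E2)) ∪ D := by
      intro v hv
      rw [Finset.mem_sdiff] at hv
      obtain ⟨hvF, hvM⟩ := hv
      by_cases hvD : v ∈ D
      · exact Finset.mem_union_right _ hvD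
      apply Finset.mem_union_left
      have hvF2 : v ∈ Fr W C2 := by
        rw [hFr3] at hvF
        exact (Finset.mem_sdiff.mp hvF).1
      have hvR : v ∈ (Fr W C1 \ D) \ univ.biUnion E2 := by
        rw [hFr2, Finset.mem_sdiff] at hvF2
        rw [Finset.mem_sdiff, Finset.mem_sdiff]
        exact ⟨⟨hvF2.1, hvD⟩, hvF2.2⟩
      have hne : ∀ c ∈ C2 k, c ≠ v := by
        rintro c hc rfl
        exact (mem_Fr.mp hvF2).2 k hc
      rw [hC3n k hkg, mem_Mx, not_and, not_and_or] at hvM
      rcases hvM hvF with h3 | h3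
      · apply Finset.mem_union_right
        rw [mem_Yp]
        refine ⟨hvR, fun c hc => ?_⟩
        push Not at h3
        exact h.tour.of_not (hne c hc) (h3 c hc)
      · apply Finset.mem_union_left
        rw [mem_Yp]
        refine ⟨hvR, fun c hc => ?_⟩
        push Not at h3
        exact h.tour.of_not (Ne.symm (hne c hc)) (h3 c hc)
    have h3 := (Finset.card_le_card h2).trans (Finset.card_union_le _ _)
    have h4 := Finset.card_union_le
      (Yp r (C1 k ∪ E2 k) ((Fr W C1 \ D) \ univ.biUnion E2))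
      (Yp (rev r) (C1 k ∪ E2 k) ((Fr W C1 \ D) \ univ.biUnion E2))
    omega
  · -- one-sided vertices of the giant
    rw [hFr3, hC3g]
    have h1 : 3 * (4 * t + kf t w) = kk t w := rfl
    omega

end H990
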