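import Pool.Agent.H990_Song.Link

/-! Linkages with potentials, by the Hungarian method. -/

namespace H990

open Finset

set_option linter.unusedSectionVars false

variable {V : Type*} [DecidableEq V] [Fintype V]

/-- Dual feasibility. -/
structure Feas (r : V → V → Prop) (A B : Finset V) (X Y : V → ℤ) : Prop where
  dia : ∀ v, v ∉ A → v ∉ B → Y v + 1 ≤ X v
  arc : ∀ v w, v ∉ A → w ∉ B → r v w → Y w ≤ X v

/-- The dual objective. -/
noncomputable def obj (A B : Finset V) (X Y : V → ℤ) : ℤ :=
  ∑ v ∈ univ \ A, X v - ∑ w ∈ univ \ B, Y w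

lemma obj_nonneg {r : V → V → Prop} {A B : Finset V} {τ : V → V} (hτ : IsStep r A B τ)
    (hAB : A.card = B.card) {X Y : V → ℤ} (h : Feas r A B X Y) : 0 ≤ obj A B X Y := by
  have hinj : Set.InjOn τ (univ \ A : Finset V) := by
    intro v hv w hw hvw
    rw [Finset.mem_coe, Finset.mem_sdiff] at hv hw
    exact hτ.inj v w hv.2 hw.2 hvw
  have himg : (univ \ A).image τ = univ \ B := by
    apply Finset.eq_of_subset_of_card_le
    · intro w hw
      obtain ⟨v, hv, rfl⟩ := Finset.mem_image.mp hw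
      rw [Finset.mem_sdiff] at hv ⊢
      refine ⟨Finset.mem_univ _, ?_⟩
      rcases hτ.notB v hv.2 with h1 | h1
      · exact h1
      · exact h1.elim
    · rw [Finset.card_image_of_injOn hinj, Finset.card_sdiff_of_subset (Finset.subset_univ _),
        Finset.card_sdiff_of_subset (Finset.subset_univ _)]
      omega
  unfold obj
  rw [← himg, Finset.sum_image hinj, sub_nonneg]
  apply Finset.sum_le_sum
  intro v hv
  have hvA := (Finset.mem_sdiff.mp hv).2
  have hB : τ v ∉ B := by
    rcases hτ.notB v hvA with h1 | h1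
    · exact h1
    · exact h1.elim
  rcases hτ.step v hvA with h1 | h1
  · rw [h1] at hB ⊢
    have := h.dia v hvA hB
    omega
  · exact h.arc v (τ v) hvA hB h1

/-- An optimal dual solution has a tight step map. -/
lemma exists_potential_int {r : V → V → Prop} (hT : IsTournament r) {A B : Finset V} {t : ℕ}
    (hk : Kc r t) (hA : A.card = t) (hB : B.card = t) (hAB : Disjoint A B) :
    ∃ (τ : V → V) (X Y : V → ℤ), IsStep r A B τ ∧ Feas r A B X Y ∧
      (∀ v, v ∉ A → τ v ≠ v → Y (τ v) = X v) ∧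
      (∀ v, v ∉ A → τ v = v → X v = Y v + 1) := by
  classical
  obtain ⟨τ0, hτ0⟩ := exists_step hT hk hA hB hAB
  have hex : ∃ m : ℕ, ∃ X Y : V → ℤ, Feas r A B X Y ∧ (obj A B X Y).toNat = m :=
    ⟨_, fun _ => 1, fun _ => 0, ⟨fun _ _ _ => by norm_num, fun _ _ _ _ _ => by norm_num⟩, rfl⟩
  obtain ⟨X, Y, hF, hm⟩ := Nat.find_spec hex
  have hmin : ∀ X' Y' : V → ℤ, Feas r A B X' Y' → obj A B X Y ≤ obj A B X' Y' := by
    intro X' Y' hF'
    have h1 := Nat.find_min' hex ⟨X', Y', hF', rfl⟩
    have h2 := obj_nonneg hτ0 (hA.trans hB.symm) hF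
    have h3 := obj_nonneg hτ0 (hA.trans hB.symm) hF'
    omega
  let N : {v : V // v ∉ A} → Finset V := fun v =>
    univ.filter (fun w => w ∉ B ∧ ((w = v.1 ∧ Y w + 1 = X v.1) ∨ (r v.1 w ∧ Y w = X v.1)))
  have hall : ∀ s : Finset {v : V // v ∉ A}, s.card ≤ (s.biUnion N).card := by
    intro s
    by_contra hlt
    push Not at hlt
    set s' : Finset V := s.map ⟨Subtype.val, Subtype.val_injective⟩ with hs'
    have hs'c : s'.card = s.card := by rw [hs', Finset.card_map]
    have hs'A : s' ⊆ univ \ A := by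
      intro x hx
      rw [hs', Finset.mem_map] at hx
      obtain ⟨y, _, rfl⟩ := hx
      exact Finset.mem_sdiff.mpr ⟨Finset.mem_univ _, y.2⟩
    set NS := s.biUnion N with hNS
    have hNSB : NS ⊆ univ \ B := by
      intro w hw
      rw [hNS, Finset.mem_biUnion] at hw
      obtain ⟨v, _, hv⟩ := hw
      exact Finset.mem_sdiff.mpr ⟨Finset.mem_univ _, (Finset.mem_filter.mp hv).2.1⟩
    have hmem : ∀ v w, v ∈ s' → w ∉ B → ((w = v ∧ Y w + 1 = X v) ∨ (r v w ∧ Y w = X v)) →
        w ∈ NS := by
      intro v w hv hw h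
      rw [hs', Finset.mem_map] at hv
      obtain ⟨y, hy, rfl⟩ := hv
      rw [hNS, Finset.mem_biUnion]
      exact ⟨y, hy, Finset.mem_filter.mpr ⟨Finset.mem_univ _, hw, h⟩⟩
    set X' : V → ℤ := fun v => if v ∈ s' then X v - 1 else X v with hX'
    set Y' : V → ℤ := fun w => if w ∈ NS then Y w - 1 else Y w with hY'
    have hF' : Feas r A B X' Y' := by
      constructor
      · intro v hvA hvB
        have h1 := hF.dia v hvA hvB
        simp only [hX', hY']
        by_cases hv : v ∈ s'
        · by_cases hw : v ∈ NS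
          · rw [if_pos hv, if_pos hw]; omega
          · rw [if_pos hv, if_neg hw]
            have h2 : ¬ (Y v + 1 = X v) := fun h => hw (hmem v v hv hvB (Or.inl ⟨rfl, h⟩))
            omega
        · rw [if_neg hv]
          split_ifs <;> omega
      · intro v w hvA hwB hr
        have h1 := hF.arc v w hvA hwB hr
        simp only [hX', hY']
        by_cases hv : v ∈ s'
        · by_cases hw : w ∈ NS
          · rw [if_pos hv, if_pos hw]; omega
          · rw [if_pos hv, if_neg hw]
            have h2 : ¬ (Y w = X v) := fun h => hw (hmem v w hv hwB (Or.inr ⟨hr, h⟩))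
            omega
        · rw [if_neg hv]
          split_ifs <;> omega
    have h1 := hmin X' Y' hF'
    have h2 : ∑ v ∈ univ \ A, X' v = ∑ v ∈ univ \ A, X v - s'.card := by
      have h3 : ∀ v, X' v = X v - (if v ∈ s' then (1 : ℤ) else 0) := by
        intro v
        simp only [hX']
        split_ifs <;> ring
      rw [Finset.sum_congr rfl (fun v _ => h3 v), Finset.sum_sub_distrib, Finset.sum_ite_mem,
        Finset.inter_eq_right.mpr hs'A]
      simp
    have h3 : ∑ w ∈ univ \ B, Y' w = ∑ w ∈ univ \ B, Y w - NS.card := by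
      have h4 : ∀ v, Y' v = Y v - (if v ∈ NS then (1 : ℤ) else 0) := by
        intro v
        simp only [hY']
        split_ifs <;> ring
      rw [Finset.sum_congr rfl (fun v _ => h4 v), Finset.sum_sub_distrib, Finset.sum_ite_mem,
        Finset.inter_eq_right.mpr hNSB]
      simp
    unfold obj at h1
    rw [h2, h3] at h1
    omega
  obtain ⟨f, hf, hf'⟩ := (Finset.all_card_le_biUnion_card_iff_exists_injective N).mp hall
  have hfN : ∀ v : {v : V // v ∉ A}, f v ∉ B ∧
      ((f v = v.1 ∧ Y (f v) + 1 = X v.1) ∨ (r v.1 (f v) ∧ Y (f v) = X v.1)) := by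
    intro v
    exact (Finset.mem_filter.mp (hf' v)).2
  refine ⟨fun v => if h : v ∉ A then f ⟨v, h⟩ else v, X, Y, ⟨?_, ?_, ?_⟩, hF, ?_, ?_⟩
  · intro v hv
    simp only [dif_pos hv]
    rcases (hfN ⟨v, hv⟩).2 with h | h
    · exact Or.inl h.1
    · exact Or.inr h.1
  · intro v hv
    left
    simp only [dif_pos hv]
    exact (hfN ⟨v, hv⟩).1
  · intro v w hv hw h
    simp only [dif_pos hv, dif_pos hw] at h
    have := hf h
    simpa using this
  · intro v hv hne
    simp only [dif_pos hv] at hne ⊢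
    rcases (hfN ⟨v, hv⟩).2 with h | h
    · exact absurd h.1 hne
    · exact h.2
  · intro v hv heq
    simp only [dif_pos hv] at heq
    rcases (hfN ⟨v, hv⟩).2 with h | h
    · have h1 := h.2
      rw [heq] at h1
      exact h1.symm
    · have h1 := h.1
      rw [heq] at h1
      exact absurd h1 (hT.1 v)

/-- Levels: integer potentials with values between zero and `N` for the step map `τ`. -/
structure Pot (r : V → V → Prop) (A B : Finset V) (τ : V → V) (N : ℕ) (X Y : V → ℕ) :
    Prop where
  dia : ∀ v, v ∉ A → v ∉ B → Y v + 1 ≤ X v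
  arc : ∀ v w, v ∉ A → w ∉ B → r v w → Y w ≤ X v
  mov : ∀ v, v ∉ A → τ v ≠ v → Y (τ v) = X v
  fix : ∀ v, v ∉ A → τ v = v → X v = Y v + 1
  xN : ∀ v, X v ≤ N
  yN : ∀ v, Y v ≤ N

/-- Existence of potentials all of whose levels are occupied. -/
theorem exists_potential {r : V → V → Prop} (hT : IsTournament r) {A B : Finset V} {t : ℕ}
    (hk : Kc r t) (hA : A.card = t) (hB : B.card = t) (hAB : Disjoint A B) :
    ∃ (τ : V → V) (N : ℕ) (X Y : V → ℕ), IsStep r A B τ ∧ Pot r A B τ N X Y ∧
      ∀ l < N, ∃ v, v ∉ A ∧ v ∉ B ∧ Y v = l ∧ X v = l + 1 := by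
  classical
  obtain ⟨τ, X0, Y0, hτ, hF, hmov, hfix⟩ := exists_potential_int hT hk hA hB hAB
  -- a natural valued version
  obtain ⟨c, hc⟩ : ∃ c : ℤ, ∀ v, c ≤ X0 v ∧ c ≤ Y0 v := by
    refine ⟨-∑ v, (|X0 v| + |Y0 v|), ?_⟩
    intro v
    have h1 : |X0 v| + |Y0 v| ≤ ∑ v, (|X0 v| + |Y0 v|) :=
      Finset.single_le_sum (f := fun v => |X0 v| + |Y0 v|)
        (fun i _ => add_nonneg (abs_nonneg _) (abs_nonneg _)) (Finset.mem_univ v)
    have h2 := neg_abs_le (X0 v)
    have h3 := neg_abs_le (Y0 v)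
    have h4 := abs_nonneg (X0 v)
    have h5 := abs_nonneg (Y0 v)
    constructor <;> linarith
  have hex : ∃ N : ℕ, ∃ X Y : V → ℕ, Pot r A B τ N X Y := by
    refine ⟨∑ v, ((X0 v - c).toNat + (Y0 v - c).toNat), fun v => (X0 v - c).toNat,
      fun v => (Y0 v - c).toNat, ⟨?_, ?_, ?_, ?_, ?_, ?_⟩⟩
    · intro v h1 h2
      have h3 := hF.dia v h1 h2
      have h4 := hc v
      omega
    · intro v w h1 h2 h3
      have h4 := hF.arc v w h1 h2 h3
      have h5 := hc v
      have h6 := hc w
      omega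
    · intro v h1 h2
      have h3 := hmov v h1 h2
      show (Y0 (τ v) - c).toNat = (X0 v - c).toNat
      rw [h3]
    · intro v h1 h2
      have h3 := hfix v h1 h2
      have h4 := hc v
      omega
    · intro v
      have h1 : (X0 v - c).toNat + (Y0 v - c).toNat ≤
          ∑ v, ((X0 v - c).toNat + (Y0 v - c).toNat) :=
        Finset.single_le_sum (f := fun v => (X0 v - c).toNat + (Y0 v - c).toNat)
          (fun i _ => Nat.zero_le _) (Finset.mem_univ v)
      omega
    · intro v
      have h1 : (X0 v - c).toNat + (Y0 v - c).toNat ≤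
          ∑ v, ((X0 v - c).toNat + (Y0 v - c).toNat) :=
        Finset.single_le_sum (f := fun v => (X0 v - c).toNat + (Y0 v - c).toNat)
          (fun i _ => Nat.zero_le _) (Finset.mem_univ v)
      omega
  obtain ⟨X, Y, hP⟩ := Nat.find_spec hex
  refine ⟨τ, Nat.find hex, X, Y, hτ, hP, ?_⟩
  intro l hl
  by_contra hcon
  push Not at hcon
  have hlt := Nat.find_min hex (m := Nat.find hex - 1) (by omega)
  apply hlt
  have hphi : ∀ z : ℕ, (if z ≤ l then z else z - 1) ≤ z := by intro z; split_ifs <;> omega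
  refine ⟨fun v => if X v ≤ l then X v else X v - 1, fun v => if Y v ≤ l then Y v else Y v - 1,
    ⟨?_, ?_, ?_, ?_, ?_, ?_⟩⟩
  · intro v h1 h2
    have h3 := hP.dia v h1 h2
    have h4 := hcon v h1 h2
    split_ifs <;> omega
  · intro v w h1 h2 h3
    have h4 := hP.arc v w h1 h2 h3
    split_ifs <;> omega
  · intro v h1 h2
    have h3 := hP.mov v h1 h2
    show (if Y (τ v) ≤ l then Y (τ v) else Y (τ v) - 1) = _
    rw [h3]
  · intro v h1 h2
    have h3 := hP.fix v h1 h2
    have hvB : v ∉ B := by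
      have h5 := hτ.notB v h1
      rw [h2] at h5
      rcases h5 with h5 | h5
      · exact h5
      · exact h5.elim
    have h4 := hcon v h1 hvB
    split_ifs <;> omega
  · intro v
    have h1 := hP.xN v
    split_ifs <;> omega
  · intro v
    have h1 := hP.yN v
    split_ifs <;> omega

end H990
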