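import Mathlib

/-! Reachability inside finite sets and reservoirs. -/

namespace H990.DGL

open Finset

set_option linter.unusedSectionVars false

variable {V : Type*} [DecidableEq V]

/-- Reachability inside a finite set. -/
def Rch (E : V → V → Prop) (G : Finset V) (u v : V) : Prop :=
  Relation.ReflTransGen (fun a b => E a b ∧ a ∈ G ∧ b ∈ G) u v

lemma Rch.mono {E : V → V → Prop} {G G' : Finset V} (h : G ⊆ G') {u v : V} (hr : Rch E G u v) :
    Rch E G' u v := by
  induction hr with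
  | refl => exact Relation.ReflTransGen.refl
  | tail _ hbc ih => exact ih.tail ⟨hbc.1, h hbc.2.1, h hbc.2.2⟩

lemma Rch.refl {E : V → V → Prop} {G : Finset V} (v : V) : Rch E G v v :=
  Relation.ReflTransGen.refl

lemma Rch.head {E : V → V → Prop} {G : Finset V} {a b v : V} (h : E a b) (ha : a ∈ G)
    (hb : b ∈ G) (hr : Rch E G b v) : Rch E G a v :=
  Relation.ReflTransGen.head ⟨h, ha, hb⟩ hr

open Classical in
/-- The reservoir: vertices of `G` reaching `v` without `w`. -/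
noncomputable def Rset (E : V → V → Prop) (G : Finset V) (v w : V) : Finset V :=
  (G.erase w).filter (fun u => Rch E (G.erase w) u v)

lemma mem_Rset {E : V → V → Prop} {G : Finset V} {v w u : V} :
    u ∈ Rset E G v w ↔ u ∈ G ∧ u ≠ w ∧ Rch E (G.erase w) u v := by
  simp only [Rset, Finset.mem_filter, Finset.mem_erase]
  tauto

lemma Rset_subset {E : V → V → Prop} {G : Finset V} {v w : V} : Rset E G v w ⊆ G := by
  intro u hu
  exact (mem_Rset.mp hu).1

lemma not_mem_Rset_self {E : V → V → Prop} {G : Finset V} {v w : V} : w ∉ Rset E G v w := by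
  intro h
  exact (mem_Rset.mp h).2.1 rfl

lemma root_mem_Rset {E : V → V → Prop} {G : Finset V} {v w : V} (hv : v ∈ G) (hw : w ≠ v) :
    v ∈ Rset E G v w :=
  mem_Rset.mpr ⟨hv, Ne.symm hw, Rch.refl v⟩

/-- Paths in the reservoir stay in it. -/
lemma Rset_conn {E : V → V → Prop} {G : Finset V} {v w u : V} (hu : u ∈ Rset E G v w) :
    Rch E (Rset E G v w) u v := by
  have h := (mem_Rset.mp hu).2.2
  clear hu
  induction h using Relation.ReflTransGen.head_induction_on with
  | refl => exact Rch.refl _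
  | head hab hbc ih =>
    rename_i a b
    obtain ⟨hE, ha, hb⟩ := hab
    rw [Finset.mem_erase] at ha hb
    refine Rch.head hE ?_ ?_ ih
    · refine mem_Rset.mpr ⟨ha.2, ha.1, Rch.head hE ?_ ?_ hbc⟩
      · exact Finset.mem_erase.mpr ha
      · exact Finset.mem_erase.mpr hb
    · exact mem_Rset.mpr ⟨hb.2, hb.1, hbc⟩

lemma Rset_closed {E : V → V → Prop} {G : Finset V} {v w u x : V} (hu : u ∈ G) (huw : u ≠ w)
    (hE : E u x) (hx : x ∈ Rset E G v w) : u ∈ Rset E G v w := by
  obtain ⟨h1, h2, h3⟩ := mem_Rset.mp hx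
  exact mem_Rset.mpr ⟨hu, huw, Rch.head hE (Finset.mem_erase.mpr ⟨huw, hu⟩)
    (Finset.mem_erase.mpr ⟨h2, h1⟩) h3⟩

/-- If `w'` is outside the reservoir of `w` then the reservoir of `w'` is at least as large. -/
lemma Rset_mono {E : V → V → Prop} {G : Finset V} {v w w' : V} (h : w' ∉ Rset E G v w) :
    Rset E G v w ⊆ Rset E G v w' := by
  intro u hu
  have h1 := Rset_conn hu
  obtain ⟨h2, _, _⟩ := mem_Rset.mp hu
  refine mem_Rset.mpr ⟨h2, ?_, h1.mono ?_⟩
  · rintro rfl
    exact h hu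
  · intro x hx
    refine Finset.mem_erase.mpr ⟨?_, Rset_subset hx⟩
    rintro rfl
    exact h hx

/-- Last visit argument. -/
lemma last_visit {E : V → V → Prop} {G : Finset V} {v w w' u : V} (hv : v ≠ w) (hv' : v ≠ w')
    (h : Rch E G u v) :
    (u ≠ w ∧ u ≠ w' ∧ Rch E ((G.erase w).erase w') u v) ∨
    ∃ z, (z = w ∨ z = w') ∧ z ∈ G ∧ ∃ x, E z x ∧ x ∈ G ∧ x ≠ w ∧ x ≠ w' ∧
      Rch E ((G.erase w).erase w') x v := by
  induction h using Relation.ReflTransGen.head_induction_on with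
  | refl => exact Or.inl ⟨hv, hv', Rch.refl _⟩
  | head hab hbc ih =>
    rename_i a b
    obtain ⟨hE, ha, hb⟩ := hab
    rcases ih with ⟨h1, h2, h3⟩ | h
    · by_cases hz : a = w ∨ a = w'
      · exact Or.inr ⟨a, hz, ha, b, hE, hb, h1, h2, h3⟩
      · rw [not_or] at hz
        refine Or.inl ⟨hz.1, hz.2, Rch.head hE ?_ ?_ h3⟩
        · simp only [Finset.mem_erase]; exact ⟨hz.2, hz.1, ha⟩
        · simp only [Finset.mem_erase]; exact ⟨h2, h1, hb⟩
    · exact Or.inr h

/-- Antisymmetry of domination. -/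
lemma dominate {E : V → V → Prop} {G : Finset V} {v w w' : V} (hconn : ∀ u ∈ G, Rch E G u v)
    (hw : w ∈ G) (hwv : w ≠ v) (hwv' : w' ≠ v) (hne : w' ≠ w) (h : w' ∉ Rset E G v w) :
    w ∈ Rset E G v w' := by
  rcases last_visit (Ne.symm hwv) (Ne.symm hwv') (hconn w hw) with ⟨h1, _, _⟩ |
    ⟨z, hz, hzG, x, hE, hx, hxw, hxw', hr⟩
  · exact absurd rfl h1
  · rcases hz with rfl | rfl
    · refine mem_Rset.mpr ⟨hw, Ne.symm hne, Rch.head hE ?_ ?_ (hr.mono ?_)⟩
      · exact Finset.mem_erase.mpr ⟨Ne.symm hne, hw⟩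
      · exact Finset.mem_erase.mpr ⟨hxw', hx⟩
      · intro y hy
        simp only [Finset.mem_erase] at hy ⊢
        exact ⟨hy.1, hy.2.2⟩
    · exfalso
      apply h
      refine mem_Rset.mpr ⟨hzG, hne, Rch.head hE ?_ ?_ (hr.mono ?_)⟩
      · exact Finset.mem_erase.mpr ⟨hne, hzG⟩
      · exact Finset.mem_erase.mpr ⟨hxw, hx⟩
      · intro y hy
        simp only [Finset.mem_erase] at hy ⊢
        exact ⟨hy.2.1, hy.2.2⟩

/-- A leaf dominated by `w`. -/
lemma exists_leaf {E : V → V → Prop} {G : Finset V} {v w : V} (hv : v ∈ G)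
    (hconn : ∀ u ∈ G, Rch E G u v) (hw : w ∈ G) (hwv : w ≠ v)
    (hex : ∃ y ∈ G, y ≠ w ∧ y ∉ Rset E G v w) :
    ∃ y ∈ G, y ≠ w ∧ y ∉ Rset E G v w ∧ y ≠ v ∧ Rset E G v y = G.erase y := by
  classical
  obtain ⟨y0, hy0, hy0w, hy0R⟩ := hex
  set F : Finset V := G.filter (fun y => y ≠ w ∧ y ∉ Rset E G v w) with hF
  obtain ⟨y, hy, hmax⟩ := Finset.exists_max_image F (fun y => (Rset E G v y).card)
    ⟨y0, by rw [hF, Finset.mem_filter]; exact ⟨hy0, hy0w, hy0R⟩⟩
  rw [hF, Finset.mem_filter] at hy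
  obtain ⟨hyG, hyw, hyR⟩ := hy
  have hyv : y ≠ v := by
    rintro rfl
    exact hyR (root_mem_Rset hv hwv)
  refine ⟨y, hyG, hyw, hyR, hyv, ?_⟩
  have hwy : w ∈ Rset E G v y := dominate hconn hw hwv hyv hyw hyR
  apply Finset.Subset.antisymm
  · intro u hu
    obtain ⟨h1, h2, _⟩ := mem_Rset.mp hu
    exact Finset.mem_erase.mpr ⟨h2, h1⟩
  · intro u hu
    rw [Finset.mem_erase] at hu
    by_contra hcon
    have huv : u ≠ v := by
      rintro rfl
      exact hcon (root_mem_Rset hv hyv)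
    have h1 : Rset E G v y ⊆ Rset E G v u := Rset_mono hcon
    have h2 : y ∈ Rset E G v u := dominate hconn hyG hyv huv hu.1 hcon
    have h3 : u ∈ F := by
      rw [hF, Finset.mem_filter]
      refine ⟨hu.2, ?_, ?_⟩
      · rintro rfl
        exact hcon hwy
      · intro h4
        exact hcon (Rset_mono hyR h4)
    have h4 := hmax u h3
    have h5 : insert y (Rset E G v y) ⊆ Rset E G v u := Finset.insert_subset h2 h1
    have h6 := Finset.card_le_card h5
    rw [Finset.card_insert_of_notMem not_mem_Rset_self] at h6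
    omega

end H990.DGL
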